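import Mathlib

set_option autoImplicit false

namespace Pool.Agent.TH770.PP

open Cardinal Ordinal Set

universe u

/-- The form of `decomp` with the exact size of the index set. -/
private theorem decomp_cof {ν : Cardinal.{u}} (hν : ℵ₀ ≤ ν) (Z : Type u) (hZ : #Z ≤ ν) :
    ∃ (R : Type u) (_ : LinearOrder R) (_ : WellFoundedLT R) (f : Z → R),
      #R = ν.ord.cof ∧ (#R).IsRegular ∧ #R ≤ ν ∧ (∀ r : R, #(Iio r) < #R) ∧
      (∀ r, #{z | f z ≤ r} < ν) := by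
  classical
  have hα : #(ν.ord.ToType) = ν := Cardinal.mk_ord_toType ν
  obtain ⟨s, hs, hs'⟩ := Ordinal.exists_ord_cof_eq ν.ord.ToType
  have hcof : Order.cof ν.ord.ToType = ν.ord.cof := Ordinal.cof_toType _
  have hR : #s = ν.ord.cof := by
    have h1 := congrArg Ordinal.card hs'
    rw [Ordinal.card_type, Cardinal.card_ord, hcof] at h1
    exact h1
  have hlim : Order.IsSuccLimit ν.ord := Cardinal.isSuccLimit_ord hν
  have hreg : (#s).IsRegular := by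
    rw [hR]
    exact Cardinal.isRegular_cof hlim
  obtain ⟨e⟩ : Nonempty (Z ↪ ν.ord.ToType) := by
    rw [← Cardinal.le_def, hα]
    exact hZ
  choose f hf using fun z : Z => hs (e z)
  refine ⟨s, inferInstance, inferInstance, fun z => ⟨f z, (hf z).1⟩, hR, hreg, ?_, ?_, ?_⟩
  · rw [hR]
    exact Ordinal.cof_ord_le ν
  · intro r
    apply Cardinal.mk_Iio_lt
    rw [hs', hR, hcof]
  · intro r
    have h1 : #{z : Z | (⟨f z, (hf z).1⟩ : s) ≤ r} ≤ #(Iic (r : ν.ord.ToType)) := by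
      refine ⟨⟨fun z => ⟨e z.1, (hf z.1).2.trans z.2⟩, ?_⟩⟩
      intro x y hxy
      have := congrArg Subtype.val hxy
      exact Subtype.ext (e.injective this)
    have h2 : #(Iio (r : ν.ord.ToType)) < ν := by
      have := Cardinal.mk_Iio_lt (r : ν.ord.ToType) (by simp)
      rwa [hα] at this
    have h3 : #(Iic (r : ν.ord.ToType)) < ν := by
      rw [← Set.Iio_insert]
      refine (Cardinal.mk_insert_le).trans_lt ?_
      exact Cardinal.add_lt_of_lt hν h2 (Cardinal.one_lt_aleph0.trans_le hν)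
    exact h1.trans_lt h3

/-- A set of size at most `ν` is an increasing union, along a regular cardinal, of sets of size
less than `ν`. -/
theorem decomp {ν : Cardinal.{u}} (hν : ℵ₀ ≤ ν) (Z : Type u) (hZ : #Z ≤ ν) :
    ∃ (R : Type u) (_ : LinearOrder R) (_ : WellFoundedLT R) (f : Z → R),
      (#R).IsRegular ∧ #R ≤ ν ∧ (∀ r : R, #(Iio r) < #R) ∧ (∀ r, #{z | f z ≤ r} < ν) := by
  obtain ⟨R, h1, h2, f, -, h⟩ := decomp_cof hν Z hZ
  exact ⟨R, h1, h2, f, h⟩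

/-- Minimal `γ` argument: traces of size `ρ` on a set of size at most `θ` are inherited by
a subset of size `ρ`. -/
theorem hereditary {V : Type u} (N : V → Set V) {τ ρ θ : Cardinal.{u}} (hτ : τ.IsRegular)
    (hθτ : θ < τ) (hρ : ρ.IsRegular) (hγ : ∀ γ ≤ θ, ρ < γ → γ.ord.cof ≠ ρ) (A0 W : Set V)
    (hA0 : #A0 ≤ θ) (hW : τ ≤ #{w | w ∈ W ∧ ρ ≤ #(N w ∩ A0 : Set V)}) :
    ∃ A, A ⊆ A0 ∧ #A = ρ ∧ τ ≤ #{w | w ∈ W ∧ ρ ≤ #(N w ∩ A : Set V)} := by
  classical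
  let P : Cardinal.{u} → Prop := fun γ => ∃ A, A ⊆ A0 ∧ #A = γ ∧
    τ ≤ #{w | w ∈ W ∧ ρ ≤ #(N w ∩ A : Set V)}
  have hP : ∃ γ, P γ := ⟨#A0, A0, Subset.rfl, rfl, hW⟩
  obtain ⟨γ, hPγ, hmin⟩ : ∃ γ, P γ ∧ ∀ γ' < γ, ¬ P γ' := by
    have hwf : WellFounded ((· < ·) : Cardinal.{u} → Cardinal.{u} → Prop) := Cardinal.lt_wf
    refine ⟨hwf.min {γ | P γ} hP, hwf.min_mem _ hP, fun γ' h1 h2 => ?_⟩
    exact hwf.not_lt_min {γ | P γ} h2 h1
  obtain ⟨A, hA, hAγ, hAτ⟩ := hPγ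
  have hγθ : γ ≤ θ := hAγ ▸ (Cardinal.mk_le_mk_of_subset hA).trans hA0
  have hργ : ρ ≤ γ := by
    have hne : {w | w ∈ W ∧ ρ ≤ #(N w ∩ A : Set V)}.Nonempty := by
      rw [Set.nonempty_iff_ne_empty]
      intro h
      rw [h, Cardinal.mk_eq_zero] at hAτ
      exact absurd hτ.pos (not_lt.mpr hAτ)
    obtain ⟨w, -, hw⟩ := hne
    rw [← hAγ]
    exact hw.trans (Cardinal.mk_le_mk_of_subset inter_subset_right)
  rcases hργ.eq_or_lt with h | h
  · exact ⟨A, hA, hAγ.trans h.symm, hAτ⟩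
  exfalso
  have hρ0 : ℵ₀ ≤ ρ := hρ.aleph0_le
  obtain ⟨R, _, _, f, hR1, hR2, hR3, hR4, hR5⟩ := decomp_cof (hρ0.trans hργ) A hAγ.le
  have hRρ : #R ≠ ρ := by
    rw [hR1]
    exact hγ γ hγθ h
  let A' : R → Set V := fun r => {a | ∃ h : a ∈ A, f ⟨a, h⟩ ≤ r}
  have hA'A : ∀ r, A' r ⊆ A := fun r a ha => ha.1
  have hA'lt : ∀ r, #(A' r) < γ := by
    intro r
    refine lt_of_le_of_lt ?_ (hR5 r)
    refine ⟨⟨fun a => ⟨⟨a.1, a.2.1⟩, a.2.2⟩, ?_⟩⟩
    intro x y hxy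
    have := congrArg (fun z => (z.1 : V)) hxy
    exact Subtype.ext this
  have key : ∀ w, ρ ≤ #(N w ∩ A : Set V) → ∃ r, ρ ≤ #(N w ∩ A' r : Set V) := by
    intro w hw
    obtain ⟨Y, hYs, hYc⟩ := (Cardinal.le_mk_iff_exists_subset).mp hw
    have hYA : ∀ y ∈ Y, y ∈ A := fun y hy => (hYs hy).2
    rcases lt_or_gt_of_ne hRρ with hlt | hgt
    · -- `#R < ρ`
      by_contra hcon
      push Not at hcon
      have h1 : Y ⊆ ⋃ r : R, (N w ∩ A' r : Set V) := by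
        intro y hy
        rw [mem_iUnion]
        exact ⟨f ⟨y, hYA y hy⟩, (hYs hy).1, hYA y hy, le_rfl⟩
      have h2 : #(⋃ r : R, (N w ∩ A' r : Set V) : Set V) < ρ :=
        (Cardinal.card_iUnion_lt_iff_forall_of_isRegular hρ hlt).mpr hcon
      have h3 := (Cardinal.mk_le_mk_of_subset h1).trans_lt h2
      rw [hYc] at h3
      exact lt_irrefl _ h3
    · -- `ρ < #R`
      have h1 : ∃ r : R, ∀ y : Y, f ⟨y, hYA y y.2⟩ ≤ r := by
        by_contra hcon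
        push Not at hcon
        have h2 : (univ : Set R) ⊆ ⋃ y : Y, Iio (f ⟨y, hYA y y.2⟩) := by
          intro r _
          obtain ⟨y, hy⟩ := hcon r
          exact mem_iUnion.mpr ⟨y, hy⟩
        have h3 : #(⋃ y : Y, Iio (f ⟨y, hYA y y.2⟩) : Set R) < #R := by
          refine (Cardinal.card_iUnion_lt_iff_forall_of_isRegular hR2 ?_).mpr fun y => hR4 _
          rw [hYc]
          exact hgt
        have h4 := (Cardinal.mk_le_mk_of_subset h2).trans_lt h3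
        rw [Cardinal.mk_univ] at h4
        exact lt_irrefl _ h4
      obtain ⟨r, hr⟩ := h1
      refine ⟨r, ?_⟩
      rw [← hYc]
      exact Cardinal.mk_le_mk_of_subset fun y hy => ⟨(hYs hy).1, hYA y hy, hr ⟨y, hy⟩⟩
  have hcov : {w | w ∈ W ∧ ρ ≤ #(N w ∩ A : Set V)} ⊆
      ⋃ r : R, {w | w ∈ W ∧ ρ ≤ #(N w ∩ A' r : Set V)} := by
    intro w hw
    obtain ⟨r, hr⟩ := key w hw.2
    exact mem_iUnion.mpr ⟨r, hw.1, hr⟩
  have hex : ∃ r, τ ≤ #{w | w ∈ W ∧ ρ ≤ #(N w ∩ A' r : Set V)} := by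
    by_contra hcon
    push Not at hcon
    have h2 : #(⋃ r : R, {w | w ∈ W ∧ ρ ≤ #(N w ∩ A' r : Set V)} : Set V) < τ :=
      (Cardinal.card_iUnion_lt_iff_forall_of_isRegular hτ
        ((hR3.trans hγθ).trans_lt hθτ)).mpr hcon
    exact absurd ((hAτ.trans (Cardinal.mk_le_mk_of_subset hcov)).trans_lt h2) (lt_irrefl _)
  obtain ⟨r, hr⟩ := hex
  exact hmin _ (hA'lt r) ⟨A' r, (hA'A r).trans hA, rfl, hr⟩

/-- A singular cardinal below `ℵ_{ω₂}` has cofinality at most `ℵ₁`. -/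
theorem cof_le_of_lt_aleph_omega_two {γ : Cardinal.{u}} (h0 : ℵ₀ ≤ γ) (h : γ < ℵ_ (ω_ 2))
    (hs : ¬ γ.IsRegular) : γ.ord.cof ≤ ℵ_ 1 := by
  obtain ⟨δ, rfl⟩ := Cardinal.mem_range_aleph_iff.mpr h0
  have h1 : (ℵ_ δ).IsSingular := Cardinal.IsSingular.of_not_isRegular h0 hs
  have hlim : Order.IsSuccLimit δ := (Cardinal.isSingular_aleph_iff.mp h1).1
  have hδ : δ < ω_ 2 := Cardinal.aleph_lt_aleph.mp h
  rw [Cardinal.ord_aleph, Ordinal.cof_omega hlim]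
  refine (Ordinal.cof_le_card δ).trans ?_
  have h2 : δ.card < ℵ_ 2 := by
    rw [← Cardinal.lt_ord, Cardinal.ord_aleph]
    exact hδ
  have h3 : (ℵ_ 2 : Cardinal.{u}) = Order.succ (ℵ_ 1) := by
    rw [Cardinal.succ_aleph, one_add_one_eq_two]
  rw [h3] at h2
  exact Order.lt_succ_iff.mp h2

end Pool.Agent.TH770.PP
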