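import Mathlib
import Pool.Agent.H38R3.TPDefs

/-!
# Monochromatic transfinite paths (MP_ebc4cb_lc, Q2): definitions for the positive part

Plan: `ℵ_{ω₂}` is in the class `ℙ` (in ZFC).
-/

set_option autoImplicit false

namespace Pool.Agent.TH770.PP

open Cardinal Set

universe u

variable {V : Type u}

/-- `P` is the vertex set of a transfinite path of `G`. -/
def OpenPath (G : SimpleGraph V) (P : Set V) : Prop :=
  ∃ (L : Type u) (_ : LinearOrder L) (_ : WellFoundedLT L) (p : L → V),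
    Function.Injective p ∧ range p = P ∧
    (∀ x y : L, y < x → ∃ z, y ≤ z ∧ z < x ∧ G.Adj (p z) (p x))

/-- `P` is the vertex set of a transfinite path of `G` with first vertex `a` and last vertex `b`. -/
def ClosedPath (G : SimpleGraph V) (P : Set V) (a b : V) : Prop :=
  ∃ (L : Type u) (_ : LinearOrder L) (_ : WellFoundedLT L) (p : L → V),
    Function.Injective p ∧ range p = P ∧
    (∀ x y : L, y < x → ∃ z, y ≤ z ∧ z < x ∧ G.Adj (p z) (p x)) ∧
    (∃ x, (∀ y, x ≤ y) ∧ p x = a) ∧ (∃ x, (∀ y, y ≤ x) ∧ p x = b)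

/-- The situation in which small subsets of `B` can be covered by paths. -/
structure Rich (G : SimpleGraph V) (B W : Set V) (θ : Cardinal.{u}) : Prop where
  reg : θ.IsRegular
  unc : ℵ₀ < θ
  big : θ ≤ #B
  common : ∀ a ∈ B, ∀ b ∈ B, a ≠ b → θ ≤ #(G.neighborSet a ∩ G.neighborSet b : Set V)
  exit : ∀ w ∈ W, θ ≤ #(G.neighborSet w ∩ B : Set V)
  rich : ∀ ρ : Cardinal.{u}, ρ.IsRegular → ρ < θ → ∀ F : Set V, #F < θ →
    ∃ A, A ⊆ B ∧ Disjoint A F ∧ #A = ρ ∧
      θ ≤ #{w | w ∈ W ∧ ρ ≤ #(G.neighborSet w ∩ A : Set V)}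

/-- Outside of every small set there is a vertex `w` with property `E` and an edge from `w` to a
vertex `a ∈ B`. -/
def Avail (G : SimpleGraph V) (B : Set V) (θ : Cardinal.{u}) (E : V → Prop) : Prop :=
  ∀ F : Set V, #F < θ → ∃ w, w ∉ F ∧ E w ∧ ∃ a ∈ B, a ∉ F ∧ G.Adj w a

/-- small sets do not cover large sets -/
theorem exists_fresh {θ : Cardinal.{u}} {X F : Set V} (hX : θ ≤ #X) (hF : #F < θ) :
    ∃ x ∈ X, x ∉ F := by
  by_contra h
  push Not at h
  exact absurd (hX.trans (Cardinal.mk_le_mk_of_subset h)) (not_le.mpr hF)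

theorem ClosedPath.left_mem {G : SimpleGraph V} {P : Set V} {a b : V} (h : ClosedPath G P a b) :
    a ∈ P := by
  obtain ⟨L, _, _, p, -, h2, -, ⟨x, -, h4⟩, -⟩ := h
  exact h2 ▸ ⟨x, h4⟩

theorem ClosedPath.right_mem {G : SimpleGraph V} {P : Set V} {a b : V} (h : ClosedPath G P a b) :
    b ∈ P := by
  obtain ⟨L, _, _, p, -, h2, -, -, ⟨x, -, h4⟩⟩ := h
  exact h2 ▸ ⟨x, h4⟩

theorem union_lt {θ : Cardinal.{u}} (hθ : ℵ₀ ≤ θ) {X Y : Set V} (hX : #X < θ) (hY : #Y < θ) :
    #(X ∪ Y : Set V) < θ :=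
  (Cardinal.mk_union_le X Y).trans_lt (Cardinal.add_lt_of_lt hθ hX hY)

theorem singleton_lt {θ : Cardinal.{u}} (hθ : ℵ₀ ≤ θ) (x : V) : #({x} : Set V) < θ := by
  rw [Cardinal.mk_singleton]
  exact Cardinal.one_lt_aleph0.trans_le hθ

/-- Recursion with choices along a well-order. -/
theorem wf_rec {K : Type*} [LinearOrder K] [WellFoundedLT K] {X : Type*} [Nonempty X]
    (Φ : K → (K → X) → X → Prop)
    (hc : ∀ k g g' x, (∀ k' < k, g k' = g' k') → Φ k g x → Φ k g' x)
    (hs : ∀ k g, (∀ k' < k, Φ k' g (g k')) → ∃ x, Φ k g x) :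
    ∃ g : K → X, ∀ k, Φ k g (g k) := by
  classical
  have hwf : WellFounded ((· < ·) : K → K → Prop) := wellFounded_lt
  let x0 : X := Classical.arbitrary X
  let ext : (k : K) → ((k' : K) → k' < k → X) → K → X :=
    fun k rec k' => if h : k' < k then rec k' h else x0
  let F : (k : K) → ((k' : K) → k' < k → X) → X := fun k rec =>
    if h : ∃ x, Φ k (ext k rec) x then h.choose else x0
  let g : K → X := hwf.fix F
  have hg : ∀ k, g k = F k (fun k' _ => g k') := fun k => hwf.fix_eq F k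
  have hext : ∀ k, ∀ k' < k, ext k (fun k' _ => g k') k' = g k' := by
    intro k k' h
    simp only [ext, dif_pos h]
  refine ⟨g, fun k => ?_⟩
  induction k using hwf.induction with
  | _ k ih =>
    have h1 : ∃ x, Φ k (ext k (fun k' _ => g k')) x := by
      obtain ⟨x, hx⟩ := hs k g ih
      exact ⟨x, hc k g _ x (fun k' h => (hext k k' h).symm) hx⟩
    have h2 : g k = h1.choose := by
      rw [hg k]
      simp only [F, dif_pos h1]
    rw [h2]
    exact hc k _ g _ (hext k) h1.choose_spec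

end Pool.Agent.TH770.PP
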