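import Mathlib
import Pool.Agent.H38R3.TPDefs

/-!
# Monochromatic transfinite paths (MP_ebc4cb_lc, Q2): definitions for the negative part
-/

set_option autoImplicit false

namespace Pool.Agent.TH770.PP

open Cardinal Set

universe u

/-- `δ` is a nonminimal point closed under `f`. -/
def ClosedAt {Ω : Type u} [LinearOrder Ω] (f : Ω → Ω) (δ : Ω) : Prop :=
  (∃ β, β < δ) ∧ ∀ β < δ, f β < δ

/-- A form of stationarity in a well-order whose order type is a regular uncountable cardinal. -/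
def Stat {Ω : Type u} [LinearOrder Ω] (T : Set Ω) : Prop :=
  ∀ f : Ω → Ω, ∃ δ ∈ T, ClosedAt f δ

/-- `C` is a sequence of cofinal subsets without accumulation points in `T`. -/
structure CSeq {Ω : Type u} [LinearOrder Ω] (T : Set Ω) (C : Ω → Set Ω) : Prop where
  sub : ∀ v, C v ⊆ Iio v
  cofinal : ∀ v, ∀ β < v, ∃ γ ∈ C v, β ≤ γ
  avoid : ∀ δ ∈ T, ∀ v, δ < v → ∃ β < δ, ∀ γ ∈ C v, γ < δ → γ < β

end Pool.Agent.TH770.PP
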