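import Mathlib
import Pool.Agent.H38R3.TPDefs
import Pool.Agent.TH770.PP.NegDefs
import Pool.Agent.TH770.PP.Defs

/-!
# Job K1 (helper643): `path_club` and `succ_not_mem_of_cof_aleph0`
-/

set_option autoImplicit false

namespace Pool.Agent.TH770.PP

open Cardinal Ordinal Set Pool.H38R3.TransPath

universe u

variable {Ω : Type u} [LinearOrder Ω] [WellFoundedLT Ω]

omit [WellFoundedLT Ω] in
private theorem Iic_lt (hunc : ℵ₀ < #Ω) (hi : ∀ x : Ω, #(Iio x) < #Ω) (x : Ω) :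
    #(Iic x) < #Ω := by
  have h : Iic x = Iio x ∪ {x} := by
    rw [Iio_union_right]
  rw [h]
  exact (Cardinal.mk_union_le _ _).trans_lt (Cardinal.add_lt_of_lt hunc.le (hi x)
    ((Cardinal.mk_singleton x).trans_lt (Cardinal.one_lt_aleph0.trans hunc)))

omit [WellFoundedLT Ω] in
private theorem bdd_of_small (hreg : (#Ω).IsRegular) (hunc : ℵ₀ < #Ω)
    (hi : ∀ x : Ω, #(Iio x) < #Ω) (S : Set Ω) (hS : #S < #Ω) : ∃ m, ∀ s ∈ S, s < m := by
  by_contra hcon
  push Not at hcon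
  have h1 : (⋃ s : S, Iic (s : Ω)) = Set.univ := by
    rw [eq_univ_iff_forall]
    intro x
    obtain ⟨s, hs, hxs⟩ := hcon x
    exact mem_iUnion.mpr ⟨⟨s, hs⟩, hxs⟩
  have h2 : #(⋃ s : S, Iic (s : Ω)) < #Ω :=
    (card_iUnion_lt_iff_forall_of_isRegular hreg hS).mpr fun s => Iic_lt hunc hi _
  rw [h1, mk_univ] at h2
  exact lt_irrefl _ h2

/-- A path of full size on a regular uncountable well-order: for club many `δ` there is a vertex
`v ≥ δ` whose neighbours are cofinal below `δ`. -/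
theorem path_club (hreg : (#Ω).IsRegular) (hunc : ℵ₀ < #Ω) (hi : ∀ x : Ω, #(Iio x) < #Ω)
    (G : SimpleGraph Ω) (P : G.Subgraph) (hP : IsTransPath P.coe) (hc : #P.verts = #Ω) :
    ∃ f : Ω → Ω, ∀ δ, (∀ β < δ, f β < δ) →
      ∃ v, δ ≤ v ∧ ∀ β < δ, ∃ η, β ≤ η ∧ η < δ ∧ G.Adj η v := by
  classical
  obtain ⟨r, hr, hpath⟩ := hP
  have hle : Ordinal.type ((· < ·) : Ω → Ω → Prop) ≤ Ordinal.type r := by
    have h1 : Ordinal.type ((· < ·) : Ω → Ω → Prop) ≤ (#Ω).ord := by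
      refine le_of_forall_lt fun o ho => ?_
      obtain ⟨x, rfl⟩ := (Ordinal.typein ((· < ·) : Ω → Ω → Prop)).mem_range_of_rel_top
        (by simpa using ho)
      rw [Cardinal.lt_ord]
      exact hi x
    refine h1.trans ?_
    rw [← hc]
    exact Cardinal.ord_le_type r
  obtain ⟨g⟩ := Ordinal.type_le_iff.mp hle
  have hginj : Function.Injective (fun ζ : Ω => ((g ζ : P.verts) : Ω)) :=
    Subtype.val_injective.comp g.injective
  have hf : ∀ β : Ω, ∃ m : Ω, ((g β : P.verts) : Ω) < m ∧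
      ∀ ζ : Ω, ((g ζ : P.verts) : Ω) ≤ β → ζ < m := by
    intro β
    have hs1 : #{ζ : Ω | ((g ζ : P.verts) : Ω) ≤ β} ≤ #(Iic β) := by
      refine Cardinal.mk_le_of_injective (f := fun ζ => (⟨((g ζ.1 : P.verts) : Ω), ζ.2⟩ : Iic β)) ?_
      intro a b hab
      have := congrArg (Subtype.val) hab
      exact Subtype.ext (hginj this)
    have hs2 : #({ζ : Ω | ((g ζ : P.verts) : Ω) ≤ β} ∪ {((g β : P.verts) : Ω)} : Set Ω) < #Ω :=
      (Cardinal.mk_union_le _ _).trans_lt (Cardinal.add_lt_of_lt hunc.le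
        (hs1.trans_lt (Iic_lt hunc hi β))
        ((Cardinal.mk_singleton _).trans_lt (Cardinal.one_lt_aleph0.trans hunc)))
    obtain ⟨m, hm⟩ := bdd_of_small hreg hunc hi _ hs2
    exact ⟨m, hm _ (Or.inr rfl), fun ζ hζ => hm _ (Or.inl hζ)⟩
  choose f hf1 hf2 using hf
  refine ⟨f, fun δ hδ => ⟨((g δ : P.verts) : Ω), ?_, fun β hβ => ?_⟩⟩
  · by_contra hlt
    push Not at hlt
    exact lt_asymm (hf2 ((g δ : P.verts) : Ω) δ le_rfl) (hδ _ hlt)
  · have hm := hδ β hβ
    obtain ⟨w, hw1, hw2, hw3⟩ := hpath (g δ) (g (f β)) (g.map_rel_iff.mpr hm)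
    obtain ⟨ζ, hζ⟩ := g.mem_range_of_rel hw2
    subst hζ
    have hζδ : ζ < δ := g.map_rel_iff.mp hw2
    have hζm : f β ≤ ζ := by
      rcases hw1 with h | h
      · exact (g.injective h).ge
      · exact (g.map_rel_iff.mp h).le
    refine ⟨((g ζ : P.verts) : Ω), ?_, ?_, ?_⟩
    · by_contra hlt
      push Not at hlt
      exact absurd (hf2 β ζ hlt.le) (not_lt.mpr hζm)
    · exact (hf1 ζ).trans (hδ ζ hζδ)
    · exact P.adj_sub hw3

/-- closed points of prescribed cofinality -/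
private theorem exists_closed_cof (hreg : (#Ω).IsRegular) (hunc : ℵ₀ < #Ω)
    (hi : ∀ x : Ω, #(Iio x) < #Ω) (f : Ω → Ω) (lam : Cardinal.{u}) (hlam : lam.IsRegular)
    (hlt : lam < #Ω) :
    ∃ δ : Ω, (∃ β, β < δ) ∧ (∀ β < δ, f β < δ) ∧
      ∀ S : Set Ω, S ⊆ Iio δ → #S < lam → ∃ β < δ, ∀ s ∈ S, s < β := by
  classical
  -- strict bounds
  have hF : ∀ β : Ω, ∃ m : Ω, β < m ∧ ∀ γ ≤ β, f γ < m := by
    intro β
    have hs1 : #(f '' Iic β) < #Ω := Cardinal.mk_image_le.trans_lt (Iic_lt hunc hi β)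
    have hs2 : #(f '' Iic β ∪ {β} : Set Ω) < #Ω :=
      (Cardinal.mk_union_le _ _).trans_lt (Cardinal.add_lt_of_lt hunc.le hs1
        ((Cardinal.mk_singleton _).trans_lt (Cardinal.one_lt_aleph0.trans hunc)))
    obtain ⟨m, hm⟩ := bdd_of_small hreg hunc hi _ hs2
    exact ⟨m, hm _ (Or.inr rfl), fun γ hγ => hm _ (Or.inl ⟨γ, hγ, rfl⟩)⟩
  choose F hF1 hF2 using hF
  have hne : Nonempty Ω := by
    rw [← Cardinal.mk_ne_zero_iff]
    exact (Cardinal.aleph0_pos.trans hunc).ne'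
  set K := lam.ord.ToType with hK
  have hKi : ∀ i : K, #(Iio i) < lam := fun i => by
    have h1 : Ordinal.type ((· < ·) : K → K → Prop) = lam.ord := Ordinal.type_toType _
    have h2 : #K = lam := by simp [hK]
    have := Cardinal.mk_Iio_lt (α := K) i (by rw [h1, h2])
    rwa [h2] at this
  obtain ⟨a, ha⟩ := wf_rec (K := K) (X := Ω) (fun i g x => ∀ j < i, F (g j) < x)
    (fun k g g' x hgg h j hj => by rw [← hgg j hj]; exact h j hj)
    (fun k g _ => by
      have hs : #((fun j => F (g j)) '' Iio k) < #Ω :=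
        Cardinal.mk_image_le.trans_lt ((hKi k).trans hlt)
      obtain ⟨m, hm⟩ := bdd_of_small hreg hunc hi _ hs
      exact ⟨m, fun j hj => hm _ ⟨j, hj, rfl⟩⟩)
  -- an upper bound
  have hra : #(range a) < #Ω := by
    refine Cardinal.mk_range_le.trans_lt ?_
    simpa [hK] using hlt
  obtain ⟨m, hm⟩ := bdd_of_small hreg hunc hi _ hra
  have hwf : WellFounded ((· < ·) : Ω → Ω → Prop) := wellFounded_lt
  let U : Set Ω := {x | ∀ i, a i < x}
  have hU : U.Nonempty := ⟨m, fun i => hm _ ⟨i, rfl⟩⟩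
  let δ := hwf.min U hU
  have hδ : ∀ i, a i < δ := hwf.min_mem U hU
  have hδmin : ∀ β < δ, ∃ i, β ≤ a i := by
    intro β hβ
    by_contra hcon
    push Not at hcon
    exact hwf.not_lt_min U (x := β) hcon hβ
  -- `K` has no last element
  have hinf : ℵ₀ ≤ lam := hlam.aleph0_le
  have hnolast : ∀ S : Set K, #S < lam → ∃ j, ∀ i ∈ S, i < j := by
    intro S hS
    by_contra hcon
    push Not at hcon
    have h1 : (⋃ s : S, Iic (s : K)) = Set.univ := by
      rw [eq_univ_iff_forall]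
      intro x
      obtain ⟨s, hs, hxs⟩ := hcon x
      exact mem_iUnion.mpr ⟨⟨s, hs⟩, hxs⟩
    have h2 : #(⋃ s : S, Iic (s : K)) < lam := by
      refine (card_iUnion_lt_iff_forall_of_isRegular hlam hS).mpr fun s => ?_
      have h : Iic (s : K) = Iio (s : K) ∪ {(s : K)} := by
        rw [Iio_union_right]
      rw [h]
      exact (Cardinal.mk_union_le _ _).trans_lt (Cardinal.add_lt_of_lt hinf (hKi _)
        ((Cardinal.mk_singleton _).trans_lt (Cardinal.one_lt_aleph0.trans_le hinf)))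
    rw [h1, mk_univ] at h2
    simp [hK] at h2
  refine ⟨δ, ?_, ?_, ?_⟩
  · obtain ⟨j, -⟩ := hnolast ∅ (by
      rw [Cardinal.mk_eq_zero]
      exact Cardinal.aleph0_pos.trans_le hinf)
    exact ⟨a j, hδ j⟩
  · intro β hβ
    obtain ⟨i, hi'⟩ := hδmin β hβ
    obtain ⟨j, hj⟩ := hnolast {i} (by
      rw [Cardinal.mk_singleton]
      exact Cardinal.one_lt_aleph0.trans_le hinf)
    have h1 : F (a i) < a j := ha j i (hj i rfl)
    exact ((hF2 (a i) β hi').trans h1).trans (hδ j)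
  · intro S hS hScard
    have hch : ∀ s : S, ∃ i, (s : Ω) ≤ a i := fun s => hδmin s (hS s.2)
    choose ι hι using hch
    obtain ⟨j, hj⟩ := hnolast (range ι) (Cardinal.mk_range_le.trans_lt hScard)
    refine ⟨a j, hδ j, fun s hs => ?_⟩
    have h1 : F (a (ι ⟨s, hs⟩)) < a j := ha j _ (hj _ ⟨_, rfl⟩)
    exact ((hι ⟨s, hs⟩).trans_lt (hF1 _)).trans h1

/-- Successors of cardinals of countable cofinality are not in the class. -/
theorem succ_not_mem_of_cof_aleph0 {μ : Cardinal.{u}} (hμ : ℵ₀ ≤ μ) (hcof : μ.ord.cof = ℵ₀) :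
    Order.succ μ ∉ PathCardinals.{u} := by
  classical
  rintro ⟨-, hmem⟩
  set Ω := (Order.succ μ).ord.ToType with hΩdef
  have hΩ : #Ω = Order.succ μ := by simp [hΩdef]
  have hreg : (#Ω).IsRegular := by
    rw [hΩ]; exact Cardinal.isRegular_succ hμ
  have hunc : ℵ₀ < #Ω := by
    rw [hΩ]; exact Order.lt_succ_of_le hμ
  have hi : ∀ x : Ω, #(Iio x) < #Ω := fun x => by
    have h1 : Ordinal.type ((· < ·) : Ω → Ω → Prop) = (Order.succ μ).ord := Ordinal.type_toType _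
    exact Cardinal.mk_Iio_lt (α := Ω) x (by rw [h1, hΩ])
  -- the cofinal sequence in `μ`
  set M := μ.ord.ToType with hM
  obtain ⟨S, hScof, hScard⟩ := Order.exists_cof_eq M
  have hScount : #S = ℵ₀ := by
    rw [hScard]
    exact (Ordinal.cof_toType _).trans hcof
  have hSc : Nonempty (ℕ ≃ S) := by
    rw [← Cardinal.lift_mk_eq']
    simp [hScount]
  obtain ⟨e0⟩ := hSc
  -- injections
  have hinj : ∀ v : Ω, ∃ e : Iio v → M, Function.Injective e := by
    intro v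
    have h1 : #(Iio v) ≤ μ := Order.lt_succ_iff.mp ((hi v).trans_eq hΩ)
    have h2 : #(Iio v) ≤ #M := by simpa [hM] using h1
    obtain ⟨e⟩ := h2
    exact ⟨e, e.injective⟩
  choose e he using hinj
  have hex : ∀ (v : Ω) (x : Iio v), ∃ n : ℕ, e v x ≤ (e0 n : M) := by
    intro v x
    obtain ⟨s, hs, hxs⟩ := hScof (e v x)
    exact ⟨e0.symm ⟨s, hs⟩, by simpa using hxs⟩
  let col : Ω → Ω → ℕ := fun u v => if h : u < v then Nat.find (hex v ⟨u, h⟩) else 0
  let c : Sym2 Ω → ℕ := fun p => Sym2.lift ⟨fun x y => col (min x y) (max x y), fun x y => by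
    simp only [min_comm, max_comm]⟩ p
  obtain ⟨n, P, hP, hPcard⟩ := hmem Ω hΩ c
  obtain ⟨f, hf⟩ := path_club hreg hunc hi _ P hP (hPcard.trans hΩ.symm)
  -- number of colour-`n` neighbours
  have hν : #(Iic (e0 n : M)) < μ := by
    have h : Iic (e0 n : M) = Iio (e0 n : M) ∪ {(e0 n : M)} := by
      rw [Iio_union_right]
    have h3 : #(Iio (e0 n : M)) < μ := by
      have h1 : Ordinal.type ((· < ·) : M → M → Prop) = μ.ord := Ordinal.type_toType _
      have h2 : #M = μ := by simp [hM]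
      have := Cardinal.mk_Iio_lt (α := M) (e0 n : M) (by rw [h1, h2])
      rwa [h2] at this
    rw [h]
    exact (Cardinal.mk_union_le _ _).trans_lt (Cardinal.add_lt_of_lt hμ h3
      ((Cardinal.mk_singleton _).trans_lt (Cardinal.one_lt_aleph0.trans_le hμ)))
  obtain ⟨lam, hlamreg, hlam1, hlam2⟩ : ∃ lam : Cardinal.{u}, lam.IsRegular ∧
      #(Iic (e0 n : M)) < lam ∧ lam ≤ μ := by
    by_cases hfin : #(Iic (e0 n : M)) < ℵ₀
    · exact ⟨ℵ₀, Cardinal.isRegular_aleph0, hfin, hμ⟩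
    · push Not at hfin
      exact ⟨Order.succ #(Iic (e0 n : M)), Cardinal.isRegular_succ hfin, Order.lt_succ _,
        Order.succ_le_of_lt hν⟩
  obtain ⟨δ, hδne, hδcl, hδcof⟩ := exists_closed_cof hreg hunc hi f lam hlamreg (by
    rw [hΩ]; exact Order.lt_succ_of_le hlam2)
  obtain ⟨v, hv, hvn⟩ := hf δ hδcl
  -- the neighbours of `v` below `δ`
  let N : Set Ω := {η | η < δ ∧ (colourGraph c n).Adj η v}
  have hNcard : #N ≤ #(Iic (e0 n : M)) := by
    have hNlt : ∀ η : N, (η : Ω) < v := fun η => η.2.1.trans_le hv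
    have hNe : ∀ η : N, e v ⟨η, hNlt η⟩ ≤ (e0 n : M) := by
      intro η
      have h1 : c s((η : Ω), v) = n := η.2.2.2
      have h2 : c s((η : Ω), v) = col η v := by
        simp only [c, Sym2.lift_mk, min_eq_left (hNlt η).le, max_eq_right (hNlt η).le]
      have h3 : col η v = Nat.find (hex v ⟨η, hNlt η⟩) := by
        simp only [col, dif_pos (hNlt η)]
      have h4 := Nat.find_spec (hex v ⟨η, hNlt η⟩)
      rw [← h3, ← h2, h1] at h4
      exact h4
    refine Cardinal.mk_le_of_injective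
      (f := fun η : N => (⟨e v ⟨η, hNlt η⟩, hNe η⟩ : Iic (e0 n : M))) ?_
    intro a b hab
    have h1 := congrArg Subtype.val hab
    have h2 := congrArg Subtype.val (he v h1)
    exact Subtype.ext h2
  obtain ⟨β, hβδ, hβ⟩ := hδcof N (fun η hη => hη.1) (hNcard.trans_lt hlam1)
  obtain ⟨η, hη1, hη2, hη3⟩ := hvn β hβδ
  exact absurd (hβ η ⟨hη2, hη3⟩) (not_lt.mpr hη1)

end Pool.Agent.TH770.PP
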