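import Mathlib
import Pool.Agent.TH770.PP.NegDefs

/-!
# Ulam's splitting theorem and cofinal sequences avoiding a stationary set
-/

set_option autoImplicit false

namespace Pool.Agent.TH770.PP

open Cardinal Ordinal Set

universe u

variable {Ω : Type u} [LinearOrder Ω] [WellFoundedLT Ω]

omit [WellFoundedLT Ω] in
/-- A set of size at most `μ` in a well-order of type `μ⁺` is bounded. -/
private theorem k3_bdd {μ : Cardinal.{u}} (hμ : ℵ₀ ≤ μ) (hΩ : #Ω = Order.succ μ)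
    (hi : ∀ x : Ω, #(Iio x) < #Ω) (S : Set Ω) (hS : #S ≤ μ) : ∃ b, ∀ x ∈ S, x < b := by
  by_contra hcon
  push Not at hcon
  have hle : ∀ x : Ω, #(Iic x) ≤ μ := by
    intro x
    have h1 : #(Iio x) ≤ μ := by
      have := hi x
      rw [hΩ] at this
      exact Order.lt_succ_iff.mp this
    have h2 : Iic x = Iio x ∪ {x} := by
      ext y
      simp [le_iff_lt_or_eq]
    rw [h2]
    refine (Cardinal.mk_union_le _ _).trans ?_
    rw [Cardinal.mk_singleton]
    exact Cardinal.add_le_of_le hμ h1 (Cardinal.one_le_aleph0.trans hμ)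
  have hcov : (Set.univ : Set Ω) ⊆ ⋃ x : S, Iic (x : Ω) := by
    intro b _
    obtain ⟨x, hx, hbx⟩ := hcon b
    exact Set.mem_iUnion.mpr ⟨⟨x, hx⟩, hbx⟩
  have h1 : #Ω ≤ μ := by
    calc #Ω = #(Set.univ : Set Ω) := Cardinal.mk_univ.symm
      _ ≤ #(⋃ x : S, Iic (x : Ω)) := Cardinal.mk_le_mk_of_subset hcov
      _ ≤ Cardinal.sum fun x : S => #(Iic (x : Ω)) := Cardinal.mk_iUnion_le_sum_mk
      _ ≤ Cardinal.sum fun _ : S => μ := Cardinal.sum_le_sum _ _ fun x => hle x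
      _ = #S * μ := by simp
      _ ≤ μ * μ := mul_le_mul_left hS μ
      _ = μ := Cardinal.mul_eq_self hμ
  rw [hΩ] at h1
  exact absurd h1 (not_le.mpr (Order.lt_succ μ))

/-- Ulam's theorem: a stationary subset of a successor cardinal splits into infinitely many
pairwise disjoint stationary sets. -/
theorem ulam {μ : Cardinal.{u}} (hμ : ℵ₀ ≤ μ) (hΩ : #Ω = Order.succ μ)
    (hi : ∀ x : Ω, #(Iio x) < #Ω) (T : Set Ω) (hT : Stat T) :
    ∃ T' : ℕ → Set Ω, (∀ n, T' n ⊆ T) ∧ (∀ n, Stat (T' n)) ∧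
      ∀ m n, m ≠ n → Disjoint (T' m) (T' n) := by
  classical
  have hI : #(μ.ord.ToType) = μ := Cardinal.mk_ord_toType μ
  have he : ∀ β : Ω, Nonempty (Iio β ↪ μ.ord.ToType) := by
    intro β
    have h1 : #(Iio β) ≤ #(μ.ord.ToType) := by
      rw [hI]
      have := hi β
      rw [hΩ] at this
      exact Order.lt_succ_iff.mp this
    exact Cardinal.le_def _ _ |>.mp h1
  let e : ∀ β : Ω, Iio β ↪ μ.ord.ToType := fun β => (he β).some
  let A : μ.ord.ToType → Ω → Set Ω := fun ξ α => {β | β ∈ T ∧ ∃ h : α < β, e β ⟨α, h⟩ = ξ}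
  have hA : ∀ α, ∃ ξ, Stat (A ξ α) := by
    intro α
    by_contra hcon
    push Not at hcon
    have h2 : ∀ ξ, ∃ f : Ω → Ω, ∀ δ ∈ A ξ α, ¬ ClosedAt f δ := by
      intro ξ
      have := hcon ξ
      unfold Stat at this
      push Not at this
      exact this
    choose F hF using h2
    have h3 : ∀ β : Ω, ∃ b : Ω, α < b ∧ ∀ ξ, F ξ β < b := by
      intro β
      obtain ⟨b, hb⟩ := k3_bdd hμ hΩ hi ({α} ∪ Set.range fun ξ => F ξ β) (by
        refine (Cardinal.mk_union_le _ _).trans ?_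
        rw [Cardinal.mk_singleton]
        exact Cardinal.add_le_of_le hμ (Cardinal.one_le_aleph0.trans hμ)
          (Cardinal.mk_range_le.trans hI.le))
      exact ⟨b, hb α (Or.inl rfl), fun ξ => hb _ (Or.inr ⟨ξ, rfl⟩)⟩
    choose g hgα hgF using h3
    obtain ⟨δ, hδT, ⟨β, hβ⟩, hδ⟩ := hT g
    have hαδ : α < δ := (hgα β).trans (hδ β hβ)
    refine hF (e δ ⟨α, hαδ⟩) δ ⟨hδT, hαδ, rfl⟩ ⟨⟨β, hβ⟩, fun γ hγ => ?_⟩
    exact (hgF γ _).trans (hδ γ hγ)
  choose ξ hξ using hA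
  have : Infinite Ω := by
    rw [Cardinal.infinite_iff, hΩ]
    exact hμ.trans (Order.le_succ μ)
  obtain ⟨x, hx⟩ := Cardinal.exists_infinite_fiber ξ (by
    rw [hI, hΩ]; exact Order.lt_succ μ)
  let a : ℕ ↪ (ξ ⁻¹' {x}) := Infinite.natEmbedding _
  refine ⟨fun n => A x (a n : Ω), fun n β hβ => hβ.1, fun n => ?_, fun m n hmn => ?_⟩
  · have h1 : ξ (a n : Ω) = x := (a n).2
    have := hξ (a n : Ω)
    rwa [h1] at this
  · rw [Set.disjoint_left]
    rintro β ⟨-, h1, h2⟩ ⟨-, h3, h4⟩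
    have h5 := (e β).injective (h2.trans h4.symm)
    have h6 : ((a m : _) : Ω) = ((a n : _) : Ω) :=
      congrArg (fun z : Iio β => (z : Ω)) h5
    exact hmn (a.injective (Subtype.ext h6))

/-- Successors of regular cardinals: there is a stationary set and a sequence of cofinal sets
avoiding it. -/
theorem cseq_of_regular {μ : Cardinal.{u}} (hμ : μ.IsRegular) (hΩ : #Ω = Order.succ μ)
    (hi : ∀ x : Ω, #(Iio x) < #Ω) : ∃ (T : Set Ω) (C : Ω → Set Ω), Stat T ∧ CSeq T C := by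
  classical
  have hμ0 : ℵ₀ ≤ μ := hμ.aleph0_le
  have hI : #(μ.ord.ToType) = μ := Cardinal.mk_ord_toType μ
  have : Infinite μ.ord.ToType := by
    rw [Cardinal.infinite_iff, hI]; exact hμ0
  have hIio : ∀ i : μ.ord.ToType, #(Iio i) < μ := fun i => by
    simpa using Cardinal.mk_Iio_lt i
  -- bounded sets in `μ`
  have hbd : ∀ (X : Type u) (f : X → μ.ord.ToType), #X < μ → ∃ i, ∀ x, f x < i := by
    intro X f hX
    by_contra hcon
    push Not at hcon
    have hIic : ∀ i : μ.ord.ToType, #(Iic i) < μ := by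
      intro i
      have h2 : Iic i = Iio i ∪ {i} := by
        ext y
        simp [le_iff_lt_or_eq]
      rw [h2]
      refine (Cardinal.mk_union_le _ _).trans_lt ?_
      rw [Cardinal.mk_singleton]
      exact Cardinal.add_lt_of_lt hμ0 (hIio i) (Cardinal.one_lt_aleph0.trans_le hμ0)
    have h1 : (⋃ x : X, Iic (f x)) = Set.univ := by
      ext i
      simp only [Set.mem_iUnion, Set.mem_univ, iff_true]
      obtain ⟨x, hx⟩ := hcon i
      exact ⟨x, hx⟩
    have h2 : #(⋃ x : X, Iic (f x)) < μ :=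
      (Cardinal.card_iUnion_lt_iff_forall_of_isRegular hμ hX).2 fun x => hIic _
    rw [h1, Cardinal.mk_univ, hI] at h2
    exact lt_irrefl _ h2
  -- the stationary set
  let T : Set Ω := {δ | ∃ g : μ.ord.ToType → Ω, StrictMono g ∧ (∀ i, g i < δ) ∧
    ∀ β < δ, ∃ i, β ≤ g i}
  -- the cofinal sets
  have hC : ∀ v : Ω, ∃ C : Set Ω, C ⊆ Iio v ∧ (∀ β < v, ∃ γ ∈ C, β ≤ γ) ∧
      ∀ x < v, #(C ∩ Iio x : Set Ω) < μ := by
    intro v
    obtain ⟨e⟩ : Nonempty ((#(Iio v)).ord.ToType ≃ Iio v) :=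
      Cardinal.eq.mp (Cardinal.mk_ord_toType _)
    let R : Set ((#(Iio v)).ord.ToType) := {i | ∀ j < i, e j < e i}
    have hv : #(Iio v) ≤ μ := by
      have := hi v
      rw [hΩ] at this
      exact Order.lt_succ_iff.mp this
    have hcof : ∀ β < v, ∃ i ∈ R, β ≤ (e i : Ω) := by
      intro β hβ
      have hne : ({i | β ≤ (e i : Ω)} : Set _).Nonempty :=
        ⟨e.symm ⟨β, hβ⟩, by simp⟩
      obtain ⟨i, hi1, hi2⟩ := WellFounded.has_min
        (wellFounded_lt : WellFounded ((· < ·) : (#(Iio v)).ord.ToType → _ → Prop)) _ hne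
      refine ⟨i, fun j hj => ?_, hi1⟩
      have h1 : ¬ β ≤ (e j : Ω) := fun h => hi2 j h hj
      exact Subtype.coe_lt_coe.mp ((not_le.mp h1).trans_le hi1)
    refine ⟨(fun i => (e i : Ω)) '' R, ?_, ?_, ?_⟩
    · rintro _ ⟨i, -, rfl⟩
      exact (e i).2
    · intro β hβ
      obtain ⟨i, hiR, hi1⟩ := hcof β hβ
      exact ⟨_, ⟨i, hiR, rfl⟩, hi1⟩
    · intro x hx
      obtain ⟨i, hiR, hi1⟩ := hcof x hx
      have hsub : ((fun i => (e i : Ω)) '' R ∩ Iio x : Set Ω) ⊆ (fun i => (e i : Ω)) '' Iio i := by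
        rintro _ ⟨⟨j, hjR, rfl⟩, hj⟩
        refine ⟨j, ?_, rfl⟩
        by_contra hcon
        have hcon' : ¬ j < i := hcon
        rcases (not_lt.mp hcon').lt_or_eq with h | h
        · have h1 : (e i : Ω) < e j := Subtype.coe_lt_coe.mpr (hjR i h)
          exact absurd (h1.trans hj) (not_lt.mpr hi1)
        · subst h
          exact absurd hj (not_lt.mpr hi1)
      refine (Cardinal.mk_le_mk_of_subset hsub).trans_lt ?_
      refine Cardinal.mk_image_le.trans_lt ?_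
      have : #(Iio i) < #(Iio v) := by simpa using Cardinal.mk_Iio_lt i
      exact this.trans_le hv
  choose C hC1 hC2 hC3 using hC
  refine ⟨T, C, ?_, ⟨hC1, hC2, ?_⟩⟩
  · -- stationarity
    intro f
    have hb : ∀ S : Set Ω, ∃ b, #S ≤ μ → ∀ x ∈ S, x < b := by
      intro S
      by_cases hS : #S ≤ μ
      · obtain ⟨b, hb⟩ := k3_bdd hμ0 hΩ hi S hS
        exact ⟨b, fun _ => hb⟩
      · have : Nonempty Ω := by
          rw [← Cardinal.mk_ne_zero_iff, hΩ]
          exact (Order.bot_lt_succ μ).ne'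
        exact ⟨Classical.arbitrary Ω, fun h => absurd h hS⟩
    choose bd hbd' using hb
    have hwf : WellFounded ((· < ·) : μ.ord.ToType → μ.ord.ToType → Prop) := wellFounded_lt
    let step : (i : μ.ord.ToType) → ((j : μ.ord.ToType) → j < i → Ω) → Ω := fun i rec =>
      bd (⋃ j : Iio i, (Iic (rec j.1 j.2) ∪ f '' Iic (rec j.1 j.2)))
    let g : μ.ord.ToType → Ω := hwf.fix step
    have hg : ∀ i, g i = bd (⋃ j : Iio i, (Iic (g j.1) ∪ f '' Iic (g j.1))) := fun i =>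
      hwf.fix_eq step i
    have hsmall : ∀ i : μ.ord.ToType,
        #(⋃ j : Iio i, (Iic (g j.1) ∪ f '' Iic (g j.1)) : Set Ω) ≤ μ := by
      intro i
      have hle : ∀ x : Ω, #(Iic x) ≤ μ := by
        intro x
        have h1 : #(Iio x) ≤ μ := by
          have := hi x
          rw [hΩ] at this
          exact Order.lt_succ_iff.mp this
        have h2 : Iic x = Iio x ∪ {x} := by
          ext y
          simp [le_iff_lt_or_eq]
        rw [h2]
        refine (Cardinal.mk_union_le _ _).trans ?_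
        rw [Cardinal.mk_singleton]
        exact Cardinal.add_le_of_le hμ0 h1 (Cardinal.one_le_aleph0.trans hμ0)
      calc #(⋃ j : Iio i, (Iic (g j.1) ∪ f '' Iic (g j.1)) : Set Ω)
          ≤ Cardinal.sum fun j : Iio i => #(Iic (g j.1) ∪ f '' Iic (g j.1) : Set Ω) :=
            Cardinal.mk_iUnion_le_sum_mk
        _ ≤ Cardinal.sum fun _ : Iio i => μ := by
            refine Cardinal.sum_le_sum _ _ fun j => ?_
            refine (Cardinal.mk_union_le _ _).trans ?_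
            exact Cardinal.add_le_of_le hμ0 (hle _) (Cardinal.mk_image_le.trans (hle _))
        _ = #(Iio i) * μ := by simp
        _ ≤ μ * μ := mul_le_mul_left (hIio i).le μ
        _ = μ := Cardinal.mul_eq_self hμ0
    have hg1 : ∀ i j, j < i → ∀ β ≤ g j, β < g i ∧ f β < g i := by
      intro i j hj β hβ
      rw [hg i]
      refine ⟨hbd' _ (hsmall i) _ ?_, hbd' _ (hsmall i) _ ?_⟩
      · exact Set.mem_iUnion.mpr ⟨⟨j, hj⟩, Or.inl hβ⟩
      · exact Set.mem_iUnion.mpr ⟨⟨j, hj⟩, Or.inr ⟨β, hβ, rfl⟩⟩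
    have hgm : StrictMono g := fun j i hj => (hg1 i j hj _ le_rfl).1
    obtain ⟨b, hb⟩ := k3_bdd hμ0 hΩ hi (Set.range g) (Cardinal.mk_range_le.trans hI.le)
    obtain ⟨δ, hδ1, hδ2⟩ := WellFounded.has_min (wellFounded_lt : WellFounded ((· < ·) : Ω → Ω → Prop))
      {b | ∀ i, g i < b} ⟨b, fun i => hb _ ⟨i, rfl⟩⟩
    have hcof : ∀ β < δ, ∃ i, β ≤ g i := by
      intro β hβ
      by_contra hcon
      push Not at hcon
      exact hδ2 β hcon hβ
    refine ⟨δ, ⟨g, hgm, hδ1, hcof⟩, ⟨g (Classical.arbitrary _), hδ1 _⟩, fun β hβ => ?_⟩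
    obtain ⟨i, hi1⟩ := hcof β hβ
    obtain ⟨i', hi'⟩ := hbd PUnit.{u+1} (fun _ => i) (by
      rw [Cardinal.mk_punit]; exact Cardinal.one_lt_aleph0.trans_le hμ0)
    exact (hg1 i' i (hi' PUnit.unit) β hi1).2.trans (hδ1 i')
  · -- avoidance
    rintro δ ⟨g, hg1, hg2, hg3⟩ v hv
    have h1 : ∀ γ : (C v ∩ Iio δ : Set Ω), ∃ i, (γ : Ω) ≤ g i := fun γ => hg3 γ γ.2.2
    choose F hF using h1
    obtain ⟨i, hi1⟩ := hbd _ F (hC3 v δ hv)
    refine ⟨g i, hg2 i, fun γ hγ hγδ => ?_⟩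
    exact (hF ⟨γ, hγ, hγδ⟩).trans_lt (hg1 (hi1 _))

end Pool.Agent.TH770.PP

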