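import Mathlib
import Pool.Agent.TH770.PP.NegDefs

/-!
# Nonreflecting stationary sets give sequences of cofinal sets (K4)
-/

set_option autoImplicit false

namespace Pool.Agent.TH770.PP

open Cardinal Ordinal Set

universe u

variable {Ω : Type u} [LinearOrder Ω] [WellFoundedLT Ω]

private theorem k4_bdd (hreg : (#Ω).IsRegular)
    (hi : ∀ x : Ω, #(Iio x) < #Ω) (X : Set Ω) (hX : #X < #Ω) : ∃ y, ∀ x ∈ X, x < y := by
  by_contra hcon
  push Not at hcon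
  have h1 : (⋃ x ∈ X, Iic x) = (univ : Set Ω) := by
    rw [eq_univ_iff_forall]
    intro y
    obtain ⟨x, hx, hyx⟩ := hcon y
    exact mem_biUnion hx hyx
  have h2 : #(⋃ x ∈ X, Iic x : Set Ω) < #Ω := by
    rw [card_biUnion_lt_iff_forall_of_isRegular hreg hX]
    intro x _
    have h3 : Iic x = insert x (Iio x) := by
      ext z
      simp only [mem_Iic, mem_insert_iff, mem_Iio]
      exact le_iff_eq_or_lt
    rw [h3]
    exact lt_of_le_of_lt mk_insert_le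
      (add_lt_of_lt hreg.aleph0_le (hi x) (lt_of_lt_of_le one_lt_aleph0 hreg.aleph0_le))
  rw [h1, mk_univ] at h2
  exact lt_irrefl _ h2

private theorem k4_club (hreg : (#Ω).IsRegular) (hunc : ℵ₀ < #Ω)
    (hi : ∀ x : Ω, #(Iio x) < #Ω) (f : Ω → Ω) :
    IsClub {δ : Ω | (∃ β, β < δ) ∧ (∀ β < δ, ∃ γ, β < γ ∧ γ < δ) ∧ ∀ β < δ, f β < δ} := by
  refine ⟨?_, ?_⟩
  · intro D hD hne _ a ha
    have key : ∀ β < a, ∃ d ∈ D, β < d ∧ d ≤ a := by
      intro β hβ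
      obtain ⟨d, hd, hβd⟩ := (lt_isLUB_iff ha).1 hβ
      exact ⟨d, hd, hβd, ha.1 hd⟩
    refine ⟨?_, ?_, ?_⟩
    · obtain ⟨d, hd⟩ := hne
      obtain ⟨β, hβ⟩ := (hD hd).1
      exact ⟨β, hβ.trans_le (ha.1 hd)⟩
    · intro β hβ
      obtain ⟨d, hd, hβd, hda⟩ := key β hβ
      obtain ⟨γ, h1, h2⟩ := (hD hd).2.1 β hβd
      exact ⟨γ, h1, h2.trans_le hda⟩
    · intro β hβ
      obtain ⟨d, hd, hβd, hda⟩ := key β hβ
      exact ((hD hd).2.2 β hβd).trans_le hda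
  · intro a
    have h1 : ∀ x : Ω, ∃ y, x < y ∧ ∀ β ≤ x, f β < y := by
      intro x
      have hX : #(insert x (f '' Iic x) : Set Ω) < #Ω := by
        have h3 : Iic x = insert x (Iio x) := by
          ext z
          simp only [mem_Iic, mem_insert_iff, mem_Iio]
          exact le_iff_eq_or_lt
        have h4 : #(Iic x) < #Ω := by
          rw [h3]
          exact lt_of_le_of_lt mk_insert_le
            (add_lt_of_lt hreg.aleph0_le (hi x) (lt_of_lt_of_le one_lt_aleph0 hreg.aleph0_le))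
        exact lt_of_le_of_lt mk_insert_le
          (add_lt_of_lt hreg.aleph0_le (mk_image_le.trans_lt h4)
            (lt_of_lt_of_le one_lt_aleph0 hreg.aleph0_le))
      obtain ⟨y, hy⟩ := k4_bdd hreg hi _ hX
      exact ⟨y, hy x (mem_insert _ _), fun β hβ =>
        hy _ (mem_insert_of_mem _ (mem_image_of_mem f hβ))⟩
    choose g hg1 hg2 using h1
    let s : ℕ → Ω := fun n => g^[n] a
    have hs : ∀ n, s (n + 1) = g (s n) := fun n => Function.iterate_succ_apply' g n a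
    have hX : #(range s) < #Ω :=
      lt_of_le_of_lt (by simpa using mk_range_le_lift (f := s)) hunc
    have hne : {y : Ω | ∀ n, s n < y}.Nonempty := by
      obtain ⟨y, hy⟩ := k4_bdd hreg hi _ hX
      exact ⟨y, fun n => hy _ (mem_range_self n)⟩
    let δ := WellFounded.min (wellFounded_lt (α := Ω)) _ hne
    have hδ : ∀ n, s n < δ := WellFounded.min_mem (wellFounded_lt (α := Ω)) _ hne
    have hmin : ∀ β < δ, ∃ n, β ≤ s n := by
      intro β hβ
      by_contra hcon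
      push Not at hcon
      exact WellFounded.not_lt_min (wellFounded_lt (α := Ω)) {y : Ω | ∀ n, s n < y} hcon hβ
    refine ⟨δ, ⟨⟨s 0, hδ 0⟩, ?_, ?_⟩, (hδ 0).le⟩
    · intro β hβ
      obtain ⟨n, hn⟩ := hmin β hβ
      refine ⟨s (n + 1), ?_, hδ _⟩
      rw [hs]
      exact hn.trans_lt (hg1 _)
    · intro β hβ
      obtain ⟨n, hn⟩ := hmin β hβ
      have h2 := hg2 (s n) β hn
      rw [← hs] at h2
      exact h2.trans (hδ _)

omit [WellFoundedLT Ω] in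
/-- Countable cofinality: a cofinal set all of whose proper initial parts are finite. -/
private theorem k4_count (v : Ω) (h : Order.cof (Iio v) ≤ ℵ₀) :
    ∃ C : Set Ω, C ⊆ Iio v ∧ (∀ β < v, ∃ γ ∈ C, β ≤ γ) ∧ ∀ x < v, (C ∩ Iio x).Finite := by
  obtain ⟨X, hX, hXc⟩ := Order.exists_cof_eq (Iio v)
  rw [← hXc] at h
  have hXcount : X.Countable := (le_aleph0_iff_set_countable).1 h
  rcases X.eq_empty_or_nonempty with hXe | hXne
  · refine ⟨∅, empty_subset _, ?_, fun x _ => by simp⟩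
    intro β hβ
    obtain ⟨γ, hγ, _⟩ := hX ⟨β, hβ⟩
    rw [hXe] at hγ
    exact absurd hγ (notMem_empty _)
  · obtain ⟨x, hx⟩ := hXcount.exists_eq_range hXne
    let y : ℕ → Iio v := fun n => (Finset.range (n + 1)).sup' ⟨0, by simp⟩ x
    have hxy : ∀ n m, n ≤ m → x n ≤ y m := fun n m hnm =>
      Finset.le_sup' x (Finset.mem_range.2 (Nat.lt_succ_of_le hnm))
    refine ⟨range fun n => (y n : Ω), ?_, ?_, ?_⟩
    · rintro _ ⟨n, rfl⟩
      exact (y n).2
    · intro β hβ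
      obtain ⟨γ, hγ, hβγ⟩ := hX ⟨β, hβ⟩
      rw [hx] at hγ
      obtain ⟨n, rfl⟩ := hγ
      exact ⟨y n, ⟨n, rfl⟩, hβγ.trans (hxy n n le_rfl)⟩
    · intro z hz
      obtain ⟨γ, hγ, hzγ⟩ := hX ⟨z, hz⟩
      rw [hx] at hγ
      obtain ⟨n, rfl⟩ := hγ
      refine ((finite_lt_nat n).image fun n => (y n : Ω)).subset ?_
      rintro _ ⟨⟨m, rfl⟩, hm⟩
      refine ⟨m, ?_, rfl⟩
      by_contra hcon
      have hnm : n ≤ m := not_lt.1 hcon
      have h1 : z ≤ (y m : Ω) := le_trans hzγ (hxy n m hnm)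
      exact absurd hm (not_lt.2 h1)

/-- A nonreflecting stationary set (Mathlib's `IsStationary`) gives a stationary set and a sequence
of cofinal sets avoiding it. -/
theorem cseq_of_nonreflecting (hreg : (#Ω).IsRegular) (hunc : ℵ₀ < #Ω)
    (hi : ∀ x : Ω, #(Iio x) < #Ω) (S : Set Ω) (hS : IsStationary S)
    (hn : ∀ δ : Ω, ℵ₀ < Order.cof (Iio δ) → ¬ IsStationary ((↑) ⁻¹' S : Set (Iio δ))) :
    ∃ (T : Set Ω) (C : Ω → Set Ω), Stat T ∧ CSeq T C := by
  have hC : ∀ v : Ω, ∃ C : Set Ω, C ⊆ Iio v ∧ (∀ β < v, ∃ γ ∈ C, β ≤ γ) ∧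
      ∀ δ ∈ S, (∃ β, β < δ) → (∀ β < δ, ∃ γ, β < γ ∧ γ < δ) → δ < v →
        ∃ β < δ, ∀ γ ∈ C, γ < δ → γ < β := by
    intro v
    by_cases hv : ℵ₀ < Order.cof (Iio v)
    · obtain ⟨t, ht, hd⟩ := not_isStationary_iff.1 (hn v hv)
      refine ⟨Subtype.val '' t, ?_, ?_, ?_⟩
      · rintro _ ⟨x, _, rfl⟩
        exact x.2
      · intro β hβ
        obtain ⟨γ, hγ, h1⟩ := ht.isCofinal ⟨β, hβ⟩
        exact ⟨γ, ⟨γ, hγ, rfl⟩, h1⟩
      · intro δ hδS hδ0 hδl hδv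
        by_contra hcon
        push Not at hcon
        have hlub : IsLUB {γ : Iio v | γ ∈ t ∧ (γ : Ω) < δ} ⟨δ, hδv⟩ := by
          refine ⟨fun γ hγ => hγ.2.le, ?_⟩
          intro b hb
          by_contra hlt
          have hlt' : (b : Ω) < δ := not_le.1 hlt
          obtain ⟨b', h1, h2⟩ := hδl b hlt'
          obtain ⟨_, ⟨γ, hγt, rfl⟩, hγδ, hb'γ⟩ := hcon b' h2
          have h3 : γ ≤ b := hb ⟨hγt, hγδ⟩
          exact absurd (h1.trans_le hb'γ) (not_lt.2 h3)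
        have hne : {γ : Iio v | γ ∈ t ∧ (γ : Ω) < δ}.Nonempty := by
          obtain ⟨β, hβ⟩ := hδ0
          obtain ⟨_, ⟨γ, hγt, rfl⟩, hγδ, _⟩ := hcon β hβ
          exact ⟨γ, hγt, hγδ⟩
        have hmem := ht.isLUB_mem (fun γ hγ => hγ.1) hne hlub
        exact (disjoint_left.1 hd) (show (⟨δ, hδv⟩ : Iio v) ∈ ((↑) ⁻¹' S : Set (Iio v)) from hδS)
          hmem
    · obtain ⟨C, h1, h2, h3⟩ := k4_count v (not_lt.1 hv)
      refine ⟨C, h1, h2, ?_⟩
      intro δ _ hδ0 hδl hδv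
      have hfin := h3 δ hδv
      rcases (C ∩ Iio δ).eq_empty_or_nonempty with he | hne
      · obtain ⟨β, hβ⟩ := hδ0
        refine ⟨β, hβ, fun γ hγ hγδ => ?_⟩
        have : γ ∈ C ∩ Iio δ := ⟨hγ, hγδ⟩
        rw [he] at this
        exact absurd this (notMem_empty _)
      · obtain ⟨m, hm, hmax⟩ := hfin.exists_maximal hne
        obtain ⟨β, h4, h5⟩ := hδl m hm.2
        refine ⟨β, h5, fun γ hγ hγδ => ?_⟩
        have h6 : γ ≤ m := by
          rcases le_total γ m with h | h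
          · exact h
          · exact hmax ⟨hγ, hγδ⟩ h
        exact h6.trans_lt h4
  choose C hC1 hC2 hC3 using hC
  refine ⟨S ∩ {δ | (∃ β, β < δ) ∧ ∀ β < δ, ∃ γ, β < γ ∧ γ < δ}, C, ?_, ?_⟩
  · intro f
    obtain ⟨δ, hδS, h1, h2, h3⟩ := hS (k4_club hreg hunc hi f)
    exact ⟨δ, ⟨hδS, h1, h2⟩, h1, h3⟩
  · exact ⟨hC1, hC2, fun δ hδ v hv => hC3 v δ hδ.1 hδ.2.1 hδ.2.2 hv⟩

end Pool.Agent.TH770.PP
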