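import Mathlib
import Pool.Agent.H38R3.TPDefs
import Pool.Agent.TH770.PP.NegDefs

set_option autoImplicit false

namespace Pool.Agent.TH770.PP

open Cardinal Ordinal Set Pool.H38R3.TransPath

universe u

variable {Ω : Type u} [LinearOrder Ω] [WellFoundedLT Ω]

namespace K2

open Classical in
/-- least element of a set -/
noncomputable def mn (S : Set Ω) (v : Ω) : Ω :=
  if h : S.Nonempty then
    (wellFounded_lt : WellFounded ((· < ·) : Ω → Ω → Prop)).min S h else v

/-- next step of the walk -/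
noncomputable def nx (C : Ω → Set Ω) (η v : Ω) : Ω := mn (C v ∩ Ici η) v

theorem nx_congr (C : Ω → Set Ω) {η δ v : Ω} (h : C v ∩ Ici η = C v ∩ Ici δ) :
    nx C η v = nx C δ v := by
  unfold nx
  rw [h]

theorem nx_mem (C : Ω → Set Ω) {η v : Ω} (h : (C v ∩ Ici η).Nonempty) :
    nx C η v ∈ C v ∩ Ici η := by
  unfold nx mn
  rw [dif_pos h]
  exact WellFounded.min_mem _ _ _

open Classical in
/-- the labels seen on the walk from `v` to `η` -/
noncomputable def ww (C : Ω → Set Ω) (tag : Ω → Finset ℕ) (η : Ω) : Ω → Finset ℕ :=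
  (wellFounded_lt : WellFounded ((· < ·) : Ω → Ω → Prop)).fix
    (fun v rec => tag v ∪ if h : nx C η v < v ∧ η < v then rec (nx C η v) h.1 else ∅)

open Classical in
theorem ww_eq (C : Ω → Set Ω) (tag : Ω → Finset ℕ) (η v : Ω) :
    ww C tag η v = tag v ∪ if nx C η v < v ∧ η < v then ww C tag η (nx C η v) else ∅ := by
  unfold ww
  rw [WellFounded.fix_eq]
  rfl

theorem tag_sub (C : Ω → Set Ω) (tag : Ω → Finset ℕ) (η v : Ω) {n : ℕ} (h : n ∈ tag v) :
    n ∈ ww C tag η v := by
  rw [ww_eq]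
  exact Finset.mem_union_left _ h

theorem step_sub (C : Ω → Set Ω) (tag : Ω → Finset ℕ) (η v : Ω) {n : ℕ} (h1 : nx C η v < v)
    (h2 : η < v) (h : n ∈ ww C tag η (nx C η v)) :
    n ∈ ww C tag η v := by
  rw [ww_eq, if_pos ⟨h1, h2⟩]
  exact Finset.mem_union_right _ h

theorem claim (C : Ω → Set Ω) (T : Set Ω) (tag : Ω → Finset ℕ) (n : ℕ)
    (htag : ∀ δ ∈ T, n ∈ tag δ) (hC : CSeq T C) (δ : Ω) (hδ : δ ∈ T) (hmin : ∃ β, β < δ) :
    ∀ v, δ ≤ v → ∃ β < δ, ∀ η, β ≤ η → η < δ → n ∈ ww C tag η v := by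
  intro v
  induction v using WellFoundedLT.induction with
  | _ v ih =>
    intro hv
    rcases hv.eq_or_lt with rfl | hv
    · obtain ⟨β, hβ⟩ := hmin
      exact ⟨β, hβ, fun η _ _ => tag_sub C tag η _ (htag _ hδ)⟩
    · obtain ⟨β0, hβ0, h0⟩ := hC.avoid δ hδ v hv
      obtain ⟨γ, hγ, hγ'⟩ := hC.cofinal v δ hv
      have hne : (C v ∩ Ici δ).Nonempty := ⟨γ, hγ, hγ'⟩
      have hm := nx_mem C hne
      have hlt : nx C δ v < v := hC.sub v hm.1
      obtain ⟨β1, hβ1, h1⟩ := ih (nx C δ v) hlt hm.2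
      refine ⟨max β0 β1, max_lt hβ0 hβ1, fun η hη hηδ => ?_⟩
      have hset : C v ∩ Ici η = C v ∩ Ici δ := by
        ext γ'
        constructor
        · rintro ⟨ha, hb⟩
          refine ⟨ha, ?_⟩
          by_contra hc
          have hlt' : γ' < δ := not_le.mp hc
          have := h0 γ' ha hlt'
          exact absurd (lt_of_lt_of_le this ((le_max_left _ _).trans hη)) (not_lt.mpr hb)
        · rintro ⟨ha, hb⟩
          exact ⟨ha, hηδ.le.trans hb⟩
      have hnx : nx C η v = nx C δ v := nx_congr C hset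
      apply step_sub C tag η v
      · rw [hnx]; exact hlt
      · exact hηδ.trans hv
      · rw [hnx]
        exact h1 η ((le_max_right _ _).trans hη) hηδ

open Classical in
/-- the colour of the pair `η < v` -/
noncomputable def col (C : Ω → Set Ω) (tag : Ω → Finset ℕ) (η v : Ω) : ℕ :=
  Nat.find (Infinite.exists_notMem_finset (ww C tag η v))

theorem col_spec (C : Ω → Set Ω) (tag : Ω → Finset ℕ) (η v : Ω) :
    col C tag η v ∉ ww C tag η v := by
  classical
  exact Nat.find_spec (Infinite.exists_notMem_finset (ww C tag η v))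

end K2

open K2 in
/-- Walks along a `C`-sequence avoiding infinitely many pairwise disjoint stationary sets give a
colouring with countably many colours without monochromatic paths of full size.  The statement
`path_club` is the hypothesis `hpc`: use
`walk_colouring_of (path_club hreg hunc hi) T hT hTd C hC`. -/
theorem walk_colouring_of
    (hpc : ∀ (G : SimpleGraph Ω) (P : G.Subgraph), IsTransPath P.coe → #P.verts = #Ω →
      ∃ f : Ω → Ω, ∀ δ, (∀ β < δ, f β < δ) →
        ∃ v, δ ≤ v ∧ ∀ β < δ, ∃ η, β ≤ η ∧ η < δ ∧ G.Adj η v)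
    (T : ℕ → Set Ω) (hT : ∀ n, Stat (T n)) (hTd : ∀ m n, m ≠ n → Disjoint (T m) (T n))
    (C : Ω → Set Ω) (hC : ∀ n, CSeq (T n) C) : #Ω ∉ PathCardinals.{u} := by
  classical
  rintro ⟨-, h⟩
  let tag : Ω → Finset ℕ := fun v => if h : ∃ n, v ∈ T n then {h.choose} else ∅
  have htag : ∀ n, ∀ δ ∈ T n, n ∈ tag δ := by
    intro n δ hδ
    have hex : ∃ n, δ ∈ T n := ⟨n, hδ⟩
    have h1 : hex.choose = n := by
      by_contra hne
      exact Set.disjoint_left.mp (hTd _ _ hne) hex.choose_spec hδ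
    simp only [tag]
    rw [dif_pos hex, h1]
    exact Finset.mem_singleton_self n
  let c : Sym2 Ω → ℕ := Sym2.lift ⟨fun x y => col C tag (min x y) (max x y), fun x y => by
    change col C tag (min x y) (max x y) = col C tag (min y x) (max y x)
    rw [min_comm, max_comm]⟩
  obtain ⟨i, P, hP, hcard⟩ := h Ω rfl c
  obtain ⟨f, hf⟩ := hpc _ P hP hcard
  obtain ⟨δ, hδT, hmin, hcl⟩ := hT i f
  obtain ⟨v, hv, hv2⟩ := hf δ hcl
  obtain ⟨β, hβ, hβ2⟩ := claim C (T i) tag i (htag i) (hC i) δ hδT hmin v hv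
  obtain ⟨η, h1, h2, h3⟩ := hv2 β hβ
  have h4 : c s(η, v) = i := h3.2
  have h5 : η < v := h2.trans_le hv
  have h6 : c s(η, v) = col C tag η v := by
    change col C tag (min η v) (max η v) = col C tag η v
    rw [min_eq_left h5.le, max_eq_right h5.le]
  have h7 := col_spec C tag η v
  rw [← h6, h4] at h7
  exact h7 (hβ2 η h1 h2)

end Pool.Agent.TH770.PP
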