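import Mathlib
import Pool.Agent.H38R3.TPDefs
import Pool.Agent.TH770.PP.NegDefs
import Pool.Agent.TH770.PP.J_K1
import Pool.Agent.TH770.PP.J_K2

/-!
# Simultaneous reflection of stationary sets from membership in `ℙ`
-/

set_option autoImplicit false

namespace Pool.Agent.TH770.PP

open Cardinal Ordinal Set Pool.H38R3.TransPath

universe u

variable {Ω : Type u} [LinearOrder Ω] [WellFoundedLT Ω]

namespace SR

open K2

open Classical in
/-- the colours allowed along the walk from `v` to `η` -/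
noncomputable def al (C : Ω → Set Ω) (A : Ω → Set ℕ) (η : Ω) : Ω → Set ℕ :=
  (wellFounded_lt : WellFounded ((· < ·) : Ω → Ω → Prop)).fix
    (fun v rec => A v ∩ if h : nx C η v < v ∧ η < v then rec (nx C η v) h.1 else univ)

open Classical in
theorem al_eq (C : Ω → Set Ω) (A : Ω → Set ℕ) (η v : Ω) :
    al C A η v = A v ∩ if nx C η v < v ∧ η < v then al C A η (nx C η v) else univ := by
  unfold al
  rw [WellFounded.fix_eq]
  rfl

theorem al_sub (C : Ω → Set Ω) (A : Ω → Set ℕ) (η v : Ω) : al C A η v ⊆ A v := by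
  rw [al_eq]
  exact inter_subset_left

theorem al_step (C : Ω → Set Ω) (A : Ω → Set ℕ) (η v : Ω) (h1 : nx C η v < v) (h2 : η < v) :
    al C A η v ⊆ al C A η (nx C η v) := by
  rw [al_eq, if_pos ⟨h1, h2⟩]
  exact inter_subset_right

theorem al_mem (C : Ω → Set Ω) (A : Ω → Set ℕ) (𝓕 : Filter ℕ) (hA : ∀ v, A v ∈ 𝓕) (η : Ω) :
    ∀ v, al C A η v ∈ 𝓕 := by
  intro v
  induction v using WellFoundedLT.induction with
  | _ v ih =>
    rw [al_eq]
    refine Filter.inter_mem (hA v) ?_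
    split_ifs with h
    · exact ih _ h.1
    · exact Filter.univ_mem

theorem claim (C : Ω → Set Ω) (hC1 : ∀ v, C v ⊆ Iio v) (hC2 : ∀ v, ∀ β < v, ∃ γ ∈ C v, β ≤ γ)
    (A : Ω → Set ℕ) (n : ℕ) (T : Set Ω) (hT : ∀ δ ∈ T, n ∉ A δ)
    (hC3 : ∀ v, n ∈ A v → ∀ δ ∈ T, δ < v → ∃ β < δ, ∀ γ ∈ C v, γ < δ → γ < β)
    (δ : Ω) (hδ : δ ∈ T) (hmin : ∃ β, β < δ) :
    ∀ v, δ ≤ v → ∃ β < δ, ∀ η, β ≤ η → η < δ → n ∉ al C A η v := by
  intro v
  induction v using WellFoundedLT.induction with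
  | _ v ih =>
    intro hv
    by_cases hn : n ∈ A v
    · rcases hv.eq_or_lt with rfl | hv
      · exact absurd hn (hT _ hδ)
      · obtain ⟨β0, hβ0, h0⟩ := hC3 v hn δ hδ hv
        obtain ⟨γ, hγ, hγ'⟩ := hC2 v δ hv
        have hne : (C v ∩ Ici δ).Nonempty := ⟨γ, hγ, hγ'⟩
        have hm := nx_mem C hne
        have hlt : nx C δ v < v := hC1 v hm.1
        obtain ⟨β1, hβ1, h1⟩ := ih (nx C δ v) hlt hm.2
        refine ⟨max β0 β1, max_lt hβ0 hβ1, fun η hη hηδ => ?_⟩
        have hset : C v ∩ Ici η = C v ∩ Ici δ := by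
          ext γ'
          constructor
          · rintro ⟨ha, hb⟩
            refine ⟨ha, ?_⟩
            by_contra hc
            have hlt' : γ' < δ := not_le.mp hc
            have := h0 γ' ha hlt'
            exact absurd (lt_of_lt_of_le this ((le_max_left _ _).trans hη)) (not_lt.mpr hb)
          · rintro ⟨ha, hb⟩
            exact ⟨ha, hηδ.le.trans hb⟩
        have hnx : nx C η v = nx C δ v := nx_congr C hset
        intro hcon
        have h2 := al_step C A η v (by rw [hnx]; exact hlt) (hηδ.trans hv) hcon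
        rw [hnx] at h2
        exact h1 η ((le_max_right _ _).trans hη) hηδ h2
    · obtain ⟨β, hβ⟩ := hmin
      exact ⟨β, hβ, fun η _ _ h => hn (al_sub C A η v h)⟩

end SR

open SR in
/-- Walks along a sequence of cofinal sets which avoids, at each point, the stationary sets whose
indices belong to a set of a fixed proper filter give a colouring without monochromatic paths of
full size. -/
theorem not_mem_of_filter (hreg : (#Ω).IsRegular) (hunc : ℵ₀ < #Ω)
    (hi : ∀ x : Ω, #(Iio x) < #Ω) (𝓕 : Filter ℕ) [𝓕.NeBot] (T : ℕ → Set Ω)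
    (hT : ∀ n, Stat (T n)) (A : Ω → Set ℕ) (hA : ∀ v, A v ∈ 𝓕) (hTA : ∀ n, ∀ δ ∈ T n, n ∉ A δ)
    (C : Ω → Set Ω) (hC1 : ∀ v, C v ⊆ Iio v) (hC2 : ∀ v, ∀ β < v, ∃ γ ∈ C v, β ≤ γ)
    (hC3 : ∀ n v, n ∈ A v → ∀ δ ∈ T n, δ < v → ∃ β < δ, ∀ γ ∈ C v, γ < δ → γ < β) :
    #Ω ∉ PathCardinals.{u} := by
  classical
  rintro ⟨-, h⟩
  have hne : ∀ η v, (al C A η v).Nonempty := fun η v =>
    Filter.nonempty_of_mem (al_mem C A 𝓕 hA η v)
  let col : Ω → Ω → ℕ := fun η v => (hne η v).choose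
  have hcol : ∀ η v, col η v ∈ al C A η v := fun η v => (hne η v).choose_spec
  let c : Sym2 Ω → ℕ := Sym2.lift ⟨fun x y => col (min x y) (max x y), fun x y => by
    change col (min x y) (max x y) = col (min y x) (max y x)
    rw [min_comm, max_comm]⟩
  obtain ⟨i, P, hP, hcard⟩ := h Ω rfl c
  obtain ⟨f, hf⟩ := path_club hreg hunc hi _ P hP hcard
  obtain ⟨δ, hδT, hmin, hcl⟩ := hT i f
  obtain ⟨v, hv, hv2⟩ := hf δ hcl
  obtain ⟨β, hβ, hβ2⟩ := claim C hC1 hC2 A i (T i) (hTA i) (hC3 i) δ hδT hmin v hv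
  obtain ⟨η, h1, h2, h3⟩ := hv2 β hβ
  have h4 : c s(η, v) = i := h3.2
  have h5 : η < v := h2.trans_le hv
  have h6 : c s(η, v) = col η v := by
    change col (min η v) (max η v) = col η v
    rw [min_eq_left h5.le, max_eq_right h5.le]
  have h7 := hcol η v
  rw [← h6, h4] at h7
  exact hβ2 η h1 h2 h7

end Pool.Agent.TH770.PP
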