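import Mathlib
import Pool.Agent.H38R3.TPDefs
import Pool.Agent.TH770.PP.NegDefs
import Pool.Agent.TH770.PP.SimRefl

/-!
# Simultaneous reflection of stationary sets from membership in `ℙ`, II
-/

set_option autoImplicit false

namespace Pool.Agent.TH770.PP

open Cardinal Ordinal Set Pool.H38R3.TransPath

universe u

variable {Ω : Type u} [LinearOrder Ω] [WellFoundedLT Ω]

private theorem sr_bdd (hreg : (#Ω).IsRegular)
    (hi : ∀ x : Ω, #(Iio x) < #Ω) (X : Set Ω) (hX : #X < #Ω) : ∃ y, ∀ x ∈ X, x < y := by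
  by_contra hcon
  push Not at hcon
  have h1 : (⋃ x ∈ X, Iic x) = (univ : Set Ω) := by
    rw [eq_univ_iff_forall]
    intro y
    obtain ⟨x, hx, hyx⟩ := hcon y
    exact mem_biUnion hx hyx
  have h2 : #(⋃ x ∈ X, Iic x : Set Ω) < #Ω := by
    rw [card_biUnion_lt_iff_forall_of_isRegular hreg hX]
    intro x _
    have h3 : Iic x = insert x (Iio x) := by
      ext z
      simp only [mem_Iic, mem_insert_iff, mem_Iio]
      exact le_iff_eq_or_lt
    rw [h3]
    exact lt_of_le_of_lt mk_insert_le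
      (add_lt_of_lt hreg.aleph0_le (hi x) (lt_of_lt_of_le one_lt_aleph0 hreg.aleph0_le))
  rw [h1, mk_univ] at h2
  exact lt_irrefl _ h2

private theorem sr_club (hreg : (#Ω).IsRegular) (hunc : ℵ₀ < #Ω)
    (hi : ∀ x : Ω, #(Iio x) < #Ω) (f : Ω → Ω) :
    IsClub {δ : Ω | (∃ β, β < δ) ∧ (∀ β < δ, ∃ γ, β < γ ∧ γ < δ) ∧ ∀ β < δ, f β < δ} := by
  refine ⟨?_, ?_⟩
  · intro D hD hne _ a ha
    have key : ∀ β < a, ∃ d ∈ D, β < d ∧ d ≤ a := by
      intro β hβ
      obtain ⟨d, hd, hβd⟩ := (lt_isLUB_iff ha).1 hβ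
      exact ⟨d, hd, hβd, ha.1 hd⟩
    refine ⟨?_, ?_, ?_⟩
    · obtain ⟨d, hd⟩ := hne
      obtain ⟨β, hβ⟩ := (hD hd).1
      exact ⟨β, hβ.trans_le (ha.1 hd)⟩
    · intro β hβ
      obtain ⟨d, hd, hβd, hda⟩ := key β hβ
      obtain ⟨γ, h1, h2⟩ := (hD hd).2.1 β hβd
      exact ⟨γ, h1, h2.trans_le hda⟩
    · intro β hβ
      obtain ⟨d, hd, hβd, hda⟩ := key β hβ
      exact ((hD hd).2.2 β hβd).trans_le hda
  · intro a
    have h1 : ∀ x : Ω, ∃ y, x < y ∧ ∀ β ≤ x, f β < y := by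
      intro x
      have hX : #(insert x (f '' Iic x) : Set Ω) < #Ω := by
        have h3 : Iic x = insert x (Iio x) := by
          ext z
          simp only [mem_Iic, mem_insert_iff, mem_Iio]
          exact le_iff_eq_or_lt
        have h4 : #(Iic x) < #Ω := by
          rw [h3]
          exact lt_of_le_of_lt mk_insert_le
            (add_lt_of_lt hreg.aleph0_le (hi x) (lt_of_lt_of_le one_lt_aleph0 hreg.aleph0_le))
        exact lt_of_le_of_lt mk_insert_le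
          (add_lt_of_lt hreg.aleph0_le (mk_image_le.trans_lt h4)
            (lt_of_lt_of_le one_lt_aleph0 hreg.aleph0_le))
      obtain ⟨y, hy⟩ := sr_bdd hreg hi _ hX
      exact ⟨y, hy x (mem_insert _ _), fun β hβ =>
        hy _ (mem_insert_of_mem _ (mem_image_of_mem f hβ))⟩
    choose g hg1 hg2 using h1
    let s : ℕ → Ω := fun n => g^[n] a
    have hs : ∀ n, s (n + 1) = g (s n) := fun n => Function.iterate_succ_apply' g n a
    have hX : #(range s) < #Ω :=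
      lt_of_le_of_lt (by simpa using mk_range_le_lift (f := s)) hunc
    have hne : {y : Ω | ∀ n, s n < y}.Nonempty := by
      obtain ⟨y, hy⟩ := sr_bdd hreg hi _ hX
      exact ⟨y, fun n => hy _ (mem_range_self n)⟩
    let δ := WellFounded.min (wellFounded_lt (α := Ω)) _ hne
    have hδ : ∀ n, s n < δ := WellFounded.min_mem (wellFounded_lt (α := Ω)) _ hne
    have hmin : ∀ β < δ, ∃ n, β ≤ s n := by
      intro β hβ
      by_contra hcon
      push Not at hcon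
      exact WellFounded.not_lt_min (wellFounded_lt (α := Ω)) {y : Ω | ∀ n, s n < y} hcon hβ
    refine ⟨δ, ⟨⟨s 0, hδ 0⟩, ?_, ?_⟩, (hδ 0).le⟩
    · intro β hβ
      obtain ⟨n, hn⟩ := hmin β hβ
      refine ⟨s (n + 1), ?_, hδ _⟩
      rw [hs]
      exact hn.trans_lt (hg1 _)
    · intro β hβ
      obtain ⟨n, hn⟩ := hmin β hβ
      have h2 := hg2 (s n) β hn
      rw [← hs] at h2
      exact h2.trans (hδ _)

omit [WellFoundedLT Ω] in
/-- Countable cofinality: a cofinal set all of whose proper initial parts are finite. -/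
private theorem sr_count (v : Ω) (h : Order.cof (Iio v) ≤ ℵ₀) :
    ∃ C : Set Ω, C ⊆ Iio v ∧ (∀ β < v, ∃ γ ∈ C, β ≤ γ) ∧ ∀ x < v, (C ∩ Iio x).Finite := by
  obtain ⟨X, hX, hXc⟩ := Order.exists_cof_eq (Iio v)
  rw [← hXc] at h
  have hXcount : X.Countable := (le_aleph0_iff_set_countable).1 h
  rcases X.eq_empty_or_nonempty with hXe | hXne
  · refine ⟨∅, empty_subset _, ?_, fun x _ => by simp⟩
    intro β hβ
    obtain ⟨γ, hγ, _⟩ := hX ⟨β, hβ⟩
    rw [hXe] at hγ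
    exact absurd hγ (notMem_empty _)
  · obtain ⟨x, hx⟩ := hXcount.exists_eq_range hXne
    let y : ℕ → Iio v := fun n => (Finset.range (n + 1)).sup' ⟨0, by simp⟩ x
    have hxy : ∀ n m, n ≤ m → x n ≤ y m := fun n m hnm =>
      Finset.le_sup' x (Finset.mem_range.2 (Nat.lt_succ_of_le hnm))
    refine ⟨range fun n => (y n : Ω), ?_, ?_, ?_⟩
    · rintro _ ⟨n, rfl⟩
      exact (y n).2
    · intro β hβ
      obtain ⟨γ, hγ, hβγ⟩ := hX ⟨β, hβ⟩
      rw [hx] at hγ
      obtain ⟨n, rfl⟩ := hγ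
      exact ⟨y n, ⟨n, rfl⟩, hβγ.trans (hxy n n le_rfl)⟩
    · intro z hz
      obtain ⟨γ, hγ, hzγ⟩ := hX ⟨z, hz⟩
      rw [hx] at hγ
      obtain ⟨n, rfl⟩ := hγ
      refine ((finite_lt_nat n).image fun n => (y n : Ω)).subset ?_
      rintro _ ⟨⟨m, rfl⟩, hm⟩
      refine ⟨m, ?_, rfl⟩
      by_contra hcon
      have hnm : n ≤ m := not_lt.1 hcon
      have h1 : z ≤ (y m : Ω) := le_trans hzγ (hxy n m hnm)
      exact absurd hm (not_lt.2 h1)

/-- The sequence of cofinal sets: at a point of uncountable cofinality it avoids all those of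
countably many given sets which are nonstationary there. -/
private theorem sr_cseq (T : ℕ → Set Ω) (v : Ω) : ∃ C : Set Ω, C ⊆ Iio v ∧
    (∀ β < v, ∃ γ ∈ C, β ≤ γ) ∧
      ∀ n, (ℵ₀ < Order.cof (Iio v) → ¬ IsStationary ((Subtype.val : Iio v → Ω) ⁻¹' (T n))) →
      ∀ δ ∈ T n, (∃ β, β < δ) → (∀ β < δ, ∃ γ, β < γ ∧ γ < δ) → δ < v →
        ∃ β < δ, ∀ γ ∈ C, γ < δ → γ < β := by
  classical
  by_cases hv : ℵ₀ < Order.cof (Iio v)
  · let N : Set ℕ := {n | ¬ IsStationary ((Subtype.val : Iio v → Ω) ⁻¹' (T n))}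
    have hns : ¬ IsStationary (⋃ n : N, (Subtype.val : Iio v → Ω) ⁻¹' (T n)) := by
      rw [isStationary_iUnion_iff_of_countable hv.ne']
      rintro ⟨n, hn⟩
      exact n.2 hn
    obtain ⟨t, ht, hd⟩ := not_isStationary_iff.1 hns
    refine ⟨Subtype.val '' t, ?_, ?_, ?_⟩
    · rintro _ ⟨x, _, rfl⟩
      exact x.2
    · intro β hβ
      obtain ⟨γ, hγ, h1⟩ := ht.isCofinal ⟨β, hβ⟩
      exact ⟨γ, ⟨γ, hγ, rfl⟩, h1⟩
    · intro n hn δ hδS hδ0 hδl hδv
      by_contra hcon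
      push Not at hcon
      have hlub : IsLUB {γ : Iio v | γ ∈ t ∧ (γ : Ω) < δ} ⟨δ, hδv⟩ := by
        refine ⟨fun γ hγ => hγ.2.le, ?_⟩
        intro b hb
        by_contra hlt
        have hlt' : (b : Ω) < δ := not_le.1 hlt
        obtain ⟨b', h1, h2⟩ := hδl b hlt'
        obtain ⟨_, ⟨γ, hγt, rfl⟩, hγδ, hb'γ⟩ := hcon b' h2
        have h3 : γ ≤ b := hb ⟨hγt, hγδ⟩
        exact absurd (h1.trans_le hb'γ) (not_lt.2 h3)
      have hne : {γ : Iio v | γ ∈ t ∧ (γ : Ω) < δ}.Nonempty := by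
        obtain ⟨β, hβ⟩ := hδ0
        obtain ⟨_, ⟨γ, hγt, rfl⟩, hγδ, _⟩ := hcon β hβ
        exact ⟨γ, hγt, hγδ⟩
      have hmem := ht.isLUB_mem (fun γ hγ => hγ.1) hne hlub
      refine (disjoint_left.1 hd) ?_ hmem
      exact mem_iUnion.mpr ⟨⟨n, hn hv⟩, hδS⟩
  · obtain ⟨C, h1, h2, h3⟩ := sr_count v (not_lt.1 hv)
    refine ⟨C, h1, h2, ?_⟩
    intro _ _ δ _ hδ0 hδl hδv
    have hfin := h3 δ hδv
    rcases (C ∩ Iio δ).eq_empty_or_nonempty with he | hne
    · obtain ⟨β, hβ⟩ := hδ0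
      refine ⟨β, hβ, fun γ hγ hγδ => ?_⟩
      have : γ ∈ C ∩ Iio δ := ⟨hγ, hγδ⟩
      rw [he] at this
      exact absurd this (notMem_empty _)
    · obtain ⟨m, hm, hmax⟩ := hfin.exists_maximal hne
      obtain ⟨β, h4, h5⟩ := hδl m hm.2
      refine ⟨β, h5, fun γ hγ hγδ => ?_⟩
      have h6 : γ ≤ m := by
        rcases le_total γ m with h | h
        · exact h
        · exact hmax ⟨hγ, hγδ⟩ h
      exact h6.trans_lt h4

/-- If a regular uncountable cardinal belongs to `ℙ` then every sequence of pairwise disjoint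
stationary sets reflects simultaneously on a set of indices which is large with respect to a given
nonprincipal ultrafilter. -/
theorem sim_reflection (hreg : (#Ω).IsRegular) (hunc : ℵ₀ < #Ω)
    (hi : ∀ x : Ω, #(Iio x) < #Ω) (h : #Ω ∈ PathCardinals.{u}) (T : ℕ → Set Ω)
    (hT : ∀ n, IsStationary (T n)) (hd : ∀ m n, m ≠ n → Disjoint (T m) (T n))
    (𝒰 : Ultrafilter ℕ) (h𝒰 : (𝒰 : Filter ℕ) ≤ Filter.cofinite) :
    ∃ δ : Ω, ℵ₀ < Order.cof (Iio δ) ∧
      {n | IsStationary ((Subtype.val : Iio δ → Ω) ⁻¹' (T n))} ∈ 𝒰 := by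
  classical
  by_contra hcon
  push Not at hcon
  choose C hC1 hC2 hC3 using sr_cseq T
  let L : Set Ω := {δ | (∃ β, β < δ) ∧ ∀ β < δ, ∃ γ, β < γ ∧ γ < δ}
  let N : Ω → Set ℕ := fun v =>
    {n | ℵ₀ < Order.cof (Iio v) → ¬ IsStationary ((Subtype.val : Iio v → Ω) ⁻¹' (T n))}
  let A : Ω → Set ℕ := fun v => N v ∩ {n | v ∉ T n}
  refine not_mem_of_filter hreg hunc hi (𝒰 : Filter ℕ) (fun n => T n ∩ L) ?_ A ?_ ?_ C hC1 hC2 ?_ h
  · intro n f
    obtain ⟨δ, hδS, h1, h2, h3⟩ := hT n (sr_club hreg hunc hi f)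
    exact ⟨δ, ⟨hδS, h1, h2⟩, h1, h3⟩
  · intro v
    refine Filter.inter_mem ?_ ?_
    · by_cases hv : ℵ₀ < Order.cof (Iio v)
      · have h1 := Ultrafilter.compl_mem_iff_notMem.mpr (hcon v hv)
        refine Filter.mem_of_superset h1 ?_
        intro n hn _
        exact hn
      · refine Filter.mem_of_superset Filter.univ_mem ?_
        intro n _ hv'
        exact absurd hv' hv
    · refine h𝒰 ?_
      rw [Filter.mem_cofinite]
      have : {n | v ∉ T n}ᶜ.Subsingleton := by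
        intro m hm n hn
        simp only [mem_compl_iff, mem_setOf_eq, not_not] at hm hn
        by_contra hne
        exact Set.disjoint_left.mp (hd m n hne) hm hn
      exact this.finite
  · intro n δ hδ hn
    exact hn.2 hδ.1
  · intro n v hn δ hδ hδv
    exact hC3 v n hn.1 δ hδ.1 hδ.2.1 hδ.2.2 hδv

end Pool.Agent.TH770.PP
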