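import Mathlib
import Pool.Agent.H38R3.TPDefs
import Pool.Agent.TH770.PP.NegDefs
import Pool.Agent.TH770.PP.J_K1
import Pool.Agent.TH770.PP.J_K2

set_option autoImplicit false

namespace Pool.Agent.TH770.PP

open Cardinal Ordinal Set Pool.H38R3.TransPath

universe u

variable {Ω : Type u} [LinearOrder Ω] [WellFoundedLT Ω]

/-- Walks along a `C`-sequence avoiding infinitely many pairwise disjoint stationary sets give a
colouring with countably many colours without monochromatic paths of full size. -/
theorem walk_colouring (hreg : (#Ω).IsRegular) (hunc : ℵ₀ < #Ω) (hi : ∀ x : Ω, #(Iio x) < #Ω)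
    (T : ℕ → Set Ω) (hT : ∀ n, Stat (T n)) (hTd : ∀ m n, m ≠ n → Disjoint (T m) (T n))
    (C : Ω → Set Ω) (hC : ∀ n, CSeq (T n) C) : #Ω ∉ PathCardinals.{u} :=
  walk_colouring_of (path_club hreg hunc hi) T hT hTd C hC

end Pool.Agent.TH770.PP
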