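import Mathlib
import Pool.Agent.H38R3.TPDefs
import Pool.Agent.H38R3.TPNeg
import Pool.Agent.TH770.PP.NegDefs
import Pool.Agent.TH770.PP.J_J4
import Pool.Agent.TH770.PP.J_K1
import Pool.Agent.TH770.PP.Walk
import Pool.Agent.TH770.PP.J_K3
import Pool.Agent.TH770.PP.J_K4
import Pool.Agent.TH770.PP.SimRefl2

/-!
# Lower bounds for the elements of `ℙ` (MP_ebc4cb_lc, Q2)
-/

set_option autoImplicit false

namespace Pool.Agent.TH770.PP

open Cardinal Ordinal Set Pool.H38R3.TransPath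

universe u

theorem not_mem_of_cseq {Ω : Type u} [LinearOrder Ω] [WellFoundedLT Ω] {μ : Cardinal.{u}}
    (hμ : ℵ₀ ≤ μ) (hΩ : #Ω = Order.succ μ) (hi : ∀ x : Ω, #(Iio x) < #Ω)
    {T : Set Ω} {C : Ω → Set Ω} (hT : Stat T) (hC : CSeq T C) : #Ω ∉ PathCardinals.{u} := by
  obtain ⟨T', hsub, hst, hdisj⟩ := ulam hμ hΩ hi T hT
  refine walk_colouring ?_ ?_ hi T' hst hdisj C
    (fun n => ⟨hC.sub, hC.cofinal, fun δ hδ => hC.avoid δ (hsub n hδ)⟩)
  · rw [hΩ]
    exact isRegular_succ hμ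
  · rw [hΩ]
    exact hμ.trans_lt (Order.lt_succ μ)

/-- Initial segments of `κ.ord.ToType` are small. -/
theorem seg_lt (κ : Cardinal.{u}) : ∀ x : κ.ord.ToType, #(Iio x) < #κ.ord.ToType := fun x =>
  Cardinal.mk_Iio_lt x (by simp)

/-- A successor cardinal in `ℙ` is the successor of a singular cardinal of uncountable cofinality
and all its stationary subsets reflect. -/
theorem succ_mem {μ : Cardinal.{u}} (hμ : ℵ₀ ≤ μ) (h : Order.succ μ ∈ PathCardinals.{u}) :
    ¬ μ.IsRegular ∧ ℵ₀ < μ.ord.cof ∧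
      ∀ S : Set (Order.succ μ).ord.ToType, IsStationary S →
        ∃ δ : (Order.succ μ).ord.ToType, ℵ₀ < Order.cof (Iio δ) ∧
          IsStationary ((Subtype.val : Iio δ → (Order.succ μ).ord.ToType) ⁻¹' S) := by
  have hcard : #((Order.succ μ).ord.ToType) = Order.succ μ := Cardinal.mk_ord_toType _
  have hno : ∀ (T : Set (Order.succ μ).ord.ToType)
      (C : (Order.succ μ).ord.ToType → Set (Order.succ μ).ord.ToType),
      Stat T → CSeq T C → False := by
    intro T C hT hC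
    have h1 := not_mem_of_cseq hμ hcard (seg_lt _) hT hC
    rw [hcard] at h1
    exact h1 h
  refine ⟨?_, ?_, ?_⟩
  · intro hreg
    obtain ⟨T, C, hT, hC⟩ := cseq_of_regular hreg hcard (seg_lt _)
    exact hno T C hT hC
  · have hcof0 : ℵ₀ ≤ μ.ord.cof := by
      have : Order.IsSuccLimit μ.ord := Cardinal.isSuccLimit_ord hμ
      exact Ordinal.aleph0_le_cof.mpr this
    refine lt_of_le_of_ne hcof0 ?_
    intro h3
    exact succ_not_mem_of_cof_aleph0 hμ h3.symm h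
  · intro S hS
    by_contra hcon
    push Not at hcon
    obtain ⟨T, C, hT, hC⟩ := cseq_of_nonreflecting (by rw [hcard]; exact isRegular_succ hμ)
      (by rw [hcard]; exact hμ.trans_lt (Order.lt_succ μ)) (seg_lt _) S hS hcon
    exact hno T C hT hC

/-- Every element of `ℙ` below `ℵ_{ω₂}` is the successor of a singular cardinal of cofinality
`ℵ₁`. -/
theorem lower_bound {κ : Cardinal.{u}} (hκ : κ ∈ PathCardinals.{u}) (hlt : κ < ℵ_ (ω_ 2)) :
    ℵ_ (ω_ 1 + 1) ≤ κ ∧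
      ∃ μ : Cardinal.{u}, κ = Order.succ μ ∧ ℵ_ 1 < μ ∧ μ.ord.cof = ℵ_ 1 := by
  classical
  have h12 : (ℵ_ 1 : Cardinal.{u}) < ℵ_ 2 := by
    rw [Cardinal.aleph_lt_aleph]
    norm_num
  have h2 := aleph_two_le_cof hκ
  have hinf : ℵ₀ ≤ κ := hκ.1
  obtain ⟨α, rfl⟩ := Cardinal.mem_range_aleph_iff.mpr hinf
  have hα : α < ω_ 2 := Cardinal.aleph_lt_aleph.mp hlt
  have hsucc : ∃ β, α = β + 1 := by
    rcases Ordinal.zero_or_succ_or_isSuccLimit α with rfl | ⟨β, rfl⟩ | hlim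
    · exfalso
      rw [Cardinal.aleph_zero, isRegular_aleph0.cof_ord] at h2
      exact absurd (h2.trans (Cardinal.aleph0_le_aleph 1)) (not_le.mpr h12)
    · exact ⟨β, rfl⟩
    · exfalso
      rw [Cardinal.ord_aleph, Ordinal.cof_omega hlim] at h2
      have h3 : α.cof ≤ α.card := Ordinal.cof_le_card α
      have h4 : α.card < ℵ_ 2 := by
        rw [← Cardinal.lt_ord, Cardinal.ord_aleph]
        exact hα
      exact absurd (h2.trans h3) (not_le.mpr h4)
  obtain ⟨β, rfl⟩ := hsucc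
  set μ : Cardinal.{u} := ℵ_ β with hμdef
  have hκμ : (ℵ_ (β + 1) : Cardinal.{u}) = Order.succ μ := (Cardinal.succ_aleph β).symm
  have hμinf : ℵ₀ ≤ μ := Cardinal.aleph0_le_aleph β
  have hμlt : μ < ℵ_ (ω_ 2) := by
    refine lt_of_lt_of_le (Order.lt_succ μ) ?_
    rw [← hκμ]
    exact hlt.le
  obtain ⟨hsing, hcof0, -⟩ := succ_mem hμinf (hκμ ▸ hκ)
  have hcof1 : μ.ord.cof ≤ ℵ_ 1 := cof_le_of_lt_aleph_omega_two hμinf hμlt hsing
  have hcofeq : μ.ord.cof = ℵ_ 1 := by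
    refine le_antisymm hcof1 ?_
    have h3 : (ℵ_ 1 : Cardinal.{u}) = Order.succ ℵ₀ := by
      rw [← Cardinal.aleph_zero, Cardinal.succ_aleph, zero_add]
    rw [h3]
    exact Order.succ_le_of_lt hcof0
  refine ⟨?_, μ, hκμ, ?_, hcofeq⟩
  · rw [Cardinal.aleph_le_aleph]
    have hβ : ω_ 1 ≤ β := by
      rcases Ordinal.zero_or_succ_or_isSuccLimit β with rfl | ⟨γ, rfl⟩ | hlim
      · exfalso
        apply hsing
        rw [hμdef, Cardinal.aleph_zero]
        exact isRegular_aleph0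
      · exfalso
        apply hsing
        rw [hμdef]
        exact isRegular_aleph_succ γ
      · have h5 : β.cof = ℵ_ 1 := by
          rw [← hcofeq, hμdef, Cardinal.ord_aleph, Ordinal.cof_omega hlim]
        have h6 : (ℵ_ 1 : Cardinal.{u}) ≤ β.card := h5 ▸ Ordinal.cof_le_card β
        rw [← Cardinal.ord_aleph]
        exact Cardinal.ord_le.mpr h6
    exact add_le_add_left hβ 1
  · have h5 : μ.ord.cof < μ := by
      refine lt_of_le_of_ne (Ordinal.cof_ord_le μ) ?_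
      intro h
      exact hsing ⟨hμinf, h.ge⟩
    rwa [hcofeq] at h5

/-- Simultaneous reflection in regular elements of `ℙ`. -/
theorem regular_mem {κ : Cardinal.{u}} (hκ : κ ∈ PathCardinals.{u}) (hreg : κ.IsRegular)
    (T : ℕ → Set κ.ord.ToType) (hT : ∀ n, IsStationary (T n))
    (hd : ∀ m n, m ≠ n → Disjoint (T m) (T n)) (𝒰 : Ultrafilter ℕ)
    (h𝒰 : (𝒰 : Filter ℕ) ≤ Filter.cofinite) :
    ∃ δ : κ.ord.ToType, ℵ₀ < Order.cof (Iio δ) ∧
      {n | IsStationary ((Subtype.val : Iio δ → κ.ord.ToType) ⁻¹' (T n))} ∈ 𝒰 := by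
  have hcard : #(κ.ord.ToType) = κ := Cardinal.mk_ord_toType _
  have hunc : ℵ₀ < κ := by
    have h2 := aleph_two_le_cof hκ
    rw [hreg.cof_ord] at h2
    refine lt_of_lt_of_le ?_ h2
    rw [← Cardinal.aleph_zero, Cardinal.aleph_lt_aleph]
    norm_num
  exact sim_reflection (by rwa [hcard]) (by rwa [hcard]) (seg_lt κ) (by rwa [hcard]) T hT hd 𝒰 h𝒰

end Pool.Agent.TH770.PP
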