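import Mathlib
import Pool.Agent.H38R3.TPDefs
import Pool.Agent.TH770.PP.Defs

/-!
# Concatenation of transfinite paths (helper959, job 2985 for helper770)
-/

set_option autoImplicit false

namespace Pool.Agent.TH770.PP

open Cardinal Set Pool.H38R3.TransPath

universe u

variable {V : Type u}

theorem ClosedPath.single (G : SimpleGraph V) (a : V) : ClosedPath G {a} a a := by
  refine ⟨PUnit, inferInstance, inferInstance, fun _ => a, ?_, ?_, ?_, ?_, ?_⟩
  · intro x y _
    rfl
  · ext v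
    simp [eq_comm]
  · intro x y h
    exact absurd h (lt_irrefl _)
  · exact ⟨PUnit.unit, fun y => le_of_eq rfl, rfl⟩
  · exact ⟨PUnit.unit, fun y => le_of_eq rfl, rfl⟩

namespace J1

/-- the lexicographic sum of well-orders -/
private theorem sigma_wf {K : Type u} [LinearOrder K] [WellFoundedLT K] {L : K → Type u}
    [∀ k, LinearOrder (L k)] [∀ k, WellFoundedLT (L k)] :
    WellFounded (Sigma.Lex (· < · : K → K → Prop) (fun k => (· < · : L k → L k → Prop))) := by
  have key : ∀ (k : K) (l : L k), Acc (Sigma.Lex (· < · : K → K → Prop)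
      (fun k => (· < · : L k → L k → Prop))) ⟨k, l⟩ := by
    intro k
    induction k using (wellFounded_lt (α := K)).induction with
    | _ k ihk =>
      intro l
      induction l using (wellFounded_lt (α := L k)).induction with
      | _ l ihl =>
        constructor
        rintro ⟨k', l'⟩ h
        cases h with
        | left _ _ h => exact ihk k' h l'
        | right _ _ h => exact ihl l' h
  exact ⟨fun ⟨k, l⟩ => key k l⟩

/-- from a relation to an order -/
private theorem of_rel {G : SimpleGraph V} {W : Type u} {r : W → W → Prop}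
    (hwo : IsWellOrder W r) {p : W → V}
    (hadj : ∀ x y : W, r y x → ∃ z, (y = z ∨ r y z) ∧ r z x ∧ G.Adj (p z) (p x)) :
    ∃ (_ : LinearOrder W) (_ : WellFoundedLT W),
      (∀ x y : W, y < x → ∃ z, y ≤ z ∧ z < x ∧ G.Adj (p z) (p x)) ∧
      ∀ x y : W, (x = y ∨ r x y) → x ≤ y := by
  classical
  refine ⟨linearOrderOfSTO r, ⟨hwo.wf⟩, fun x y hyx => ?_, fun x y h => h⟩
  obtain ⟨z, h1, h2, h3⟩ := hadj x y hyx
  exact ⟨z, h1, h2, h3⟩

private theorem concat_aux {G : SimpleGraph V} {K : Type u} [LinearOrder K] [WellFoundedLT K]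
    (P : K → Set V) (a b : K → V) (h : ∀ k, ClosedPath G (P k) (a k) (b k))
    (hd : ∀ k k', k ≠ k' → Disjoint (P k) (P k'))
    (he : ∀ k' k, k' < k → (∃ k'', k' < k'' ∧ k'' < k ∧ ∃ z ∈ P k'', G.Adj z (a k)) ∨
      G.Adj (b k') (a k)) :
    ∃ (W : Type u) (_ : LinearOrder W) (_ : WellFoundedLT W) (p : W → V),
      Function.Injective p ∧ range p = (⋃ k, P k) ∧
      (∀ x y : W, y < x → ∃ z, y ≤ z ∧ z < x ∧ G.Adj (p z) (p x)) ∧
      (∀ k0 : K, (∀ k, k0 ≤ k) → ∃ x, (∀ y, x ≤ y) ∧ p x = a k0) ∧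
      (∀ k1 : K, (∀ k, k ≤ k1) → ∃ x, (∀ y, y ≤ x) ∧ p x = b k1) := by
  classical
  choose L lo wf p hinj hran hadj hfst hlst using h
  choose x0 hx0 hpx0 using hfst
  choose x1 hx1 hpx1 using hlst
  let r : (Σ k, L k) → (Σ k, L k) → Prop :=
    Sigma.Lex (· < · : K → K → Prop) (fun k => (· < · : L k → L k → Prop))
  have hwo : IsWellOrder (Σ k, L k) r :=
    { wf := sigma_wf }
  have hA : ∀ x y : (Σ k, L k), r y x → ∃ z : (Σ k, L k), (y = z ∨ r y z) ∧ r z x ∧
      G.Adj (p z.1 z.2) (p x.1 x.2) := by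
    rintro ⟨k, l⟩ ⟨k', l'⟩ hyx
    cases hyx with
    | left _ _ hk =>
      by_cases hl : x0 k = l
      · subst hl
        rcases he k' k hk with ⟨k'', h1, h2, z, hz, hza⟩ | hba
        · rw [← hran k''] at hz
          obtain ⟨m, rfl⟩ := hz
          refine ⟨⟨k'', m⟩, Or.inr (Sigma.Lex.left _ _ h1), Sigma.Lex.left _ _ h2, ?_⟩
          simp only
          rw [hpx0]
          exact hza
        · refine ⟨⟨k', x1 k'⟩, ?_, Sigma.Lex.left _ _ hk, ?_⟩
          · rcases (hx1 k' l').eq_or_lt with h3 | h3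
            · left
              rw [h3]
            · right
              exact Sigma.Lex.right _ _ h3
          · simp only
            rw [hpx0, hpx1]
            exact hba
      · have h3 : x0 k < l := lt_of_le_of_ne (hx0 k l) hl
        obtain ⟨z, hz1, hz2, hz3⟩ := hadj k l (x0 k) h3
        exact ⟨⟨k, z⟩, Or.inr (Sigma.Lex.left _ _ hk), Sigma.Lex.right _ _ hz2, hz3⟩
    | right _ _ hl =>
      obtain ⟨z, hz1, hz2, hz3⟩ := hadj k l l' hl
      refine ⟨⟨k, z⟩, ?_, Sigma.Lex.right _ _ hz2, hz3⟩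
      rcases hz1.eq_or_lt with h3 | h3
      · left
        rw [h3]
      · right
        exact Sigma.Lex.right _ _ h3
  have hI : Function.Injective (fun x : (Σ k, L k) => p x.1 x.2) := by
    rintro ⟨k, l⟩ ⟨k', l'⟩ hxy
    simp only at hxy
    by_cases hk : k = k'
    · subst hk
      rw [hinj k hxy]
    · exfalso
      have h1 : p k l ∈ P k := hran k ▸ ⟨l, rfl⟩
      have h2 : p k l ∈ P k' := by
        rw [hxy]
        exact hran k' ▸ ⟨l', rfl⟩
      exact (Set.disjoint_left.1 (hd k k' hk)) h1 h2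
  have hR : range (fun x : (Σ k, L k) => p x.1 x.2) = ⋃ k, P k := by
    ext v
    constructor
    · rintro ⟨⟨k, l⟩, rfl⟩
      exact Set.mem_iUnion.2 ⟨k, hran k ▸ ⟨l, rfl⟩⟩
    · intro hv
      obtain ⟨k, hk⟩ := Set.mem_iUnion.1 hv
      rw [← hran k] at hk
      obtain ⟨l, hl⟩ := hk
      exact ⟨⟨k, l⟩, hl⟩
  have hF : ∀ k0 : K, (∀ k, k0 ≤ k) → ∃ x : (Σ k, L k), (∀ y, x = y ∨ r x y) ∧
      p x.1 x.2 = a k0 := by
    intro k0 hk0
    refine ⟨⟨k0, x0 k0⟩, ?_, hpx0 k0⟩
    rintro ⟨k, l⟩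
    rcases (hk0 k).eq_or_lt with h3 | h3
    · subst h3
      rcases (hx0 k0 l).eq_or_lt with h4 | h4
      · left
        rw [h4]
      · right
        exact Sigma.Lex.right _ _ h4
    · right
      exact Sigma.Lex.left _ _ h3
  have hL : ∀ k1 : K, (∀ k, k ≤ k1) → ∃ x : (Σ k, L k), (∀ y, y = x ∨ r y x) ∧
      p x.1 x.2 = b k1 := by
    intro k1 hk1
    refine ⟨⟨k1, x1 k1⟩, ?_, hpx1 k1⟩
    rintro ⟨k, l⟩
    rcases (hk1 k).eq_or_lt with h3 | h3
    · subst h3
      rcases (hx1 k l).eq_or_lt with h4 | h4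
      · left
        rw [h4]
      · right
        exact Sigma.Lex.right _ _ h4
    · right
      exact Sigma.Lex.left _ _ h3
  obtain ⟨lo', wf', g1, g2⟩ := of_rel (p := fun x : (Σ k, L k) => p x.1 x.2) hwo hA
  refine ⟨(Σ k, L k), lo', wf', fun x => p x.1 x.2, hI, hR, g1, ?_, ?_⟩
  · intro k0 hk0
    obtain ⟨x, h1, h2⟩ := hF k0 hk0
    exact ⟨x, fun y => g2 x y (h1 y), h2⟩
  · intro k1 hk1
    obtain ⟨x, h1, h2⟩ := hL k1 hk1
    exact ⟨x, fun y => g2 y x (h1 y), h2⟩

end J1

open J1 in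
/-- Concatenation of closed paths along a well-order `K`. -/
theorem OpenPath.concat {G : SimpleGraph V} {K : Type u} [LinearOrder K] [WellFoundedLT K]
    (P : K → Set V) (a b : K → V) (h : ∀ k, ClosedPath G (P k) (a k) (b k))
    (hd : ∀ k k', k ≠ k' → Disjoint (P k) (P k'))
    (he : ∀ k' k, k' < k → (∃ k'', k' < k'' ∧ k'' < k ∧ ∃ z ∈ P k'', G.Adj z (a k)) ∨
      G.Adj (b k') (a k)) :
    OpenPath G (⋃ k, P k) := by
  obtain ⟨W, lo, wf, p, h1, h2, h3, -, -⟩ := concat_aux P a b h hd he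
  exact ⟨W, lo, wf, p, h1, h2, h3⟩

open J1 in
/-- Concatenation of closed paths along a well-order `K` with a last element. -/
theorem ClosedPath.concat {G : SimpleGraph V} {K : Type u} [LinearOrder K] [WellFoundedLT K]
    (P : K → Set V) (a b : K → V) (h : ∀ k, ClosedPath G (P k) (a k) (b k))
    (hd : ∀ k k', k ≠ k' → Disjoint (P k) (P k'))
    (he : ∀ k' k, k' < k → (∃ k'', k' < k'' ∧ k'' < k ∧ ∃ z ∈ P k'', G.Adj z (a k)) ∨
      G.Adj (b k') (a k)) (k0 k1 : K) (h0 : ∀ k, k0 ≤ k) (h1 : ∀ k, k ≤ k1) :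
    ClosedPath G (⋃ k, P k) (a k0) (b k1) := by
  obtain ⟨W, lo, wf, p, g1, g2, g3, g4, g5⟩ := concat_aux P a b h hd he
  exact ⟨W, lo, wf, p, g1, g2, g3, g4 k0 h0, g5 k1 h1⟩

theorem ClosedPath.append {G : SimpleGraph V} {P Q : Set V} {a b c d : V}
    (hP : ClosedPath G P a b) (hQ : ClosedPath G Q c d) (hd : Disjoint P Q) (hbc : G.Adj b c) :
    ClosedPath G (P ∪ Q) a d := by
  classical
  have key := ClosedPath.concat (G := G) (K := ULift.{u} (Fin 2))
    (fun k => if k.down = 0 then P else Q) (fun k => if k.down = 0 then a else c)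
    (fun k => if k.down = 0 then b else d)
    (by
      rintro ⟨k⟩
      by_cases hk : k = 0
      · simp only [hk, if_true]
        exact hP
      · simp only [hk, if_false]
        exact hQ)
    (by
      rintro ⟨k⟩ ⟨k'⟩ hkk
      have hne : k ≠ k' := fun h => hkk (by rw [h])
      by_cases hk : k = 0
      · have hk' : k' ≠ 0 := fun h => hne (by rw [hk, h])
        simp only [hk, hk', if_true, if_false]
        exact hd
      · have hk' : k' = 0 := by omega
        simp only [hk, hk', if_true, if_false]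
        exact hd.symm)
    (by
      rintro ⟨k'⟩ ⟨k⟩ hlt
      right
      have hlt' : k' < k := hlt
      have h0 : k' = 0 := by omega
      have h1 : k ≠ 0 := by omega
      simp only [h0, h1, if_true, if_false]
      exact hbc)
    ⟨0⟩ ⟨1⟩ (by
      rintro ⟨k⟩
      show (0 : Fin 2) ≤ k
      exact Fin.zero_le k)
    (by
      rintro ⟨k⟩
      show k ≤ (1 : Fin 2)
      omega)
  have hU : (⋃ k : ULift.{u} (Fin 2), (if k.down = 0 then P else Q)) = P ∪ Q := by
    ext v
    rw [Set.mem_iUnion]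
    constructor
    · rintro ⟨⟨k⟩, hv⟩
      by_cases hk : k = 0
      · simp only [hk, if_true] at hv
        exact Or.inl hv
      · simp only [hk, if_false] at hv
        exact Or.inr hv
    · rintro (hv | hv)
      · exact ⟨⟨0⟩, by simpa using hv⟩
      · exact ⟨⟨1⟩, by simpa using hv⟩
  rw [hU] at key
  simpa using key

/-- An open path gives a subgraph which is a transfinite path. -/
theorem OpenPath.transPath {G : SimpleGraph V} {P : Set V} (h : OpenPath G P) :
    ∃ Q : G.Subgraph, IsTransPath Q.coe ∧ Q.verts = P := by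
  classical
  obtain ⟨L, lo, wf, p, hinj, hran, hadj⟩ := h
  refine ⟨(⊤ : G.Subgraph).induce P, ?_, rfl⟩
  have hex : ∀ u : P, ∃ x : L, p x = u := by
    intro u
    have h1 : (u : V) ∈ range p := by
      rw [hran]
      exact u.2
    exact h1
  choose e he using hex
  have hmem : ∀ x, p x ∈ P := fun x => hran ▸ ⟨x, rfl⟩
  have heinj : Function.Injective e := by
    intro u v huv
    apply Subtype.ext
    rw [← he u, ← he v, huv]
  have hep : ∀ x (hx : p x ∈ P), e ⟨p x, hx⟩ = x := fun x hx => hinj (he ⟨p x, hx⟩)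
  let r : P → P → Prop := fun u v => e u < e v
  have hwo : IsWellOrder P r :=
    { wf := InvImage.wf e wellFounded_lt
      trichotomous := fun u v h1 h2 => heinj (le_antisymm (not_lt.1 h2) (not_lt.1 h1)) }
  have main : ∀ v u : P, r u v → ∃ w : P, (w = u ∨ r u w) ∧ r w v ∧ G.Adj w v := by
    intro v u huv
    obtain ⟨z, hz1, hz2, hz3⟩ := hadj (e v) (e u) huv
    refine ⟨⟨p z, hmem z⟩, ?_, ?_, ?_⟩
    · rcases hz1.eq_or_lt with h3 | h3
      · left
        apply Subtype.ext
        show p z = u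
        rw [← h3, he]
      · right
        show e u < e ⟨p z, _⟩
        rw [hep]
        exact h3
    · show e ⟨p z, _⟩ < e v
      rw [hep]
      exact hz2
    · have h4 : G.Adj (p z) v := by
        rw [← he v]
        exact hz3
      exact h4
  refine ⟨r, hwo, fun v u huv => ?_⟩
  obtain ⟨w, h1, h2, h3⟩ := main v u huv
  exact ⟨w, h1, h2, w.2, v.2, h3⟩

end Pool.Agent.TH770.PP
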