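import Mathlib
import Pool.Agent.TH770.PP.Defs
import Pool.Agent.TH770.PP.J_J4

set_option autoImplicit false

namespace Pool.Agent.TH770.PP

open Cardinal Ordinal Set

universe u

/-- Every block below `ℵ_{ω₂}` is rich. -/
theorem rich_of {V : Type u} {G : SimpleGraph V} {B W : Set V} {i : Ordinal.{u}} (hi : i < ω_ 2)
    (hB : #B ≤ ℵ_ (i + 3))
    (hcommon : ∀ a ∈ B, ∀ b ∈ B, a ≠ b →
      ℵ_ (i + 3) ≤ #(G.neighborSet a ∩ G.neighborSet b : Set V))
    (hW : ℵ_ (i + 3) < #W)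
    (hexit : ∀ w ∈ W, ℵ_ (i + 3) ≤ #(G.neighborSet w ∩ B : Set V)) :
    Rich G B W (ℵ_ (i + 3)) := by
  classical
  have h3 : i + 3 = i + 2 + 1 := by
    rw [add_assoc]; norm_num
  have hreg : (ℵ_ (i + 3)).IsRegular := by
    rw [h3]; exact isRegular_aleph_add_one _
  have h0lt : (0 : Ordinal.{u}) < i + 3 := by
    rw [h3]; exact lt_of_le_of_lt zero_le (lt_add_one _)
  have hunc : ℵ₀ < ℵ_ (i + 3) := by
    rw [← aleph_zero, aleph_lt_aleph]; exact h0lt
  have hlim : i + 3 < ω_ 2 := by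
    have hl := isSuccLimit_omega (2 : Ordinal.{u})
    have h1 : i + 1 < ω_ 2 := hl.add_one_lt hi
    have h2 : i + 1 + 1 < ω_ 2 := hl.add_one_lt h1
    have h4 : i + 1 + 1 + 1 < ω_ 2 := hl.add_one_lt h2
    have : i + 3 = i + 1 + 1 + 1 := by
      rw [add_assoc, add_assoc]; norm_num
    rw [this]; exact h4
  have hlt : ℵ_ (i + 3) < ℵ_ (ω_ 2) := aleph_lt_aleph.2 hlim
  have hWne : ∃ w, w ∈ W := by
    by_contra hcon
    push Not at hcon
    have : #W = 0 := by
      rw [Cardinal.mk_eq_zero_iff]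
      exact ⟨fun x => hcon x.1 x.2⟩
    rw [this] at hW
    exact not_lt_bot hW
  refine ⟨hreg, hunc, ?_, hcommon, hexit, ?_⟩
  · obtain ⟨w, hw⟩ := hWne
    exact (hexit w hw).trans (Cardinal.mk_le_mk_of_subset inter_subset_right)
  · intro ρ hρ hρθ F hF
    set θ : Cardinal.{u} := ℵ_ (i + 3) with hθ
    set τ : Cardinal.{u} := Order.succ θ with hτdef
    have hτ : τ.IsRegular := isRegular_succ hreg.aleph0_le
    have hθτ : θ < τ := Order.lt_succ θ
    have hWτ : τ ≤ #W := Order.succ_le_of_lt hW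
    set A0 : Set V := B \ F with hA0def
    have hA0 : #A0 ≤ θ := (Cardinal.mk_le_mk_of_subset sdiff_subset).trans hB
    have hexit' : ∀ w ∈ W, θ ≤ #(G.neighborSet w ∩ A0 : Set V) := by
      intro w hw
      by_contra hcon
      rw [not_le] at hcon
      have h1 : (G.neighborSet w ∩ B : Set V) ⊆ (G.neighborSet w ∩ A0) ∪ F := by
        rintro x ⟨hx1, hx2⟩
        by_cases hxF : x ∈ F
        · exact Or.inr hxF
        · exact Or.inl ⟨hx1, hx2, hxF⟩
      have h2 := (hexit w hw).trans (Cardinal.mk_le_mk_of_subset h1)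
      exact absurd h2 (not_le.2 (union_lt hreg.aleph0_le hcon hF))
    have hstart : ∀ σ : Cardinal.{u}, σ ≤ θ →
        τ ≤ #{w | w ∈ W ∧ σ ≤ #(G.neighborSet w ∩ A0 : Set V)} := by
      intro σ hσ
      refine hWτ.trans (Cardinal.mk_le_mk_of_subset ?_)
      intro w hw
      exact ⟨hw, hσ.trans (hexit' w hw)⟩
    have hcof : ∀ σ : Cardinal.{u}, ℵ_ 2 ≤ σ → ∀ γ ≤ θ, σ < γ → γ.ord.cof ≠ σ := by
      intro σ hσ γ hγθ hσγ hc
      by_cases hr : γ.IsRegular
      · rw [hr.cof_ord] at hc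
        exact hσγ.ne' hc
      · have hγ0 : ℵ₀ ≤ γ := (aleph0_le_aleph 2).trans (hσ.trans hσγ.le)
        have h1 := cof_le_of_lt_aleph_omega_two hγ0 (hγθ.trans_lt hlt) hr
        rw [hc] at h1
        have h2 : ℵ_ (1 : Ordinal.{u}) < ℵ_ 2 := aleph_lt_aleph.2 one_lt_two
        exact absurd (hσ.trans h1) (not_le.2 h2)
    by_cases hρ2 : ℵ_ 2 ≤ ρ
    · obtain ⟨A, hA1, hA2, hA3⟩ := hereditary G.neighborSet hτ hθτ hρ (hcof ρ hρ2) A0 W hA0
        (hstart ρ hρθ.le)
      refine ⟨A, fun x hx => (hA1 hx).1, ?_, hA2, hθτ.le.trans hA3⟩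
      exact Set.disjoint_left.2 (fun x hx hxF => (hA1 hx).2 hxF)
    · rw [not_le] at hρ2
      have h2r : (ℵ_ (2 : Ordinal.{u})).IsRegular := by
        have : (2 : Ordinal.{u}) = 1 + 1 := one_add_one_eq_two.symm
        rw [this]
        exact isRegular_aleph_add_one _
      have h2θ : ℵ_ (2 : Ordinal.{u}) ≤ θ := by
        rw [hθ, aleph_le_aleph, h3]
        exact (le_add_self : (2 : Ordinal.{u}) ≤ i + 2).trans le_self_add
      obtain ⟨A2, hB1, hB2, hB3⟩ := hereditary G.neighborSet hτ hθτ h2r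
        (hcof (ℵ_ 2) le_rfl) A0 W hA0 (hstart _ h2θ)
      have hcof2 : ∀ γ ≤ ℵ_ (2 : Ordinal.{u}), ρ < γ → γ.ord.cof ≠ ρ := by
        intro γ hγ2 hργ hc
        have hγ0 : ℵ₀ ≤ γ := hρ.aleph0_le.trans hργ.le
        have hr : γ.IsRegular := by
          obtain ⟨j, rfl⟩ := mem_range_aleph_iff.2 hγ0
          rw [aleph_le_aleph] at hγ2
          rcases hγ2.eq_or_lt with h | h
          · rw [h]; exact h2r
          · have h1 : j ≤ 1 := by
              have : (2 : Ordinal.{u}) = 1 + 1 := one_add_one_eq_two.symm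
              rw [this] at h
              exact Order.lt_add_one_iff.1 h
            rcases h1.eq_or_lt with h | h
            · rw [h]; exact isRegular_aleph_one
            · have h0 : j = 0 := by
                have : (1 : Ordinal.{u}) = 0 + 1 := (zero_add 1).symm
                rw [this] at h
                exact le_antisymm (Order.lt_add_one_iff.1 h) zero_le
              rw [h0, aleph_zero]
              exact isRegular_aleph0
        rw [hr.cof_ord] at hc
        exact hργ.ne' hc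
      have hθ2τ : ℵ_ (2 : Ordinal.{u}) < τ := h2θ.trans_lt hθτ
      obtain ⟨A, hA1, hA2, hA3⟩ := hereditary G.neighborSet hτ hθ2τ hρ hcof2 A2 W hB2.le
        (hB3.trans (Cardinal.mk_le_mk_of_subset (fun w hw => ⟨hw.1, hρ2.le.trans hw.2⟩)))
      refine ⟨A, fun x hx => (hB1 (hA1 hx)).1, ?_, hA2, hθτ.le.trans hA3⟩
      exact Set.disjoint_left.2 (fun x hx hxF => (hB1 (hA1 hx)).2 hxF)

end Pool.Agent.TH770.PP
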