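import Mathlib
import Pool.Agent.H38R3.TPDefs
import Pool.Agent.TH770.PP.Defs

set_option autoImplicit false

namespace Pool.Agent.TH770.PP

open Cardinal Ordinal Set Pool.H38R3.TransPath

universe u

namespace J6h

lemma iUnion_le {ι V : Type u} (f : ι → Set V) {κ : Cardinal.{u}} (hκ : ℵ₀ ≤ κ) (hι : #ι ≤ κ)
    (hf : ∀ i, #(f i) ≤ κ) : #(⋃ i, f i) ≤ κ := by
  refine Cardinal.mk_iUnion_le_sum_mk.trans ((Cardinal.sum_le_sum _ (fun _ => κ) hf).trans ?_)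
  rw [Cardinal.sum_const']
  exact Cardinal.mul_le_of_le hκ hι le_rfl

lemma mk_prod_nat {K : Type u} {κ : Cardinal.{u}} (hκ : ℵ₀ ≤ κ) (hK : #K ≤ κ) (C : Type)
    [Countable C] : #(K × C) ≤ κ := by
  rw [Cardinal.mk_prod]
  refine Cardinal.mul_le_of_le hκ ?_ ?_
  · rwa [Cardinal.lift_uzero]
  · refine le_trans ?_ hκ
    rw [Cardinal.lift_le_aleph0]
    exact Cardinal.mk_le_aleph0

end J6h

open J6h

/-- Countably many blocks at the level `θ`. -/
theorem blocks {V : Type u} (c : Sym2 V → ℕ) {θ : Cardinal.{u}} (hθ : θ.IsRegular)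
    (h2 : ℵ_ 2 ≤ θ) (hV : θ ≤ #V) :
    ∃ (E : Set V) (B : ℕ × ℕ → Set V), #E ≤ θ ∧ (∀ s, #(B s) ≤ θ) ∧
      (∀ s, ∀ a ∈ B s, ∀ b ∈ B s, a ≠ b →
        θ < #((colourGraph c s.2).neighborSet a ∩ (colourGraph c s.2).neighborSet b : Set V)) ∧
      (∀ v, v ∉ E → ∃ s, θ ≤ #((colourGraph c s.2).neighborSet v ∩ B s : Set V)) := by
  classical
  set N : ℕ → V → Set V := fun m v => (colourGraph c m).neighborSet v with hN
  have hmem : ∀ m v x, x ∈ N m v ↔ v ≠ x ∧ c s(v, x) = m := fun m v x => Iff.rfl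
  have hθ0 : ℵ₀ ≤ θ := hθ.aleph0_le
  have h1 : ℵ_ 1 < θ := lt_of_lt_of_le (by
    rw [Cardinal.aleph_lt_aleph]
    exact one_lt_two) h2
  have h0 : ℵ₀ < θ := (Cardinal.aleph0_le_aleph 1).trans_lt h1
  obtain ⟨M, hM⟩ := Cardinal.le_mk_iff_exists_set.1 hV
  set E : Set V := M ∪ ⋃ p : (M × M) × ℕ, {v | (p.1.1 : V) ≠ p.1.2 ∧
    #(N p.2 p.1.1 ∩ N p.2 p.1.2 : Set V) ≤ θ ∧ v ∈ N p.2 p.1.1 ∩ N p.2 p.1.2} with hE
  have hEc : #E ≤ θ := by
    refine (Cardinal.mk_union_le _ _).trans (Cardinal.add_le_of_le hθ0 hM.le ?_)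
    refine iUnion_le _ hθ0 (mk_prod_nat hθ0 ?_ ℕ) fun p => ?_
    · rw [Cardinal.mk_prod, Cardinal.lift_id, hM]
      exact Cardinal.mul_le_of_le hθ0 le_rfl le_rfl
    · by_cases hp : #(N p.2 p.1.1 ∩ N p.2 p.1.2 : Set V) ≤ θ
      · exact le_trans (Cardinal.mk_le_mk_of_subset fun v hv => hv.2.2) hp
      · have h3 : {v | (p.1.1 : V) ≠ p.1.2 ∧
            #(N p.2 p.1.1 ∩ N p.2 p.1.2 : Set V) ≤ θ ∧ v ∈ N p.2 p.1.1 ∩ N p.2 p.1.2} =
            (∅ : Set V) := by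
          ext v
          simp only [mem_ofPred_eq, mem_empty_iff_false, iff_false]
          exact fun h => hp h.2.1
        rw [h3]
        simp
  have hEM : ∀ v, v ∉ E → v ∉ M := fun v hv h => hv (mem_union_left _ h)
  have hECN : ∀ v, v ∉ E → ∀ m, ∀ a ∈ M, ∀ b ∈ M, a ≠ b → v ∈ N m a → v ∈ N m b →
      θ < #(N m a ∩ N m b : Set V) := by
    intro v hv m a ha b hb hab hva hvb
    by_contra hle
    exact hv (mem_union_right _ (mem_iUnion.2 ⟨((⟨a, ha⟩, ⟨b, hb⟩), m), hab, not_lt.1 hle, hva, hvb⟩))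
  set R : V → V → Prop := fun y y' => ∀ m, #((N m y ∩ M) ∩ (N m y' ∩ M) : Set V) < θ with hR
  have hRs : ∀ y y', R y y' → R y' y := by
    intro y y' h m
    have h3 := h m
    rwa [inter_comm] at h3
  obtain ⟨Y, hY⟩ := zorn_subset {Y : Set V | Y ⊆ Eᶜ ∧ Y.Pairwise R} (by
    intro C hC hchain
    refine ⟨⋃₀ C, ⟨sUnion_subset fun s hs => (hC hs).1, ?_⟩, fun s hs => subset_sUnion_of_mem hs⟩
    rw [Set.pairwise_sUnion hchain.directedOn]
    exact fun s hs => (hC hs).2)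
  have hYE : Y ⊆ Eᶜ := hY.prop.1
  have hYR : Y.Pairwise R := hY.prop.2
  -- countability
  have hYc : Y.Countable := by
    by_contra hunc
    have h3 : ℵ_ 1 ≤ #Y := by
      rw [← Cardinal.le_aleph0_iff_set_countable, not_le] at hunc
      rw [← Cardinal.succ_aleph0]
      exact Order.succ_le_of_lt hunc
    obtain ⟨Y', hY'Y, hY'⟩ := Cardinal.le_mk_iff_exists_subset.1 h3
    have h4 : #(⋃ p : (Y' × Y') × ULift.{u} ℕ, {x | (p.1.1 : V) ≠ p.1.2 ∧
        x ∈ (N p.2.down p.1.1 ∩ M) ∩ (N p.2.down p.1.2 ∩ M)}) < θ := by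
      rw [Cardinal.card_iUnion_lt_iff_forall_of_isRegular hθ]
      · intro p
        by_cases hp : (p.1.1 : V) ≠ p.1.2
        · refine lt_of_le_of_lt (Cardinal.mk_le_mk_of_subset fun v hv => hv.2)
            (hYR (hY'Y p.1.1.2) (hY'Y p.1.2.2) hp p.2.down)
        · have h5 : {x | (p.1.1 : V) ≠ p.1.2 ∧
              x ∈ (N p.2.down p.1.1 ∩ M) ∩ (N p.2.down p.1.2 ∩ M)} = (∅ : Set V) := by
            ext v
            simp only [mem_ofPred_eq, mem_empty_iff_false, iff_false]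
            exact fun h => hp h.1
          rw [h5, Cardinal.mk_eq_zero]
          exact Cardinal.aleph0_pos.trans h0
      · refine lt_of_le_of_lt (?_ : _ ≤ ℵ_ 1) h1
        rw [Cardinal.mk_prod, Cardinal.lift_id, Cardinal.lift_id, Cardinal.mk_prod,
          Cardinal.lift_id, hY']
        refine Cardinal.mul_le_of_le (Cardinal.aleph0_le_aleph 1)
          (Cardinal.mul_le_of_le (Cardinal.aleph0_le_aleph 1) le_rfl le_rfl) ?_
        exact Cardinal.mk_le_aleph0.trans (Cardinal.aleph0_le_aleph 1)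
    obtain ⟨x, hxM, hx⟩ := exists_fresh hM.ge h4
    have hinj : Function.Injective (fun y : Y' => c s((y : V), x)) := by
      intro y y' hyy
      by_contra hne
      have hne' : (y : V) ≠ y' := fun h => hne (Subtype.ext h)
      refine hx (mem_iUnion.2 ⟨((y, y'), ULift.up (c s((y : V), x))), hne', ⟨⟨?_, rfl⟩, hxM⟩,
        ⟨?_, ?_⟩, hxM⟩)
      · exact fun h => hEM _ (hYE (hY'Y y.2)) (h ▸ hxM)
      · exact fun h => hEM _ (hYE (hY'Y y'.2)) (h ▸ hxM)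
      · exact hyy.symm
    have h6 : Countable Y' := hinj.countable
    have h7 : #Y' ≤ ℵ₀ := Cardinal.mk_le_aleph0
    rw [hY'] at h7
    exact absurd h7 (not_le.2 (by
      rw [← Cardinal.aleph_zero, Cardinal.aleph_lt_aleph]
      exact zero_lt_one))
  obtain ⟨f, hf⟩ := Set.countable_iff_exists_injOn.1 hYc
  refine ⟨E, fun s => {x | ∃ y ∈ Y, f y = s.1 ∧ x ∈ N s.2 y ∩ M}, hEc, fun s => ?_, ?_, ?_⟩
  · refine le_trans (Cardinal.mk_le_mk_of_subset (t := M) ?_) hM.le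
    rintro x ⟨y, -, -, hx⟩
    exact hx.2
  · rintro s a ⟨y, hy, hys, ha⟩ b ⟨y', hy', hys', hb⟩ hab
    have hyy : y = y' := hf hy hy' (hys.trans hys'.symm)
    subst hyy
    refine hECN y (hYE hy) s.2 a ha.2 b hb.2 hab ?_ ?_
    · exact ⟨ha.1.1.symm, by rw [Sym2.eq_swap]; exact ha.1.2⟩
    · exact ⟨hb.1.1.symm, by rw [Sym2.eq_swap]; exact hb.1.2⟩
  · intro v hv
    by_cases hvY : v ∈ Y
    · -- all of `M`
      by_contra hcon
      push Not at hcon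
      have h3 : #(⋃ m : ULift.{u} ℕ, (N m.down v ∩ M : Set V)) < θ := by
        rw [Cardinal.card_iUnion_lt_iff_forall_of_isRegular hθ]
        · intro m
          refine lt_of_le_of_lt (Cardinal.mk_le_mk_of_subset ?_) (hcon (f v, m.down))
          exact fun x hx => ⟨hx.1, v, hvY, rfl, hx⟩
        · simpa using h0
      obtain ⟨x, hxM, hx⟩ := exists_fresh hM.ge h3
      refine hx (mem_iUnion.2 ⟨ULift.up (c s(v, x)), ⟨?_, rfl⟩, hxM⟩)
      exact fun h => hEM v hv (h ▸ hxM)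
    · by_contra hcon
      push Not at hcon
      have h3 : ∀ y ∈ Y, R v y := by
        intro y hy m
        refine lt_of_le_of_lt (Cardinal.mk_le_mk_of_subset ?_) (hcon (f y, m))
        exact fun x hx => ⟨hx.1.1, y, hy, rfl, hx.2⟩
      have h4 : insert v Y ∈ {Y : Set V | Y ⊆ Eᶜ ∧ Y.Pairwise R} := by
        refine ⟨insert_subset hv hYE, ?_⟩
        rw [Set.pairwise_insert]
        exact ⟨hYR, fun y hy _ => ⟨h3 y hy, hRs _ _ (h3 y hy)⟩⟩
      exact hvY (hY.le_of_ge h4 (subset_insert v Y) (mem_insert v Y))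

/-- Two levels of labels interact on many vertices. -/
theorem star {V : Type u} {I : Type u} [LinearOrder I]
    (hI : ∀ X : Set I, #X ≤ ℵ_ 1 → ∃ b, ∀ x ∈ X, x ≤ b)
    (lam : I → Cardinal.{u}) (hmono : Monotone lam) (hlam : ∀ i, ℵ_ 1 ≤ lam i)
    (hV : ∀ i, lam i < #V) (E : I → Set V) (hE : ∀ i, #(E i) ≤ lam i)
    (T : I → V → ℕ × ℕ → Prop) (hT : ∀ i, ∀ v ∉ E i, ∃ s, T i v s) :
    ∃ (s : ℕ × ℕ) (i0 : I), ∀ β : I, ∃ i, β ≤ i ∧ lam i < #{v | T i v s ∧ T i0 v s} := by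
  by_contra hcon
  push Not at hcon
  choose β hβ using hcon
  have h01 : ℵ₀ ≤ (ℵ_ 1 : Cardinal.{u}) := Cardinal.aleph0_le_aleph 1
  have hKc : #((ℵ_ 1 : Cardinal.{u}).ord.ToType) = ℵ_ 1 := Cardinal.mk_ord_toType _
  have hKsc : ∀ J : Type u, #J ≤ ℵ_ 1 → ∀ f : J → I, ∃ b, ∀ j, f j ≤ b := by
    intro J hJ f
    obtain ⟨b, hb⟩ := hI (range f) (Cardinal.mk_range_le.trans hJ)
    exact ⟨b, fun j => hb _ ⟨j, rfl⟩⟩
  have hne : Nonempty I := by
    obtain ⟨b, -⟩ := hI ∅ (by simp)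
    exact ⟨b⟩
  set K := (ℵ_ 1 : Cardinal.{u}).ord.ToType with hK
  obtain ⟨g, hg⟩ := wf_rec (K := K) (X := I)
    (fun k g x => (∀ k' < k, g k' ≤ x) ∧ ∀ k' < k, ∀ s, β s (g k') ≤ x)
    (by
      intro k g g' x h ⟨h1, h2⟩
      refine ⟨fun k' hk' => ?_, fun k' hk' s => ?_⟩
      · rw [← h k' hk']
        exact h1 k' hk'
      · rw [← h k' hk']
        exact h2 k' hk' s)
    (by
      intro k g _
      obtain ⟨b1, hb1⟩ := hKsc K hKc.le g
      obtain ⟨b2, hb2⟩ := hKsc (K × (ℕ × ℕ)) (mk_prod_nat h01 hKc.le (ℕ × ℕ))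
        (fun p => β p.2 (g p.1))
      refine ⟨max b1 b2, fun k' _ => (hb1 k').trans (le_max_left _ _),
        fun k' _ s => (hb2 (k', s)).trans (le_max_right _ _)⟩)
  obtain ⟨b, hb⟩ := hKsc K hKc.le g
  have hbig : ℵ₀ ≤ lam b := h01.trans (hlam b)
  have hZ1 : #(⋃ k : K, E (g k)) ≤ lam b :=
    iUnion_le _ hbig (hKc.le.trans (hlam b)) fun k => (hE (g k)).trans (hmono (hb k))
  have hZ2 : #(⋃ p : (K × K) × (ℕ × ℕ), {v | p.1.1 < p.1.2 ∧ T (g p.1.2) v p.2 ∧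
      T (g p.1.1) v p.2}) ≤ lam b := by
    refine iUnion_le _ hbig (mk_prod_nat hbig ?_ (ℕ × ℕ)) fun p => ?_
    · rw [Cardinal.mk_prod]
      refine Cardinal.mul_le_of_le hbig ?_ ?_ <;>
      · rw [Cardinal.lift_id]
        exact hKc.le.trans (hlam b)
    · by_cases hp : p.1.1 < p.1.2
      · have h1 := hβ p.2 (g p.1.1) (g p.1.2) ((hg p.1.2).2 p.1.1 hp p.2)
        refine le_trans (Cardinal.mk_le_mk_of_subset ?_) (h1.trans (hmono (hb p.1.2)))
        exact fun v hv => hv.2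
      · have h1 : {v | p.1.1 < p.1.2 ∧ T (g p.1.2) v p.2 ∧ T (g p.1.1) v p.2} = (∅ : Set V) := by
          ext v
          simp [hp]
        rw [h1]
        simp
  obtain ⟨v, -, hv⟩ := exists_fresh (X := (univ : Set V)) (by rw [Cardinal.mk_univ])
    (union_lt (hbig.trans (hV b).le) (hZ1.trans_lt (hV b)) (hZ2.trans_lt (hV b)))
  rw [mem_union, not_or] at hv
  obtain ⟨hv1, hv2⟩ := hv
  have hs : ∀ k : K, ∃ s, T (g k) v s := fun k => hT (g k) v fun h => hv1 (mem_iUnion.2 ⟨k, h⟩)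
  choose s hs using hs
  have hinj : ¬ Function.Injective s := by
    intro hinj
    have h1 : Countable K := hinj.countable
    have h2 : #K ≤ ℵ₀ := Cardinal.mk_le_aleph0
    rw [hKc] at h2
    exact absurd h2 (not_le.2 (by
      rw [← Cardinal.aleph_zero, Cardinal.aleph_lt_aleph]
      exact zero_lt_one))
  apply hinj
  intro k k' hkk
  by_contra hne'
  rcases lt_or_gt_of_ne hne' with h | h
  · exact hv2 (mem_iUnion.2 ⟨((k, k'), s k), h, hkk ▸ hs k', hs k⟩)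
  · exact hv2 (mem_iUnion.2 ⟨((k', k), s k), h, hs k, hkk ▸ hs k'⟩)

end Pool.Agent.TH770.PP
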