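import Mathlib
import Pool.Agent.TH770.PP.Defs

set_option autoImplicit false

/-!
# The threading lemma (J2, helper81 for helper770)
-/

namespace Pool.Agent.TH770.PP

open Cardinal Set

universe u

variable {V : Type u}

private theorem avail_adj {G : SimpleGraph V} {B : Set V} {θ : Cardinal.{u}} (hθ : θ.IsRegular)
    (hbig : θ ≤ #B)
    (hcommon : ∀ a ∈ B, ∀ b ∈ B, a ≠ b → θ ≤ #(G.neighborSet a ∩ G.neighborSet b : Set V))
    {b : V} (hb : b ∈ B) : Avail G B θ (fun w => G.Adj b w) := by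
  intro F hF
  obtain ⟨a, ha, haF⟩ := exists_fresh hbig (union_lt hθ.aleph0_le hF (singleton_lt hθ.aleph0_le b))
  have hab : a ≠ b := fun h => haF (Or.inr h)
  obtain ⟨w, hw, hwF⟩ := exists_fresh (hcommon a ha b hb hab) hF
  exact ⟨w, hwF, hw.2, a, ha, fun h => haF (Or.inl h), (hw.1 : G.Adj a w).symm⟩

/-- The threading lemma: a sequence of pieces `set (d s)` is chosen along a small well-order `S`,
consecutive pieces being connected through the block `B`. -/
theorem thread {G : SimpleGraph V} {B : Set V} {θ : Cardinal.{u}} (hθ : θ.IsRegular)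
    (hbig : θ ≤ #B)
    (hcommon : ∀ a ∈ B, ∀ b ∈ B, a ≠ b → θ ≤ #(G.neighborSet a ∩ G.neighborSet b : Set V))
    {S : Type u} [LinearOrder S] [WellFoundedLT S] (hS : #S < θ)
    {D : Type*} (set : D → Set V) (en ex : D → V) (Ok : S → D → Prop)
    (C : S → Set V) (hCd : ∀ s s', s ≠ s' → Disjoint (C s) (C s')) (hC : #(⋃ s, C s : Set V) < θ)
    (F : Set V) (hF : #F < θ) (hFC : ∀ s, Disjoint (C s) F) (b0 : V) (hb0 : b0 ∈ B)
    (hb0F : b0 ∈ F)
    (hlim : ∀ s : S, (∃ s', s' < s) → (∀ s' < s, ∃ s'', s' < s'' ∧ s'' < s) →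
      Avail G B θ (fun w => ∀ s' < s, ∃ s'', s' < s'' ∧ s'' < s ∧ ∃ z ∈ C s'', G.Adj z w))
    (hprov : ∀ (s : S) (U : Set V), #U < θ → Disjoint (C s) U → ∀ E : V → Prop, Avail G B θ E →
      ∃ d, Ok s d ∧ C s ⊆ set d ∧ #(set d) < θ ∧ Disjoint (set d) U ∧ ex d ∈ set d ∧ ex d ∈ B ∧
        E (en d)) :
    ∃ d : S → D, (∀ s, Ok s (d s)) ∧ (∀ s, C s ⊆ set (d s)) ∧ (∀ s, #(set (d s)) < θ) ∧
      (∀ s, Disjoint (set (d s)) F) ∧ (∀ s, ex (d s) ∈ B) ∧
      (∀ s s', s ≠ s' → Disjoint (set (d s)) (set (d s'))) ∧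
      (∀ s' s, s' < s → (∃ s'', s' < s'' ∧ s'' < s ∧ ∃ z ∈ set (d s''), G.Adj z (en (d s))) ∨
        G.Adj (ex (d s')) (en (d s))) ∧
      (∀ s, (∀ s', s ≤ s') → G.Adj b0 (en (d s))) := by
  rcases isEmpty_or_nonempty S with hemp | ⟨⟨s0⟩⟩
  · exact ⟨fun s => isEmptyElim s, fun s => isEmptyElim s, fun s => isEmptyElim s,
      fun s => isEmptyElim s, fun s => isEmptyElim s, fun s => isEmptyElim s,
      fun s => isEmptyElim s, fun s => isEmptyElim s, fun s => isEmptyElim s⟩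
  have hD : Nonempty D := by
    obtain ⟨d, -⟩ := hprov s0 ∅ (by
      rw [Cardinal.mk_eq_zero]
      exact lt_of_lt_of_le Cardinal.aleph0_pos hθ.aleph0_le) (Set.disjoint_empty _) _
      (avail_adj hθ hbig hcommon hb0)
    exact ⟨d⟩
  let Φ : S → (S → D) → D → Prop := fun s d x => Ok s x ∧ C s ⊆ set x ∧ #(set x) < θ ∧
      Disjoint (set x) ((F ∪ ⋃ s' ∈ Iio s, set (d s')) ∪ ((⋃ t, C t) \ C s)) ∧ ex x ∈ set x ∧
      ex x ∈ B ∧ (∀ s' < s, (∃ s'', s' < s'' ∧ s'' < s ∧ ∃ z ∈ set (d s''), G.Adj z (en x)) ∨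
        G.Adj (ex (d s')) (en x)) ∧ ((∀ s', s ≤ s') → G.Adj b0 (en x))
  have hc : ∀ k g g' x, (∀ k' < k, g k' = g' k') → Φ k g x → Φ k g' x := by
    rintro k g g' x hgg ⟨h1, h2, h3, h4, h5, h6, h7, h8⟩
    have e : (⋃ s' ∈ Iio k, set (g s')) = ⋃ s' ∈ Iio k, set (g' s') :=
      Set.iUnion₂_congr fun s' hs' => by rw [hgg s' hs']
    refine ⟨h1, h2, h3, by rw [← e]; exact h4, h5, h6, fun s' hs' => ?_, h8⟩
    rcases h7 s' hs' with ⟨s'', ha, hb, z, hz, hadj⟩ | h
    · exact Or.inl ⟨s'', ha, hb, z, by rw [← hgg s'' hb]; exact hz, hadj⟩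
    · exact Or.inr (by rw [← hgg s' hs']; exact h)
  have hs : ∀ k g, (∀ k' < k, Φ k' g (g k')) → ∃ x, Φ k g x := by
    intro k g hg
    set U : Set V := (F ∪ ⋃ s' ∈ Iio k, set (g s')) ∪ ((⋃ t, C t) \ C k) with hU
    have hUc : #U < θ := by
      refine union_lt hθ.aleph0_le (union_lt hθ.aleph0_le hF ?_)
        ((Cardinal.mk_le_mk_of_subset Set.sdiff_subset).trans_lt hC)
      rw [Cardinal.card_biUnion_lt_iff_forall_of_isRegular hθ
        ((Cardinal.mk_subtype_le _).trans_lt hS)]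
      exact fun s' hs' => (hg s' hs').2.2.1
    have hCU : Disjoint (C k) U := by
      rw [hU, Set.disjoint_union_right, Set.disjoint_union_right]
      refine ⟨⟨hFC k, ?_⟩, Set.disjoint_sdiff_right⟩
      rw [Set.disjoint_iUnion₂_right]
      intro s' hs'
      refine ((hg s' hs').2.2.2.1.mono_right ?_).symm
      refine Subset.trans ?_ subset_union_right
      intro v hv
      exact ⟨mem_iUnion.2 ⟨k, hv⟩, fun h => Set.disjoint_left.1 (hCd k s' (ne_of_gt hs')) hv h⟩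
    by_cases hmin : ∀ s', k ≤ s'
    · obtain ⟨x, h1, h2, h3, h4, h5, h6, h7⟩ := hprov k U hUc hCU _
        (avail_adj hθ hbig hcommon hb0)
      exact ⟨x, h1, h2, h3, h4, h5, h6, fun s' hs' => absurd (hmin s') (not_le.2 hs'),
        fun _ => h7⟩
    push Not at hmin
    by_cases hsucc : ∃ p, p < k ∧ ∀ s'', p < s'' → k ≤ s''
    · obtain ⟨p, hpk, hp⟩ := hsucc
      obtain ⟨x, h1, h2, h3, h4, h5, h6, h7⟩ := hprov k U hUc hCU _
        (avail_adj hθ hbig hcommon (hg p hpk).2.2.2.2.2.1)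
      refine ⟨x, h1, h2, h3, h4, h5, h6, fun s' hs' => ?_, fun h => ?_⟩
      · rcases lt_trichotomy s' p with h | h | h
        · exact Or.inl ⟨p, h, hpk, ex (g p), (hg p hpk).2.2.2.2.1, h7⟩
        · exact Or.inr (by rw [h]; exact h7)
        · exact absurd (hp s' h) (not_le.2 hs')
      · exact absurd (h p) (not_le.2 hpk)
    · push Not at hsucc
      obtain ⟨x, h1, h2, h3, h4, h5, h6, h7⟩ := hprov k U hUc hCU _ (hlim k hmin hsucc)
      refine ⟨x, h1, h2, h3, h4, h5, h6, fun s' hs' => ?_, fun h => ?_⟩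
      · obtain ⟨s'', ha, hb, z, hz, hadj⟩ := h7 s' hs'
        exact Or.inl ⟨s'', ha, hb, z, (hg s'' hb).2.1 hz, hadj⟩
      · obtain ⟨s', hs'⟩ := hmin
        exact absurd (h s') (not_le.2 hs')
  obtain ⟨d, hd⟩ := wf_rec Φ hc hs
  refine ⟨d, fun s => (hd s).1, fun s => (hd s).2.1, fun s => (hd s).2.2.1, fun s => ?_,
    fun s => (hd s).2.2.2.2.2.1, ?_, fun s' s h => (hd s).2.2.2.2.2.2.1 s' h,
    fun s => (hd s).2.2.2.2.2.2.2⟩
  · exact (hd s).2.2.2.1.mono_right (subset_union_left.trans subset_union_left)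
  · have key : ∀ s s', s' < s → Disjoint (set (d s)) (set (d s')) := by
      intro s s' h
      refine (hd s).2.2.2.1.mono_right ?_
      refine Subset.trans ?_ (subset_union_right.trans subset_union_left)
      exact Set.subset_biUnion_of_mem (u := fun t => set (d t)) h
    intro s s' hne
    rcases lt_or_gt_of_ne hne with h | h
    · exact (key s' s h).symm
    · exact key s s' h

end Pool.Agent.TH770.PP
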