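import Mathlib
import Pool.Agent.TH770.PP.Defs

set_option autoImplicit false

namespace Pool.Agent.TH770.PP

open Cardinal Set

universe u

variable {V : Type u}

/-- In a rich block there is an indexed family of vertices and a set of indices `S` such that
limits along `S` are available. -/
theorem rich_index {G : SimpleGraph V} {B W : Set V} {θ : Cardinal.{u}} (h : Rich G B W θ)
    {R : Type u} [LinearOrder R] [WellFoundedLT R] (hR : (#R).IsRegular) (hRθ : #R < θ)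
    (hRi : ∀ r : R, #(Iio r) < #R) (F : Set V) (hF : #F < θ) :
    ∃ (α : R → V) (S : Set R) (π : R → S), Function.Injective α ∧ (∀ r, α r ∈ B ∧ α r ∉ F) ∧
      (∀ r : R, r ≤ π r) ∧ (∀ (r : R) (s : S), r ≤ s → π r ≤ s) ∧
      (∀ s : S, (∃ s', s' < s) → (∀ s' < s, ∃ s'', s' < s'' ∧ s'' < s) →
        Avail G B θ (fun w => ∀ s' < s, ∃ s'', s' < s'' ∧ s'' < s ∧
          ∃ r, π r = s'' ∧ G.Adj (α r) w)) ∧
      Avail G B θ (fun w => ∀ s' : S, ∃ s'', s' < s'' ∧ ∃ r, π r = s'' ∧ G.Adj (α r) w) := by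
  classical
  obtain ⟨A, hAB, hAF, hA, hW'⟩ := h.rich (#R) hR hRθ F hF
  obtain ⟨e⟩ : Nonempty (R ≃ A) := Cardinal.eq.1 hA.symm
  have hinf : ℵ₀ ≤ #R := hR.aleph0_le
  set α : R → V := fun r => (e r : V) with hα
  have hαinj : Function.Injective α := fun a b hab => e.injective (Subtype.ext hab)
  set W' : Set V := {w | w ∈ W ∧ #R ≤ #(G.neighborSet w ∩ A : Set V)} with hW'def
  set T : V → Set R := fun w => {r | G.Adj w (α r)} with hT
  have hunb : ∀ w ∈ W', ∀ r : R, ∃ r' ∈ T w, r < r' := by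
    intro w hw r
    by_contra hcon
    push Not at hcon
    have h1 : (G.neighborSet w ∩ A : Set V) ⊆ α '' (Iic r) := by
      rintro x ⟨hx1, hx2⟩
      refine ⟨e.symm ⟨x, hx2⟩, ?_, ?_⟩
      · refine hcon _ ?_
        change G.Adj w (e (e.symm ⟨x, hx2⟩) : V)
        rw [Equiv.apply_symm_apply]
        exact hx1
      · change (e (e.symm ⟨x, hx2⟩) : V) = x
        rw [Equiv.apply_symm_apply]
    have h2 : #(Iic r) < #R := by
      have : Iic r = Iio r ∪ {r} := by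
        rw [← Iio_union_right]
      rw [this]
      exact union_lt hinf (hRi r) (singleton_lt hinf r)
    have h3 := hw.2.trans (Cardinal.mk_le_mk_of_subset h1)
    exact absurd (h3.trans Cardinal.mk_image_le) (not_le.2 h2)
  set Wb : R → Set V := fun β => {w | w ∈ W' ∧ ∀ r < β, ∃ r' ∈ T w, r < r' ∧ r' < β} with hWb
  have hbad : #(⋃ β : R, (if #(Wb β) < θ then Wb β else ∅) : Set V) < θ := by
    rw [Cardinal.card_iUnion_lt_iff_forall_of_isRegular h.reg hRθ]
    intro β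
    split_ifs with hb
    · exact hb
    · rw [Cardinal.mk_eq_zero]
      exact lt_of_lt_of_le Cardinal.aleph0_pos h.unc.le
  obtain ⟨ws, hws1, hws2⟩ := exists_fresh hW' hbad
  have hgood : ∀ β : R, ws ∈ Wb β → θ ≤ #(Wb β) := by
    intro β hβ
    by_contra hcon
    rw [not_le] at hcon
    apply hws2
    refine mem_iUnion.2 ⟨β, ?_⟩
    rw [if_pos hcon]
    exact hβ
  set S : Set R := T ws with hS
  have hex : ∀ r : R, (S ∩ Ici r).Nonempty := by
    intro r
    obtain ⟨r', hr', hlt⟩ := hunb ws hws1 r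
    exact ⟨r', hr', hlt.le⟩
  have hwf : WellFounded ((· < ·) : R → R → Prop) := wellFounded_lt
  let π : R → S := fun r => ⟨hwf.min (S ∩ Ici r) (hex r), (hwf.min_mem _ (hex r)).1⟩
  have hπ1 : ∀ r, r ≤ (π r : R) := fun r => (hwf.min_mem _ (hex r)).2
  have hπ2 : ∀ (r : R) (s : S), r ≤ s → π r ≤ s := by
    intro r s hrs
    have := hwf.not_lt_min (S ∩ Ici r) (x := (s : R)) ⟨s.2, hrs⟩
    exact not_lt.1 this
  refine ⟨α, S, π, hαinj, ?_, hπ1, hπ2, ?_, ?_⟩
  · intro r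
    refine ⟨hAB (e r).2, fun hr => ?_⟩
    exact Set.disjoint_left.1 hAF (e r).2 hr
  · intro s _ hlim
    have hne : ({b : R | ∀ s' : S, s' < s → (s' : R) < b}).Nonempty := ⟨s, fun s' hs' => hs'⟩
    set β : R := hwf.min _ hne with hβ
    have hβ1 : ∀ s' : S, s' < s → (s' : R) < β := hwf.min_mem _ hne
    have hβ2 : ∀ r < β, ∃ s' : S, s' < s ∧ r ≤ s' := by
      intro r hr
      by_contra hcon
      push Not at hcon
      exact hwf.not_lt_min {b : R | ∀ s' : S, s' < s → (s' : R) < b} (x := r) hcon hr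
    have hmem : ws ∈ Wb β := by
      refine ⟨hws1, ?_⟩
      intro r hr
      obtain ⟨s', hs', hrs'⟩ := hβ2 r hr
      obtain ⟨s'', hs1, hs2⟩ := hlim s' hs'
      exact ⟨s'', s''.2, lt_of_le_of_lt hrs' hs1, hβ1 s'' hs2⟩
    intro F' hF'
    obtain ⟨w, hw1, hw2⟩ := exists_fresh (hgood β hmem) hF'
    obtain ⟨a, ha1, ha2⟩ := exists_fresh (h.exit w hw1.1.1) hF'
    refine ⟨w, hw2, ?_, a, ha1.2, ha2, ha1.1⟩
    intro s' hs'
    obtain ⟨r, hr1, hr2, hr3⟩ := hw1.2 s' (hβ1 s' hs')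
    obtain ⟨s1, hs1, hrs1⟩ := hβ2 r hr3
    refine ⟨π r, ?_, ?_, r, rfl, ?_⟩
    · exact Subtype.coe_lt_coe.1 (lt_of_lt_of_le hr2 (hπ1 r))
    · exact lt_of_le_of_lt (hπ2 r s1 hrs1) hs1
    · exact G.adj_symm hr1
  · intro F' hF'
    obtain ⟨w, hw1, hw2⟩ := exists_fresh hW' hF'
    obtain ⟨a, ha1, ha2⟩ := exists_fresh (h.exit w hw1.1) hF'
    refine ⟨w, hw2, ?_, a, ha1.2, ha2, ha1.1⟩
    intro s'
    obtain ⟨r, hr1, hr2⟩ := hunb w hw1 s'
    refine ⟨π r, ?_, r, rfl, ?_⟩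
    · exact Subtype.coe_lt_coe.1 (lt_of_lt_of_le hr2 (hπ1 r))
    · exact G.adj_symm hr1

end Pool.Agent.TH770.PP
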