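import Mathlib
import Pool.Agent.TH770.PP.J_J1
import Pool.Agent.TH770.PP.J_J2
import Pool.Agent.TH770.PP.J_J3
import Pool.Agent.TH770.PP.J_J4
import Pool.Agent.TH770.PP.Defs

set_option autoImplicit false

namespace Pool.Agent.TH770.PP

open Cardinal Ordinal Set

universe u

variable {V : Type u}

/-- A path covering `Z`, avoiding `F`, with both ends in `B`. -/
private def CovAny (G : SimpleGraph V) (B : Set V) (θ : Cardinal.{u}) (Z F : Set V) : Prop :=
  ∃ P a b, ClosedPath G P a b ∧ a ∈ B ∧ b ∈ B ∧ Z ⊆ P ∧ Disjoint P F ∧ #P < θ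

/-- Prescribing the first vertex. -/
private theorem cov_start {G : SimpleGraph V} {B W : Set V} {θ : Cardinal.{u}}
    (h : Rich G B W θ) (Z F : Set V) (hF : #F < θ) (a : V) (ha : a ∈ B) (haF : a ∉ F)
    (hcov : CovAny G B θ (Z \ {a}) (F ∪ {a})) :
    ∃ P b, ClosedPath G P a b ∧ b ∈ B ∧ Z ⊆ P ∧ Disjoint P F ∧ #P < θ := by
  have h0 : ℵ₀ ≤ θ := h.unc.le
  obtain ⟨P, a', b', hP, ha', hb', hZP, hPF, hPθ⟩ := hcov
  have haP : a ∉ P := fun h' => disjoint_left.mp hPF h' (Or.inr rfl)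
  have haa' : a ≠ a' := fun h' => haP (h' ▸ hP.left_mem)
  obtain ⟨w, ⟨hw1, hw2⟩, hw3⟩ := exists_fresh (h.common a ha a' ha' haa')
    (union_lt h0 (union_lt h0 hF hPθ) (singleton_lt h0 a))
  rw [SimpleGraph.mem_neighborSet] at hw1 hw2
  simp only [mem_union, mem_singleton_iff, not_or] at hw3
  obtain ⟨⟨hwF, hwP⟩, hwa⟩ := hw3
  have h1 : ClosedPath G ({w} ∪ P) w b' :=
    (ClosedPath.single G w).append hP (disjoint_singleton_left.mpr hwP) hw2.symm
  have h2 : ClosedPath G ({a} ∪ ({w} ∪ P)) a b' := by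
    refine (ClosedPath.single G a).append h1 (disjoint_singleton_left.mpr ?_) hw1
    rintro (h' | h')
    · exact hwa h'.symm
    · exact haP h'
  refine ⟨_, b', h2, hb', ?_, ?_, ?_⟩
  · intro z hz
    by_cases hza : z = a
    · exact Or.inl hza
    · exact Or.inr (Or.inr (hZP ⟨hz, hza⟩))
  · rw [disjoint_union_left, disjoint_union_left]
    refine ⟨disjoint_singleton_left.mpr haF, disjoint_singleton_left.mpr hwF, ?_⟩
    exact hPF.mono_right subset_union_left
  · exact union_lt h0 (singleton_lt h0 a) (union_lt h0 (singleton_lt h0 w) hPθ)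

/-- Prescribing the last vertex as well. -/
private theorem cov_end {G : SimpleGraph V} {B W : Set V} {θ : Cardinal.{u}}
    (h : Rich G B W θ) (Z F : Set V) (hF : #F < θ) (a b : V) (hb : b ∈ B) (hbF : b ∉ F)
    (hcov : ∃ P b', ClosedPath G P a b' ∧ b' ∈ B ∧ (Z \ {b}) ⊆ P ∧ Disjoint P (F ∪ {b}) ∧
      #P < θ) :
    ∃ P, ClosedPath G P a b ∧ Z ⊆ P ∧ Disjoint P F ∧ #P < θ := by
  have h0 : ℵ₀ ≤ θ := h.unc.le
  obtain ⟨P, b', hP, hb', hZP, hPF, hPθ⟩ := hcov
  have hbP : b ∉ P := fun h' => disjoint_left.mp hPF h' (Or.inr rfl)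
  have hbb' : b' ≠ b := fun h' => hbP (h' ▸ hP.right_mem)
  obtain ⟨w, ⟨hw1, hw2⟩, hw3⟩ := exists_fresh (h.common b' hb' b hb hbb')
    (union_lt h0 (union_lt h0 hF hPθ) (singleton_lt h0 b))
  rw [SimpleGraph.mem_neighborSet] at hw1 hw2
  simp only [mem_union, mem_singleton_iff, not_or] at hw3
  obtain ⟨⟨hwF, hwP⟩, hwb⟩ := hw3
  have h1 : ClosedPath G (P ∪ {w}) a w :=
    hP.append (ClosedPath.single G w) (disjoint_singleton_right.mpr hwP) hw1
  have h2 : ClosedPath G ((P ∪ {w}) ∪ {b}) a b := by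
    refine h1.append (ClosedPath.single G b) (disjoint_singleton_right.mpr ?_) hw2.symm
    rintro (h' | h')
    · exact hbP h'
    · exact hwb h'.symm
  refine ⟨_, h2, ?_, ?_, ?_⟩
  · intro z hz
    by_cases hzb : z = b
    · exact Or.inr hzb
    · exact Or.inl (Or.inl (hZP ⟨hz, hzb⟩))
  · rw [disjoint_union_left, disjoint_union_left]
    refine ⟨⟨hPF.mono_right subset_union_left, disjoint_singleton_left.mpr hwF⟩,
      disjoint_singleton_left.mpr hbF⟩
  · exact union_lt h0 (union_lt h0 hPθ (singleton_lt h0 w)) (singleton_lt h0 b)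

/-- Finite sets. -/
private theorem cov_fin {G : SimpleGraph V} {B W : Set V} {θ : Cardinal.{u}}
    (h : Rich G B W θ) (Z : Set V) (hZ : Z.Finite) :
    Z ⊆ B → ∀ F : Set V, #F < θ → Disjoint Z F → CovAny G B θ Z F := by
  have h0 : ℵ₀ ≤ θ := h.unc.le
  induction Z, hZ using Set.Finite.induction_on with
  | empty =>
    intro _ F hF _
    obtain ⟨b0, hb0, hb0F⟩ := exists_fresh h.big hF
    exact ⟨{b0}, b0, b0, ClosedPath.single G b0, hb0, hb0, empty_subset _,
      disjoint_singleton_left.mpr hb0F, singleton_lt h0 b0⟩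
  | @insert z Z hz hZf ih =>
    intro hZB F hF hZF
    have hzB : z ∈ B := hZB (mem_insert _ _)
    have hzF : z ∉ F := disjoint_left.mp hZF (mem_insert _ _)
    obtain ⟨P, a, b, hP, ha, hb, hZP, hPF, hPθ⟩ := ih ((subset_insert _ _).trans hZB) (F ∪ {z})
      (union_lt h0 hF (singleton_lt h0 z)) (by
        rw [disjoint_union_right]
        exact ⟨hZF.mono_left (subset_insert _ _), disjoint_singleton_right.mpr hz⟩)
    obtain ⟨P', hP', hZP', hPF', hPθ'⟩ := cov_end h (insert z Z) F hF a z hzB hzF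
      ⟨P, b, hP, hb, by
        rintro y ⟨hy | hy, hy2⟩
        · exact absurd hy hy2
        · exact hZP hy, hPF, hPθ⟩
    exact ⟨P', a, z, hP', ha, hzB, hZP', hPF', hPθ'⟩

private theorem iic_lt {R : Type u} [LinearOrder R] (hR : ℵ₀ ≤ #R)
    (hRi : ∀ r : R, #(Iio r) < #R) (r : R) : #(Iic r) < #R := by
  have h1 : Iic r = Iio r ∪ {r} := by
    ext x
    simp [le_iff_lt_or_eq, or_comm]
  rw [h1]
  exact union_lt hR (hRi r) (singleton_lt hR r)

/-- The general case. -/
private theorem cov_any {G : SimpleGraph V} {B W : Set V} {θ : Cardinal.{u}}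
    (h : Rich G B W θ) (ν : Cardinal.{u}) : ν < θ → ∀ Z : Set V, #Z ≤ ν → Z ⊆ B →
      ∀ F : Set V, #F < θ → Disjoint Z F → CovAny G B θ Z F := by
  have h0 : ℵ₀ ≤ θ := h.unc.le
  induction ν using WellFoundedLT.induction with
  | ind ν ih =>
  intro hνθ Z hZν hZB F hF hZF
  by_cases hfin : ν < ℵ₀
  · have hZf : Z.Finite := Cardinal.lt_aleph0_iff_set_finite.mp (hZν.trans_lt hfin)
    exact cov_fin h Z hZf hZB F hF hZF
  push Not at hfin
  obtain ⟨R, iR1, iR2, f, hR, hRν, hRi, hf⟩ := decomp hfin Z hZν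
  have hRθ : #R < θ := hRν.trans_lt hνθ
  have hZθ : #Z < θ := hZν.trans_lt hνθ
  obtain ⟨α, S, π, hα, hαB, hπ1, hπ2, hlim, htop⟩ := rich_index h hR hRθ hRi (F ∪ Z)
    (union_lt h0 hF hZθ)
  have hSθ : #S < θ := (Cardinal.mk_set_le S).trans_lt hRθ
  have hKθ : #(WithTop S) < θ := by
    have : #(WithTop S) = #S + 1 := Cardinal.mk_option
    rw [this]
    exact Cardinal.add_lt_of_lt h0 hSθ (Cardinal.one_lt_aleph0.trans_le h0)
  have hαθ : #(range α) < θ := Cardinal.mk_range_le.trans_lt hRθ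
  -- the sets to be covered by the pieces
  let C : WithTop S → Set V := fun k => {v | ∃ s : S, k = (s : WithTop S) ∧
    ((∃ z : Z, (z : V) = v ∧ π (f z) = s) ∨ (∃ r, α r = v ∧ π r = s))}
  have hCsub : ∀ k, C k ⊆ Z ∪ range α := by
    rintro k v ⟨s, -, (⟨z, rfl, -⟩ | ⟨r, rfl, -⟩)⟩
    · exact Or.inl z.2
    · exact Or.inr ⟨r, rfl⟩
  have hCB : ∀ k, C k ⊆ B := by
    intro k v hv
    rcases hCsub k hv with hv | ⟨r, rfl⟩
    · exact hZB hv
    · exact (hαB r).1
  have hCθ : ∀ k, #(C k) < θ := fun k =>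
    (Cardinal.mk_le_mk_of_subset (hCsub k)).trans_lt (union_lt h0 hZθ hαθ)
  have hCν : ∀ k, #(C k) < ν := by
    intro k
    induction k using WithTop.recTopCoe with
    | top =>
      have : C ⊤ = ∅ := by
        ext v
        simp [C]
      rw [this, Cardinal.mk_eq_zero]
      exact Cardinal.aleph0_pos.trans_le hfin
    | coe s =>
      have h1 : C s ⊆ ((↑) '' {z : Z | f z ≤ s}) ∪ α '' (Iic (s : R)) := by
        rintro v ⟨s', hs', (⟨z, rfl, hz⟩ | ⟨r, rfl, hr⟩)⟩
        · refine Or.inl ⟨z, ?_, rfl⟩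
          have : s = s' := WithTop.coe_injective hs'
          subst this
          show f z ≤ s
          rw [← hz]
          exact hπ1 _
        · refine Or.inr ⟨r, ?_, rfl⟩
          have : s = s' := WithTop.coe_injective hs'
          subst this
          show r ≤ s
          rw [← hr]
          exact hπ1 _
      refine (Cardinal.mk_le_mk_of_subset h1).trans_lt (union_lt hfin ?_ ?_)
      · exact Cardinal.mk_image_le.trans_lt (hf s)
      · exact Cardinal.mk_image_le.trans_lt ((iic_lt hR.aleph0_le hRi s).trans_le hRν)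
  obtain ⟨b0, hb0, hb0F⟩ := exists_fresh h.big (union_lt h0 (union_lt h0 hF hZθ) hαθ)
  simp only [mem_union, not_or] at hb0F
  obtain ⟨⟨hb0F, hb0Z⟩, hb0α⟩ := hb0F
  obtain ⟨d, hOk, hCd, hdθ, hdF, hdB, hdd, hde, hd0⟩ := thread (G := G) (B := B) (θ := θ) h.reg
    h.big h.common (S := WithTop S) hKθ (D := Set V × V × V) (fun d => d.1) (fun d => d.2.1)
    (fun d => d.2.2) (fun _ d => ClosedPath G d.1 d.2.1 d.2.2) C
    (by
      intro k k' hkk'
      rw [disjoint_left]
      rintro v ⟨s, rfl, h1⟩ ⟨s', rfl, h2⟩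
      apply hkk'
      rcases h1 with (⟨z, hz, hzs⟩ | ⟨r, hr, hrs⟩) <;> rcases h2 with (⟨z', hz', hzs'⟩ | ⟨r', hr', hrs'⟩)
      · have : z = z' := Subtype.ext (hz.trans hz'.symm)
        subst this
        rw [← hzs, ← hzs']
      · exact absurd (Or.inr (by rw [hr', ← hz]; exact z.2)) (hαB r').2
      · exact absurd (Or.inr (by rw [hr, ← hz']; exact z'.2)) (hαB r).2
      · have : r = r' := hα (hr.trans hr'.symm)
        subst this
        rw [← hrs, ← hrs'])
    ((Cardinal.mk_le_mk_of_subset (iUnion_subset hCsub)).trans_lt (union_lt h0 hZθ hαθ))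
    (F ∪ {b0}) (union_lt h0 hF (singleton_lt h0 b0))
    (by
      intro k
      rw [disjoint_union_right, disjoint_singleton_right]
      constructor
      · rw [disjoint_left]
        intro v hv hvF
        rcases hCsub k hv with hv | ⟨r, rfl⟩
        · exact disjoint_left.mp hZF hv hvF
        · exact (hαB r).2 (Or.inl hvF)
      · intro hv
        rcases hCsub k hv with hv | hv
        · exact hb0Z hv
        · exact hb0α hv)
    b0 hb0 (Or.inr rfl)
    (by
      intro k
      induction k using WithTop.recTopCoe with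
      | top =>
        intro _ _ X hX
        obtain ⟨w, hw, hw2, hw3⟩ := htop X hX
        refine ⟨w, hw, ?_, hw3⟩
        intro k' hk'
        obtain ⟨s', rfl⟩ := WithTop.ne_top_iff_exists.mp hk'.ne
        obtain ⟨s'', hs'', r, hr, hrw⟩ := hw2 s'
        exact ⟨s'', WithTop.coe_lt_coe.mpr hs'', WithTop.coe_lt_top _, α r,
          ⟨s'', rfl, Or.inr ⟨r, rfl, hr⟩⟩, hrw⟩
      | coe s =>
        intro h1 h2 X hX
        obtain ⟨w, hw, hw2, hw3⟩ := hlim s
          (by
            obtain ⟨k', hk'⟩ := h1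
            obtain ⟨s', rfl⟩ := WithTop.ne_top_iff_exists.mp (hk'.trans (WithTop.coe_lt_top s)).ne
            exact ⟨s', WithTop.coe_lt_coe.mp hk'⟩)
          (by
            intro s' hs'
            obtain ⟨k'', hk1, hk2⟩ := h2 s' (WithTop.coe_lt_coe.mpr hs')
            obtain ⟨s'', rfl⟩ := WithTop.ne_top_iff_exists.mp (hk2.trans (WithTop.coe_lt_top s)).ne
            exact ⟨s'', WithTop.coe_lt_coe.mp hk1, WithTop.coe_lt_coe.mp hk2⟩) X hX
        refine ⟨w, hw, ?_, hw3⟩
        intro k' hk'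
        obtain ⟨s', rfl⟩ := WithTop.ne_top_iff_exists.mp (hk'.trans (WithTop.coe_lt_top s)).ne
        obtain ⟨s'', hs1, hs2, r, hr, hrw⟩ := hw2 s' (WithTop.coe_lt_coe.mp hk')
        exact ⟨s'', WithTop.coe_lt_coe.mpr hs1, WithTop.coe_lt_coe.mpr hs2, α r,
          ⟨s'', rfl, Or.inr ⟨r, rfl, hr⟩⟩, hrw⟩)
    (by
      intro k U hU hCU E hE
      obtain ⟨w, hw, hEw, a, haB, ha, hwa⟩ := hE (U ∪ C k) (union_lt h0 hU (hCθ k))
      simp only [mem_union, not_or] at hw ha
      have hUw : #(U ∪ {w} : Set V) < θ := union_lt h0 hU (singleton_lt h0 w)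
      have haUw : a ∉ U ∪ {w} := by
        rintro (h' | h')
        · exact ha.1 h'
        · exact hwa.ne (mem_singleton_iff.mp h').symm
      obtain ⟨P, b, hP, hb, hCP, hPU, hPθ⟩ := cov_start h (C k) (U ∪ {w}) hUw a haB haUw
        (ih #(C k) (hCν k) ((hCν k).trans hνθ) (C k \ {a})
          (Cardinal.mk_le_mk_of_subset sdiff_subset) (sdiff_subset.trans (hCB k)) _
          (union_lt h0 hUw (singleton_lt h0 a)) (by
            rw [disjoint_union_right, disjoint_union_right]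
            exact ⟨⟨hCU.mono_left sdiff_subset, disjoint_singleton_right.mpr (fun h' => hw.2 h'.1)⟩,
              disjoint_singleton_right.mpr (fun h' => h'.2 rfl)⟩))
      rw [disjoint_union_right, disjoint_singleton_right] at hPU
      refine ⟨({w} ∪ P, w, b), ?_, hCP.trans subset_union_right, ?_, ?_, Or.inr hP.right_mem, hb,
        hEw⟩
      · exact (ClosedPath.single G w).append hP (disjoint_singleton_left.mpr hPU.2) hwa
      · exact union_lt h0 (singleton_lt h0 w) hPθ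
      · rw [disjoint_union_left]
        exact ⟨disjoint_singleton_left.mpr hw.1, hPU.1⟩)
  have hne : Nonempty (WithTop S) := ⟨⊤⟩
  obtain ⟨k0, hk0⟩ : ∃ k0 : WithTop S, ∀ k, k0 ≤ k := by
    have hwf : WellFounded ((· < ·) : WithTop S → WithTop S → Prop) := wellFounded_lt
    exact ⟨hwf.min univ ⟨⊤, trivial⟩, fun k => not_lt.mp (hwf.not_lt_min univ (mem_univ k))⟩
  have hmain : ClosedPath G (⋃ k, (d k).1) (d k0).2.1 (d ⊤).2.2 :=
    ClosedPath.concat (fun k => (d k).1) (fun k => (d k).2.1) (fun k => (d k).2.2) hOk hdd hde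
      k0 ⊤ hk0 (fun k => le_top)
  have hb0d : b0 ∉ ⋃ k, (d k).1 := by
    intro h'
    obtain ⟨k, hk⟩ := mem_iUnion.mp h'
    exact disjoint_left.mp (hdF k) hk (Or.inr rfl)
  refine ⟨{b0} ∪ ⋃ k, (d k).1, b0, (d ⊤).2.2, ?_, hb0, hdB ⊤, ?_, ?_, ?_⟩
  · exact (ClosedPath.single G b0).append hmain (disjoint_singleton_left.mpr hb0d) (hd0 k0 hk0)
  · intro z hz
    exact Or.inr (mem_iUnion.mpr ⟨(π (f ⟨z, hz⟩) : S), hCd _ ⟨_, rfl, Or.inl ⟨⟨z, hz⟩, rfl, rfl⟩⟩⟩)
  · rw [disjoint_union_left, disjoint_iUnion_left]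
    exact ⟨disjoint_singleton_left.mpr hb0F, fun k => (hdF k).mono_right subset_union_left⟩
  · exact union_lt h0 (singleton_lt h0 b0)
      ((Cardinal.card_iUnion_lt_iff_forall_of_isRegular h.reg hKθ).mpr hdθ)

/-- Covering lemma: a small subset of a rich block is covered by a path between two given
vertices of the block, avoiding a given small set. -/
theorem cov_between {G : SimpleGraph V} {B W : Set V} {θ : Cardinal.{u}} (h : Rich G B W θ)
    (Z : Set V) (hZB : Z ⊆ B) (hZ : #Z < θ) (F : Set V) (hF : #F < θ) (hZF : Disjoint Z F)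
    (a b : V) (ha : a ∈ B) (hb : b ∈ B) (hab : a ≠ b) (haF : a ∉ F) (hbF : b ∉ F) :
    ∃ P, ClosedPath G P a b ∧ Z ⊆ P ∧ Disjoint P F ∧ #P < θ := by
  have h0 : ℵ₀ ≤ θ := h.unc.le
  refine cov_end h Z F hF a b hb hbF ?_
  have hFb : #(F ∪ {b} : Set V) < θ := union_lt h0 hF (singleton_lt h0 b)
  refine cov_start h (Z \ {b}) (F ∪ {b}) hFb a ha ?_ ?_
  · rintro (h' | h')
    · exact haF h'
    · exact hab h'
  · refine cov_any h #Z hZ _ (Cardinal.mk_le_mk_of_subset (sdiff_subset.trans sdiff_subset))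
      (sdiff_subset.trans (sdiff_subset.trans hZB)) _ (union_lt h0 hFb (singleton_lt h0 a)) ?_
    rw [disjoint_union_right, disjoint_union_right]
    exact ⟨⟨hZF.mono_left (sdiff_subset.trans sdiff_subset),
      disjoint_singleton_right.mpr (fun h' => h'.1.2 rfl)⟩,
      disjoint_singleton_right.mpr (fun h' => h'.2 rfl)⟩

end Pool.Agent.TH770.PP
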