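import Mathlib
import Pool.Agent.TH770.PP.J_J1
import Pool.Agent.TH770.PP.J_J2
import Pool.Agent.TH770.PP.J_J3
import Pool.Agent.TH770.PP.J_J4
import Pool.Agent.TH770.PP.J_J7
import Pool.Agent.TH770.PP.Defs

set_option autoImplicit false

namespace Pool.Agent.TH770.PP

open Cardinal Ordinal Set

universe u

variable {V : Type u}

structure J8Piece (V : Type u) where
  X : Set V
  Y : Set V
  a : V
  x : V
  c : V
  c' : V
  y : V
  b : V

theorem J8.notMem_union {X Y : Set V} {z : V} (h : z ∉ X ∪ Y) : z ∉ X ∧ z ∉ Y :=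
  ⟨fun h' => h (Or.inl h'), fun h' => h (Or.inr h')⟩

/-- Provider for the first pass. -/
theorem J8.provide {G : SimpleGraph V} {B W : Set V} {θ : Cardinal.{u}} (h : Rich G B W θ)
    (B' W' : Set V) (hW' : θ ≤ #W')
    (h1 : ∀ w ∈ W', θ ≤ #(G.neighborSet w ∩ B : Set V))
    (h2 : ∀ w ∈ W', θ ≤ #(G.neighborSet w ∩ B' : Set V))
    (Cs : Set V) (hCs : #Cs < θ) (hCB : Cs ⊆ B) (U : Set V) (hU : #U < θ)
    (hCU : Disjoint Cs U) (E : V → Prop) (hE : Avail G B θ E) :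
    ∃ d : J8Piece V, (ClosedPath G d.X d.a d.x ∧ ClosedPath G d.Y d.y d.b ∧
      (d.c ∈ B' ∧ d.c' ∈ B' ∧ d.c ≠ d.c' ∧ G.Adj d.x d.c ∧ G.Adj d.c' d.y) ∧
      (Disjoint d.X d.Y ∧ Disjoint (d.X ∪ d.Y) {d.c, d.c'}) ∧ (#d.X < θ ∧ #d.Y < θ)) ∧
      Cs ⊆ d.X ∪ d.Y ∪ {d.c, d.c'} ∧ #(d.X ∪ d.Y ∪ {d.c, d.c'} : Set V) < θ ∧
      Disjoint (d.X ∪ d.Y ∪ {d.c, d.c'}) U ∧ d.b ∈ d.X ∪ d.Y ∪ {d.c, d.c'} ∧ d.b ∈ B ∧
      E d.a := by
  have hω : ℵ₀ ≤ θ := h.reg.aleph0_le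
  have hs : ∀ z : V, #({z} : Set V) < θ := singleton_lt hω
  obtain ⟨w, hw, hEw, a0, ha0B, ha0, hwa⟩ := hE (U ∪ Cs) (union_lt hω hU hCs)
  obtain ⟨hwU, hwC⟩ := J8.notMem_union hw
  obtain ⟨haU, haC⟩ := J8.notMem_union ha0
  have hwa' : w ≠ a0 := G.ne_of_adj hwa
  have hF2 : #(((U ∪ Cs) ∪ {w}) ∪ {a0} : Set V) < θ :=
    union_lt hω (union_lt hω (union_lt hω hU hCs) (hs w)) (hs a0)
  obtain ⟨u, huW, hu⟩ := exists_fresh hW' hF2
  obtain ⟨hu1, hua⟩ := J8.notMem_union hu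
  obtain ⟨hu2, huw⟩ := J8.notMem_union hu1
  obtain ⟨huU, huC⟩ := J8.notMem_union hu2
  rw [mem_singleton_iff] at hua huw
  have hF3 : #((((U ∪ Cs) ∪ {w}) ∪ {a0}) ∪ {u} : Set V) < θ := union_lt hω hF2 (hs u)
  obtain ⟨b1, ⟨hub1, hb1B⟩, hb1⟩ := exists_fresh (h1 u huW) hF3
  rw [SimpleGraph.mem_neighborSet] at hub1
  obtain ⟨hb1', hb1u⟩ := J8.notMem_union hb1
  obtain ⟨hb1'', hb1a⟩ := J8.notMem_union hb1'
  obtain ⟨hb1''', hb1w⟩ := J8.notMem_union hb1''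
  obtain ⟨hb1U, hb1C⟩ := J8.notMem_union hb1'''
  rw [mem_singleton_iff] at hb1u hb1a hb1w
  have hFc : #((U ∪ {w}) ∪ {u} : Set V) < θ := union_lt hω (union_lt hω hU (hs w)) (hs u)
  have hdis : Disjoint Cs ((U ∪ {w}) ∪ {u}) := by
    rw [disjoint_union_right, disjoint_union_right]
    exact ⟨⟨hCU, disjoint_singleton_right.mpr hwC⟩, disjoint_singleton_right.mpr huC⟩
  have haF : a0 ∉ (U ∪ {w}) ∪ {u} := by
    rintro ((h | h) | h)
    · exact haU h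
    · exact hwa' (mem_singleton_iff.mp h).symm
    · exact hua (mem_singleton_iff.mp h).symm
  have hbF : b1 ∉ (U ∪ {w}) ∪ {u} := by
    rintro ((h | h) | h)
    · exact hb1U h
    · exact hb1w (mem_singleton_iff.mp h)
    · exact hb1u (mem_singleton_iff.mp h)
  obtain ⟨P, hP, hCP, hPd, hPθ⟩ := cov_between h Cs hCB hCs _ hFc hdis a0 b1 ha0B hb1B
    (fun e => hb1a e.symm) haF hbF
  rw [disjoint_union_right, disjoint_union_right] at hPd
  obtain ⟨⟨hPU, hPw⟩, hPu⟩ := hPd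
  rw [disjoint_singleton_right] at hPw hPu
  -- the first path
  have hX1 : ClosedPath G ({w} ∪ P) w b1 :=
    ClosedPath.append (ClosedPath.single G w) hP (disjoint_singleton_left.mpr hPw) hwa
  have hXd : Disjoint ({w} ∪ P) {u} := by
    rw [disjoint_union_left]
    refine ⟨?_, disjoint_singleton_right.mpr hPu⟩
    rw [disjoint_singleton]
    exact fun e => huw e.symm
  have hX : ClosedPath G (({w} ∪ P) ∪ {u}) w u :=
    ClosedPath.append hX1 (ClosedPath.single G u) hXd hub1.symm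
  have hXθ : #(({w} ∪ P) ∪ {u} : Set V) < θ := union_lt hω (union_lt hω (hs w) hPθ) (hs u)
  have hXU : Disjoint (({w} ∪ P) ∪ {u}) U := by
    rw [disjoint_union_left, disjoint_union_left]
    exact ⟨⟨disjoint_singleton_left.mpr hwU, hPU⟩, disjoint_singleton_left.mpr huU⟩
  generalize hXdef : ({w} ∪ P) ∪ {u} = X at hX hXθ hXU
  have hCX : Cs ⊆ X := by
    rw [← hXdef]
    exact fun z hz => Or.inl (Or.inr (hCP hz))
  -- the hole
  have hF6 : #(U ∪ X : Set V) < θ := union_lt hω hU hXθ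
  obtain ⟨c, ⟨huc, hcB⟩, hc⟩ := exists_fresh (h2 u huW) hF6
  rw [SimpleGraph.mem_neighborSet] at huc
  obtain ⟨hcU, hcX⟩ := J8.notMem_union hc
  have hF7 : #((U ∪ X) ∪ {c} : Set V) < θ := union_lt hω hF6 (hs c)
  obtain ⟨y, hyW, hy⟩ := exists_fresh hW' hF7
  obtain ⟨hy1, hyc⟩ := J8.notMem_union hy
  obtain ⟨hyU, hyX⟩ := J8.notMem_union hy1
  rw [mem_singleton_iff] at hyc
  have hF8 : #(((U ∪ X) ∪ {c}) ∪ {y} : Set V) < θ := union_lt hω hF7 (hs y)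
  obtain ⟨c', ⟨hyc', hc'B⟩, hc'⟩ := exists_fresh (h2 y hyW) hF8
  rw [SimpleGraph.mem_neighborSet] at hyc'
  obtain ⟨hc'1, hc'y⟩ := J8.notMem_union hc'
  obtain ⟨hc'2, hc'c⟩ := J8.notMem_union hc'1
  obtain ⟨hc'U, hc'X⟩ := J8.notMem_union hc'2
  rw [mem_singleton_iff] at hc'y hc'c
  have hF9 : #((((U ∪ X) ∪ {c}) ∪ {y}) ∪ {c'} : Set V) < θ := union_lt hω hF8 (hs c')
  obtain ⟨b, ⟨hyb, hbB⟩, hb⟩ := exists_fresh (h1 y hyW) hF9
  rw [SimpleGraph.mem_neighborSet] at hyb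
  obtain ⟨hb1', hbc'⟩ := J8.notMem_union hb
  obtain ⟨hb2, hby⟩ := J8.notMem_union hb1'
  obtain ⟨hb3, hbc⟩ := J8.notMem_union hb2
  obtain ⟨hbU, hbX⟩ := J8.notMem_union hb3
  rw [mem_singleton_iff] at hbc' hby hbc
  have hY : ClosedPath G ({y} ∪ {b}) y b :=
    ClosedPath.append (ClosedPath.single G y) (ClosedPath.single G b)
      (disjoint_singleton.mpr fun e => hby e.symm) hyb
  have hYθ : #({y} ∪ {b} : Set V) < θ := union_lt hω (hs y) (hs b)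
  have hXY : Disjoint X ({y} ∪ {b}) := by
    rw [disjoint_union_right]
    exact ⟨disjoint_singleton_right.mpr hyX, disjoint_singleton_right.mpr hbX⟩
  have hccd : Disjoint (X ∪ ({y} ∪ {b})) {c, c'} := by
    rw [Set.disjoint_right]
    intro z hz
    rw [mem_insert_iff, mem_singleton_iff] at hz
    rintro (h | h | h)
    · rcases hz with rfl | rfl
      · exact hcX h
      · exact hc'X h
    · rw [mem_singleton_iff] at h
      rcases hz with rfl | rfl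
      · exact hyc h.symm
      · exact hc'y h
    · rw [mem_singleton_iff] at h
      rcases hz with rfl | rfl
      · exact hbc h.symm
      · exact hbc' h.symm
  have hpair : #({c, c'} : Set V) < θ := by
    rw [Set.insert_eq]
    exact union_lt hω (hs c) (hs c')
  refine ⟨⟨X, {y} ∪ {b}, w, u, c, c', y, b⟩, ⟨hX, hY, ⟨hcB, hc'B, fun e => hc'c e.symm, huc,
    hyc'.symm⟩, ⟨hXY, hccd⟩, hXθ, hYθ⟩, fun z hz => Or.inl (Or.inl (hCX hz)),
    union_lt hω (union_lt hω hXθ hYθ) hpair, ?_, Or.inl (Or.inr (Or.inr rfl)), hbB, hEw⟩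
  rw [disjoint_union_left, disjoint_union_left, disjoint_union_left]
  refine ⟨⟨hXU, disjoint_singleton_left.mpr hyU, disjoint_singleton_left.mpr hbU⟩, ?_⟩
  rw [Set.disjoint_left]
  intro z hz
  rw [mem_insert_iff, mem_singleton_iff] at hz
  rcases hz with rfl | rfl
  · exact hcU
  · exact hc'U

/-- First pass: a thread through the base block `B` whose pieces have holes in the blocks
`B' s`; in the hole of the piece `s` one has to fill in a path from `c s` to `c' s`. -/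
theorem pass1 {G : SimpleGraph V} {B W : Set V} {θ : Cardinal.{u}} (h : Rich G B W θ)
    {R : Type u} [LinearOrder R] [WellFoundedLT R] (hR : (#R).IsRegular) (hRθ : #R < θ)
    (hRi : ∀ r : R, #(Iio r) < #R) (B' W' : R → Set V) (hW' : ∀ r, θ ≤ #(W' r))
    (h1 : ∀ r, ∀ w ∈ W' r, θ ≤ #(G.neighborSet w ∩ B : Set V))
    (h2 : ∀ r, ∀ w ∈ W' r, θ ≤ #(G.neighborSet w ∩ B' r : Set V)) :
    ∃ (S : Set R) (X Y : S → Set V) (a x c c' y b : S → V), (∀ r, ∃ s ∈ S, r ≤ s) ∧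
      (∀ s, ClosedPath G (X s) (a s) (x s)) ∧ (∀ s, ClosedPath G (Y s) (y s) (b s)) ∧
      (∀ s : S, c s ∈ B' s ∧ c' s ∈ B' s ∧ c s ≠ c' s ∧ G.Adj (x s) (c s) ∧
        G.Adj (c' s) (y s)) ∧
      (∀ s, Disjoint (X s) (Y s) ∧ Disjoint (X s ∪ Y s) {c s, c' s}) ∧
      (∀ s, #(X s) < θ ∧ #(Y s) < θ) ∧
      (∀ s s', s ≠ s' →
        Disjoint (X s ∪ Y s ∪ {c s, c' s}) (X s' ∪ Y s' ∪ {c s', c' s'})) ∧
      (∀ s' s, s' < s → (∃ s'', s' < s'' ∧ s'' < s ∧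
        ∃ z ∈ X s'' ∪ Y s'' ∪ {c s'', c' s''}, G.Adj z (a s)) ∨ G.Adj (b s') (a s)) := by
  classical
  have hω : ℵ₀ ≤ θ := h.reg.aleph0_le
  obtain ⟨α, S, π, hα, hαB, hπ1, hπ2, hlim, hlast⟩ :=
    rich_index h hR hRθ hRi (∅ : Set V) (by rw [Cardinal.mk_eq_zero]; exact h.reg.pos)
  have hrange : #(range α) < θ := mk_range_le.trans_lt hRθ
  obtain ⟨b0, hb0, hb0'⟩ := exists_fresh h.big hrange
  let C : S → Set V := fun s => α '' {r | π r = s}
  have hCr : ∀ s, C s ⊆ range α := fun s => image_subset_range _ _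
  have hCθ : ∀ s, #(C s) < θ := fun s => (mk_le_mk_of_subset (hCr s)).trans_lt hrange
  have hCB : ∀ s, C s ⊆ B := by
    rintro s z ⟨r, -, rfl⟩
    exact (hαB r).1
  have hSθ : #S < θ := (mk_set_le S).trans_lt hRθ
  have hth := thread (G := G) (B := B) (θ := θ) h.reg h.big h.common (S := S) hSθ
    (D := J8Piece V) (fun d => d.X ∪ d.Y ∪ {d.c, d.c'}) J8Piece.a J8Piece.b
    (fun s d => ClosedPath G d.X d.a d.x ∧ ClosedPath G d.Y d.y d.b ∧
      (d.c ∈ B' s ∧ d.c' ∈ B' s ∧ d.c ≠ d.c' ∧ G.Adj d.x d.c ∧ G.Adj d.c' d.y) ∧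
      (Disjoint d.X d.Y ∧ Disjoint (d.X ∪ d.Y) {d.c, d.c'}) ∧ (#d.X < θ ∧ #d.Y < θ))
    C ?_ ?_ {b0} (singleton_lt hω b0) ?_ b0 hb0 (mem_singleton b0) ?_ ?_
  · obtain ⟨d, hd1, -, -, -, -, hd6, hd7, -⟩ := hth
    refine ⟨S, fun s => (d s).X, fun s => (d s).Y, fun s => (d s).a, fun s => (d s).x,
      fun s => (d s).c, fun s => (d s).c', fun s => (d s).y, fun s => (d s).b, ?_,
      fun s => (hd1 s).1, fun s => (hd1 s).2.1, fun s => (hd1 s).2.2.1,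
      fun s => (hd1 s).2.2.2.1, fun s => (hd1 s).2.2.2.2, hd6, hd7⟩
    intro r
    exact ⟨π r, (π r).2, hπ1 r⟩
  · intro s s' hss
    rw [Set.disjoint_left]
    rintro z ⟨r, hr, rfl⟩ ⟨r', hr', he⟩
    rw [hα he] at hr'
    exact hss (hr.symm.trans hr')
  · exact (mk_le_mk_of_subset (iUnion_subset hCr)).trans_lt hrange
  · intro s
    rw [disjoint_singleton_right]
    exact fun hz => hb0' (hCr s hz)
  · intro s hs1 hs2 F hF
    obtain ⟨w, hw1, hw2, hw3⟩ := hlim s hs1 hs2 F hF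
    refine ⟨w, hw1, ?_, hw3⟩
    intro s' hs'
    obtain ⟨s'', h3, h4, r, h5, h6⟩ := hw2 s' hs'
    exact ⟨s'', h3, h4, α r, ⟨r, h5, rfl⟩, h6⟩
  · intro s U hU hCU E hE
    obtain ⟨d, hd1, hd2, hd3, hd4, hd5, hd6, hd7⟩ :=
      J8.provide h (B' s) (W' s) (hW' s) (h1 s) (h2 s) (C s) (hCθ s) (hCB s) U hU hCU E hE
    exact ⟨d, hd1, hd2, hd3, hd4, hd5, hd6, hd7⟩

/-- Second pass: filling the holes. -/
theorem pass2 {G : SimpleGraph V} {S : Type u} [LinearOrder S] [WellFoundedLT S]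
    (B W : S → Set V) (θ pr : S → Cardinal.{u}) (hrich : ∀ s, Rich G (B s) (W s) (θ s))
    (hmono : Monotone θ) (hS : ∀ s, #S < θ s) (hpr : ∀ s, pr s < θ s)
    (Y : Set V) (hY : ∀ s, #Y < θ s) (c c' : S → V)
    (hc : ∀ s, c s ∈ B s ∧ c' s ∈ B s ∧ c s ≠ c' s) (hcY : ∀ s, c s ∈ Y ∧ c' s ∈ Y)
    (hcd : ∀ s s', s ≠ s' → Disjoint ({c s, c' s} : Set V) {c s', c' s'}) :
    ∃ P : S → Set V, (∀ s, ClosedPath G (P s) (c s) (c' s)) ∧ (∀ s, pr s ≤ #(P s)) ∧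
      (∀ s, P s ∩ Y ⊆ {c s, c' s}) ∧ (∀ s s', s ≠ s' → Disjoint (P s) (P s')) := by
  classical
  have hw := wf_rec (K := S) (X := Set V)
    (fun s P x => ClosedPath G x (c s) (c' s) ∧ pr s ≤ #x ∧ x ∩ Y ⊆ {c s, c' s} ∧
      (∀ s' < s, Disjoint x (P s')) ∧ #x < θ s) ?_ ?_
  · obtain ⟨P, hP⟩ := hw
    refine ⟨P, fun s => (hP s).1, fun s => (hP s).2.1, fun s => (hP s).2.2.1, ?_⟩
    intro s s' hss
    rcases lt_or_gt_of_ne hss with h | h
    · exact ((hP s').2.2.2.1 s h).symm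
    · exact (hP s).2.2.2.1 s' h
  · rintro k g g' x h ⟨h1, h2, h3, h4, h5⟩
    exact ⟨h1, h2, h3, fun s' hs' => (h s' hs') ▸ h4 s' hs', h5⟩
  · intro s P hPs
    have hθ := (hrich s).reg
    have hω : ℵ₀ ≤ θ s := hθ.aleph0_le
    have hFo : #((Y \ {c s, c' s}) ∪ ⋃ s' : Iio s, P s' : Set V) < θ s := by
      apply union_lt hω
      · exact (mk_le_mk_of_subset sdiff_subset).trans_lt (hY s)
      · rw [card_iUnion_lt_iff_forall_of_isRegular hθ ((mk_set_le (Iio s)).trans_lt (hS s))]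
        intro s'
        exact (hPs s' s'.2).2.2.2.2.trans_le (hmono (le_of_lt s'.2))
    have hcs : ∀ z, z ∈ ({c s, c' s} : Set V) →
        z ∉ ((Y \ {c s, c' s}) ∪ ⋃ s' : Iio s, P s' : Set V) := by
      rintro z hz (h | h)
      · exact h.2 hz
      · obtain ⟨⟨s', hs'⟩, hzP⟩ := mem_iUnion.mp h
        have hzY : z ∈ Y := by
          rcases hz with rfl | hz
          · exact (hcY s).1
          · rw [mem_singleton_iff] at hz
            rw [hz]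
            exact (hcY s).2
        have h3 := (hPs s' hs').2.2.1 ⟨hzP, hzY⟩
        exact Set.disjoint_left.mp (hcd s s' (ne_of_gt hs')) hz h3
    obtain ⟨Z, hZ1, hZ2⟩ : ∃ Z, Z ⊆ B s \ ((Y \ {c s, c' s}) ∪ ⋃ s' : Iio s, P s' : Set V) ∧
        #Z = pr s := by
      apply le_mk_iff_exists_subset.mp
      by_contra hlt
      push Not at hlt
      have h3 : #(B s) < θ s := by
        refine (mk_le_mk_of_subset (t := (B s \ ((Y \ {c s, c' s}) ∪ ⋃ s' : Iio s, P s' :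
          Set V)) ∪ ((Y \ {c s, c' s}) ∪ ⋃ s' : Iio s, P s' : Set V)) ?_).trans_lt
            (union_lt hω (hlt.trans (hpr s)) hFo)
        intro z hz
        by_cases hz' : z ∈ ((Y \ {c s, c' s}) ∪ ⋃ s' : Iio s, P s' : Set V)
        · exact Or.inr hz'
        · exact Or.inl ⟨hz, hz'⟩
      exact absurd (hrich s).big (not_le.mpr h3)
    obtain ⟨Q, hQ1, hQ2, hQ3, hQ4⟩ := cov_between (hrich s) Z (fun z hz => (hZ1 hz).1)
      (hZ2 ▸ hpr s) _ hFo (Set.disjoint_left.mpr fun z hz => (hZ1 hz).2) (c s) (c' s)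
      (hc s).1 (hc s).2.1 (hc s).2.2 (hcs _ (Or.inl rfl)) (hcs _ (Or.inr rfl))
    refine ⟨Q, hQ1, hZ2 ▸ mk_le_mk_of_subset hQ2, ?_, ?_, hQ4⟩
    · rintro z ⟨hz1, hz2⟩
      by_contra hz3
      exact Set.disjoint_left.mp hQ3 hz1 (Or.inl ⟨hz2, hz3⟩)
    · intro s' hs'
      refine hQ3.mono_right fun z hz => Or.inr (mem_iUnion.mpr ⟨⟨s', hs'⟩, hz⟩)

end Pool.Agent.TH770.PP
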