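import Mathlib
import Pool.Agent.H38R3.TPDefs
import Pool.Agent.TH770.PP.Defs
import Pool.Agent.TH770.PP.J_J1
import Pool.Agent.TH770.PP.J_J5
import Pool.Agent.TH770.PP.J_J6
import Pool.Agent.TH770.PP.J_J8

set_option autoImplicit false

namespace Pool.Agent.TH770.PP

open Cardinal Ordinal Set Pool.H38R3.TransPath

universe u

theorem aleph_two_regular : (ℵ_ 2 : Cardinal.{u}).IsRegular := by
  have := isRegular_aleph_add_one (1 : Ordinal.{u})
  rwa [one_add_one_eq_two] at this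

theorem aleph_one_lt_two : (ℵ_ 1 : Cardinal.{u}) < ℵ_ 2 := by
  rw [Cardinal.aleph_lt_aleph]
  norm_num

theorem omega_two_eq : (ω_ 2 : Ordinal.{u}) = (ℵ_ 2).ord := by
  rw [Cardinal.ord_aleph]

theorem add_three_lt {i : Ordinal.{u}} (hi : i < ω_ 2) : i + 3 < ω_ 2 := by
  have h : IsPrincipal (· + ·) (ω_ 2 : Ordinal.{u}) := isPrincipal_add_omega 2
  refine h hi ?_
  refine lt_of_lt_of_le ?_ (Ordinal.omega0_le_omega 2)
  exact Ordinal.natCast_lt_omega0 3

theorem regular_aleph_add_three (i : Ordinal.{u}) : (ℵ_ (i + 3)).IsRegular := by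
  have h := isRegular_aleph_add_one (i + 2)
  rwa [add_assoc, show (2 : Ordinal.{u}) + 1 = 3 by norm_num] at h

theorem two_lt_add_three (i : Ordinal.{u}) : ℵ_ 2 < ℵ_ (i + 3) := by
  rw [Cardinal.aleph_lt_aleph]
  calc (2 : Ordinal.{u}) < 3 := by norm_num
    _ ≤ i + 3 := le_add_self

theorem aleph_omega_two_mem : ℵ_ (ω_ 2) ∈ PathCardinals.{u} := by
  classical
  refine ⟨Cardinal.aleph0_le_aleph _, ?_⟩
  intro V hV c
  -- the index set
  let I : Type u := (ℵ_ 2 : Cardinal.{u}).ord.ToType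
  let o : I → Ordinal.{u} := fun i => (ToType.toOrd i : Ordinal.{u})
  have ho : ∀ i, o i < ω_ 2 := fun i => by
    have h : (ToType.toOrd i : Ordinal.{u}) < (ℵ_ 2 : Cardinal.{u}).ord := (ToType.toOrd i).2
    exact h.trans_eq (Cardinal.ord_aleph 2)
  have homono : ∀ i j : I, o i ≤ o j ↔ i ≤ j := by
    intro i j
    exact (ToType.mk (o := (ℵ_ 2 : Cardinal.{u}).ord)).symm.le_iff_le
  have hosurj : ∀ x : Ordinal.{u}, x < ω_ 2 → ∃ i : I, o i = x := by
    intro x hx
    rw [← Cardinal.ord_aleph] at hx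
    exact ⟨ToType.mk ⟨x, hx⟩, by simp [o, ToType.toOrd]⟩
  have hIcard : #I = ℵ_ 2 := Cardinal.mk_ord_toType _
  have hIcof : Order.cof I = ℵ_ 2 := by
    have h1 : Order.cof I = (ℵ_ 2 : Cardinal.{u}).ord.cof := by simp [I]
    rw [h1]
    exact aleph_two_regular.cof_ord
  have hIseg : ∀ r : I, #(Iio r) < #I := by
    intro r
    rw [hIcard]
    have h := Cardinal.mk_Iio_lt r (by simp [I])
    rwa [hIcard] at h
  have hIbdd : ∀ X : Set I, #X ≤ ℵ_ 1 → ∃ b, ∀ x ∈ X, x ≤ b := by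
    intro X hX
    by_contra hcon
    push Not at hcon
    have hcofT : IsCofinal X := fun x => by
      obtain ⟨t, ht, hxt⟩ := hcon x
      exact ⟨t, ht, hxt.le⟩
    have h1 := Order.cof_le hcofT
    rw [hIcof] at h1
    exact absurd (h1.trans hX) (not_le.mpr aleph_one_lt_two)
  let lam : I → Cardinal.{u} := fun i => ℵ_ (o i + 3)
  have hlamV : ∀ i, lam i < #V := by
    intro i
    rw [hV]
    exact Cardinal.aleph_lt_aleph.mpr (add_three_lt (ho i))
  have hlammono : Monotone lam := by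
    intro i j hij
    simp only [lam]
    rw [Cardinal.aleph_le_aleph]
    exact add_le_add_left ((homono i j).mpr hij) 3
  have hlam2 : ∀ i, ℵ_ 2 < lam i := fun i => two_lt_add_three (o i)
  have hlamreg : ∀ i, (lam i).IsRegular := fun i => regular_aleph_add_three (o i)
  -- blocks
  choose E B hE hBcard hBcommon hBcov using
    fun i : I => blocks c (hlamreg i) (hlam2 i).le (hlamV i).le
  obtain ⟨s, i0, hs⟩ := star hIbdd lam hlammono (fun i => aleph_one_lt_two.le.trans (hlam2 i).le)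
    hlamV E hE
    (fun i v s => lam i ≤ #((colourGraph c s.2).neighborSet v ∩ B i s : Set V)) hBcov
  set G := colourGraph c s.2 with hG
  -- richness
  have hrich : ∀ (i : I) (W : Set V), lam i < #W →
      (∀ w ∈ W, lam i ≤ #(G.neighborSet w ∩ B i s : Set V)) → Rich G (B i s) W (lam i) := by
    intro i W hW hexit
    exact rich_of (ho i) (hBcard i s) (fun a ha b hb hab => (hBcommon i s a ha b hb hab).le) hW hexit
  -- the function j
  let Q : I → I → Prop := fun r i => max r i0 ≤ i ∧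
    lam i < #{v | lam i ≤ #(G.neighborSet v ∩ B i s : Set V) ∧
      lam i0 ≤ #(G.neighborSet v ∩ B i0 s : Set V)}
  have hQ : ∀ r, ∃ i, Q r i := by
    intro r
    obtain ⟨i, h1, h2⟩ := hs (max r i0)
    exact ⟨i, h1, h2⟩
  have hwf : WellFounded ((· < ·) : I → I → Prop) := wellFounded_lt
  let j : I → I := fun r => hwf.min {i | Q r i} (hQ r)
  have hj : ∀ r, Q r (j r) := fun r => hwf.min_mem {i | Q r i} (hQ r)
  have hjmono : Monotone j := by
    intro r r' hrr
    have h1 : Q r (j r') := ⟨(max_le_max hrr le_rfl).trans (hj r').1, (hj r').2⟩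
    exact not_lt.mp (hwf.not_lt_min {i | Q r i} h1)
  let W' : I → Set V := fun r => {v | lam (j r) ≤ #(G.neighborSet v ∩ B (j r) s : Set V) ∧
      lam i0 ≤ #(G.neighborSet v ∩ B i0 s : Set V)}
  have hW' : ∀ r, lam (j r) < #(W' r) := fun r => (hj r).2
  have hi0j : ∀ r, i0 ≤ j r := fun r => (le_max_right _ _).trans (hj r).1
  have hrj : ∀ r, r ≤ j r := fun r => (le_max_left _ _).trans (hj r).1
  have hlam0 : ∀ r, lam i0 ≤ lam (j r) := fun r => hlammono (hi0j r)
  have hrich' : ∀ r, Rich G (B (j r) s) (W' r) (lam (j r)) :=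
    fun r => hrich (j r) (W' r) (hW' r) (fun w hw => hw.1)
  have hrich0 : Rich G (B i0 s) (W' i0) (lam i0) :=
    hrich i0 (W' i0) ((hlam0 i0).trans_lt (hW' i0)) (fun w hw => hw.2)
  obtain ⟨S, X, Y, a, x, d, d', y, b, hcof, hX, hY, hd, hXY, hXYc, hdisj, hen⟩ :=
    pass1 hrich0 (R := I) (by rw [hIcard]; exact aleph_two_regular)
      (by rw [hIcard]; exact hlam2 i0) hIseg (fun r => B (j r) s) W'
      (fun r => (hlam0 r).trans (hW' r).le)
      (fun r w hw => hw.2) (fun r w hw => (hlam0 r).trans hw.1)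
  have hScard : #S ≤ ℵ_ 2 := by
    rw [← hIcard]
    exact Cardinal.mk_set_le S
  let D : S → Set V := fun s => X s ∪ Y s ∪ {d s, d' s}
  have hDcard : ∀ s, #(D s) < lam i0 := by
    intro s
    have h0 := (hlamreg i0).aleph0_le
    refine union_lt h0 (union_lt h0 (hXYc s).1 (hXYc s).2) ?_
    have : ({d s, d' s} : Set V) = {d s} ∪ {d' s} := by
      ext z; simp [or_comm]
    rw [this]
    exact union_lt h0 (singleton_lt h0 _) (singleton_lt h0 _)
  have hUcard : #(⋃ s, D s : Set V) < lam i0 := by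
    refine (Cardinal.mk_iUnion_le D).trans_lt ?_
    refine Cardinal.mul_lt_of_lt (hlamreg i0).aleph0_le (hScard.trans_lt (hlam2 i0)) ?_
    exact Cardinal.iSup_lt_of_lt_cof_ord (by rw [(hlamreg i0).cof_ord]; exact hScard.trans_lt (hlam2 i0)) hDcard
  have hpr : ∀ r : S, ℵ_ (o (j r) + 2) < lam (j r) := by
    intro r
    simp only [lam]
    rw [Cardinal.aleph_lt_aleph]
    exact add_lt_add_right (by norm_num : (2 : Ordinal.{u}) < 3) (o (j r))
  obtain ⟨P, hP1, hP2, hP3, hP4⟩ := pass2 (G := G) (S := S) (fun r => B (j r) s) (fun r => W' r)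
    (fun r => lam (j r)) (fun r => ℵ_ (o (j r) + 2)) (fun r => hrich' r)
    (fun r r' hrr => hlammono (hjmono hrr)) (fun r => hScard.trans_lt (hlam2 _)) hpr
    (⋃ s, D s) (fun r => hUcard.trans_le (hlam0 r)) d d'
    (fun r => ⟨(hd r).1, (hd r).2.1, (hd r).2.2.1⟩)
    (fun r => ⟨mem_iUnion.mpr ⟨r, Or.inr (Or.inl rfl)⟩, mem_iUnion.mpr ⟨r, Or.inr (Or.inr rfl)⟩⟩)
    (fun r r' hrr => (hdisj r r' hrr).mono subset_union_right subset_union_right)
  have hDU : ∀ r, D r ⊆ ⋃ s, D s := fun r => subset_iUnion D r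
  -- the final pieces
  have hXP : ∀ r, Disjoint (X r) (P r) := by
    intro r
    rw [Set.disjoint_left]
    intro z hz hz'
    have h1 : z ∈ ({d r, d' r} : Set V) := hP3 r ⟨hz', hDU r (Or.inl (Or.inl hz))⟩
    exact Set.disjoint_left.mp (hXY r).2 (Or.inl hz) h1
  have hPY : ∀ r, Disjoint (P r) (Y r) := by
    intro r
    rw [Set.disjoint_left]
    intro z hz' hz
    have h1 : z ∈ ({d r, d' r} : Set V) := hP3 r ⟨hz', hDU r (Or.inl (Or.inr hz))⟩
    exact Set.disjoint_left.mp (hXY r).2 (Or.inr hz) h1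
  have hpiece : ∀ r, ClosedPath G ((X r ∪ P r) ∪ Y r) (a r) (b r) := by
    intro r
    refine ((hX r).append (hP1 r) (hXP r) (hd r).2.2.2.1).append (hY r) ?_ (hd r).2.2.2.2
    rw [Set.disjoint_union_left]
    exact ⟨(hXY r).1, hPY r⟩
  have hPD : ∀ r r', r ≠ r' → Disjoint (P r) (D r') := by
    intro r r' hrr
    rw [Set.disjoint_left]
    intro z hz hz'
    have h1 : z ∈ ({d r, d' r} : Set V) := hP3 r ⟨hz, hDU r' hz'⟩
    exact Set.disjoint_left.mp (hdisj r r' hrr) (Or.inr h1) hz'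
  have hXD : ∀ r, X r ⊆ D r := fun r z hz => Or.inl (Or.inl hz)
  have hYD : ∀ r, Y r ⊆ D r := fun r z hz => Or.inl (Or.inr hz)
  have hpd : ∀ r r', r ≠ r' → Disjoint ((X r ∪ P r) ∪ Y r) ((X r' ∪ P r') ∪ Y r') := by
    intro r r' hrr
    have e1 := hdisj r r' hrr
    have e2 := hPD r r' hrr
    have e3 := (hPD r' r hrr.symm).symm
    have e4 := hP4 r r' hrr
    rw [Set.disjoint_left]
    rintro z ((hz | hz) | hz) ((hz' | hz') | hz')
    · exact Set.disjoint_left.mp e1 (hXD r hz) (hXD r' hz')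
    · exact Set.disjoint_left.mp e3 (hXD r hz) hz'
    · exact Set.disjoint_left.mp e1 (hXD r hz) (hYD r' hz')
    · exact Set.disjoint_left.mp e2 hz (hXD r' hz')
    · exact Set.disjoint_left.mp e4 hz hz'
    · exact Set.disjoint_left.mp e2 hz (hYD r' hz')
    · exact Set.disjoint_left.mp e1 (hYD r hz) (hXD r' hz')
    · exact Set.disjoint_left.mp e3 (hYD r hz) hz'
    · exact Set.disjoint_left.mp e1 (hYD r hz) (hYD r' hz')
  have hDpiece : ∀ r, D r ⊆ (X r ∪ P r) ∪ Y r := by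
    rintro r z ((hz | hz) | hz)
    · exact Or.inl (Or.inl hz)
    · exact Or.inr hz
    · rcases hz with rfl | hz
      · exact Or.inl (Or.inr (hP1 r).left_mem)
      · rw [mem_singleton_iff] at hz
        subst hz
        exact Or.inl (Or.inr (hP1 r).right_mem)
  have hopen : OpenPath G (⋃ r, ((X r ∪ P r) ∪ Y r)) := by
    refine OpenPath.concat (fun r => (X r ∪ P r) ∪ Y r) a b hpiece hpd ?_
    intro r' r hrr
    rcases hen r' r hrr with ⟨r'', h1, h2, z, hz, hz'⟩ | h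
    · exact Or.inl ⟨r'', h1, h2, z, hDpiece r'' hz, hz'⟩
    · exact Or.inr h
  obtain ⟨Q', hQ1, hQ2⟩ := hopen.transPath
  refine ⟨s.2, Q', hQ1, ?_⟩
  rw [hQ2]
  refine le_antisymm ?_ ?_
  · rw [← hV]
    exact Cardinal.mk_set_le _
  · by_contra hcon
    push Not at hcon
    have hlim : Order.IsSuccLimit (ω_ 2 : Ordinal.{u}) := isSuccLimit_omega 2
    rw [Cardinal.aleph_limit hlim] at hcon
    have : Nonempty (Iio (ω_ 2 : Ordinal.{u})) := ⟨⟨0, hlim.bot_lt⟩⟩
    obtain ⟨⟨t, ht⟩, ht'⟩ := exists_lt_of_lt_ciSup hcon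
    obtain ⟨i, hi⟩ := hosurj t ht
    obtain ⟨r, hrS, hir⟩ := hcof i
    have h1 : ℵ_ t ≤ #(P ⟨r, hrS⟩) := by
      refine le_trans ?_ (hP2 ⟨r, hrS⟩)
      rw [Cardinal.aleph_le_aleph, ← hi]
      calc o i ≤ o (j r) := (homono _ _).mpr (hir.trans (hrj r))
        _ ≤ o (j r) + 2 := le_self_add
    have h2 : #(P ⟨r, hrS⟩) ≤ #(⋃ r, ((X r ∪ P r) ∪ Y r) : Set V) := by
      refine Cardinal.mk_le_mk_of_subset ?_
      intro z hz
      exact mem_iUnion.mpr ⟨⟨r, hrS⟩, Or.inl (Or.inr hz)⟩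
    exact absurd (ht'.trans_le (h1.trans h2)) (lt_irrefl _)

end Pool.Agent.TH770.PP
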